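import Mathlib

set_option autoImplicit false

/-!
# Girth five: the graphs (MP_1b49f3_co, second theorem)

Vertices are `0, ..., p - 1` (label minus one). A graph is given by a function `L`: for each sum `s` in
`[lo, hi]` the edge with sum `s` is `{L s, s - L s}`.
-/

namespace Pool.Agent.GFv

/-- `{u, v}` is the edge with its sum. -/
def Ed (L : ℕ → ℕ) (lo hi u v : ℕ) : Prop := lo ≤ u + v ∧ u + v ≤ hi ∧ (L (u + v) = u ∨ L (u + v) = v)

instance (L : ℕ → ℕ) (lo hi u v : ℕ) : Decidable (Ed L lo hi u v) :=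
  inferInstanceAs (Decidable (_ ∧ _))

/-- The edges are edges of a graph on `0, ..., p - 1`. -/
def Ok (L : ℕ → ℕ) (lo hi p : ℕ) : Prop := ∀ s, lo ≤ s → s ≤ hi → 2 * L s < s ∧ s - L s < p

/-- The graph. -/
def Gg (L : ℕ → ℕ) (lo hi p : ℕ) : SimpleGraph (Fin p) where
  Adj u v := u ≠ v ∧ Ed L lo hi u v
  symm := ⟨fun u v h => ⟨h.1.symm, by
    have h2 := h.2
    unfold Ed at h2 ⊢
    rw [add_comm (v : ℕ) (u : ℕ)]
    tauto⟩⟩
  loopless := ⟨fun _ h => h.1 rfl⟩

/-- No cycle of length three or four. -/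
def NoS (L : ℕ → ℕ) (lo hi : ℕ) : Prop :=
  (∀ a b c : ℕ, Ed L lo hi a b → Ed L lo hi b c → Ed L lo hi c a → False) ∧
  (∀ a b c d : ℕ, a ≠ c → b ≠ d → Ed L lo hi a b → Ed L lo hi b c → Ed L lo hi c d →
    Ed L lo hi d a → False)

/-- The neighbours of `a` among `0, ..., p - 1`. -/
def nb (L : ℕ → ℕ) (lo hi p a : ℕ) : List ℕ :=
  (List.range p).filter fun v => decide (Ed L lo hi a v)

/-- Check for one vertex: the neighbours and the ends of the paths of length two are all different. -/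
def chk1 (L : ℕ → ℕ) (lo hi p a : ℕ) : Bool :=
  decide ((nb L lo hi p a ++ (nb L lo hi p a).flatMap fun b => (nb L lo hi p b).filter fun c => c != a).Nodup)

/-- Check for all vertices. -/
def chk (L : ℕ → ℕ) (lo hi p : ℕ) : Bool := (List.range p).all fun a => chk1 L lo hi p a

/-- The end table (differences for the sums `2, ..., 14`). -/
def dlo (s : ℕ) : ℕ := [2, 1, 2, 5, 6, 1, 8, 3, 8, 3, 4, 7, 4].getD (s - 2) 0

/-- The end table of the other parity (differences for the sums `2, ..., 16`). -/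
def dhi (s : ℕ) : ℕ := [2, 3, 2, 5, 2, 5, 6, 5, 8, 5, 4, 5, 4, 7, 4].getD (s - 2) 0

/-- The middle. -/
def dmid (s : ℕ) : ℕ := [2, 5, 6, 5].getD (s % 4) 0

/-- The difference of the ends of the edge with sum `s` in the graph of order `p`. -/
def dd (p s : ℕ) : ℕ :=
  if s < 15 then dlo s
  else if p % 2 = 1 then (if 2 * p - 2 - s < 15 then dlo (2 * p - 2 - s) else dmid s)
  else (if 2 * p - 2 - s < 17 then dhi (2 * p - 2 - s) else dmid s)

/-- The smaller end of the edge with sum `s` in the graph of order `p ≥ 19`. -/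
def LL (p s : ℕ) : ℕ := (s - dd p s) / 2

/-- The small graphs: the smaller ends for the sums `2, 3, ...`. -/
def tab : ℕ → List ℕ
  | 5 => [0, 0, 1, 1, 2]
  | 6 => [0, 0, 0, 1, 1, 2]
  | 7 => [0, 0, 0, 0, 1, 1, 2]
  | 8 => [0, 0, 1, 0, 2, 1, 1, 2, 4, 5]
  | 9 => [0, 0, 1, 0, 2, 1, 2, 1, 3, 4, 4, 5]
  | 10 => [0, 0, 1, 1, 1, 2, 2, 0, 4, 3, 5, 4, 6, 7, 7]
  | 11 => [0, 0, 1, 1, 0, 2, 1, 2, 4, 3, 2, 5, 4, 6, 7, 8]
  | 12 => [0, 0, 1, 1, 0, 2, 1, 2, 1, 0, 4, 5, 5, 6, 6, 7, 8, 8]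
  | 13 => [0, 0, 1, 1, 2, 1, 3, 0, 2, 4, 5, 5, 4, 6, 7, 5, 6, 8, 9, 10, 10]
  | 14 => [0, 0, 1, 1, 2, 1, 3, 2, 0, 2, 5, 5, 3, 6, 6, 4, 8, 7, 9, 8, 10, 11, 11]
  | 15 => [0, 1, 0, 2, 0, 2, 1, 1, 0, 4, 3, 1, 6, 4, 7, 3, 5, 9, 6, 8, 10, 10, 11, 11, 12]
  | 16 => [0, 0, 1, 1, 1, 2, 0, 2, 4, 4, 4, 3, 5, 6, 5, 5, 3, 8, 7, 6, 8, 9, 10, 12, 11, 13, 13]
  | 17 => [0, 1, 1, 1, 0, 2, 0, 3, 1, 4, 4, 6, 2, 5, 6, 3, 7, 7, 4, 5, 9, 8, 11, 10, 12, 12, 13, 13, 14]
  | 18 => [0, 1, 0, 2, 0, 2, 1, 1, 0, 0, 3, 6, 1, 6, 4, 5, 4, 8, 3, 5, 7, 10, 8, 9, 10, 13, 11, 12, 13, 15, 15]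
  | _ => []

/-- The smaller end for the small graphs. -/
def LT (p s : ℕ) : ℕ := (tab p).getD (s - 2) 0

-- BEGIN ed_comm
/-- PROOF. `Nat.add_comm`, `tauto`. -/
theorem ed_comm (L : ℕ → ℕ) (lo hi u v : ℕ) : Ed L lo hi u v ↔ Ed L lo hi v u := by
  unfold Ed
  rw [add_comm v u]
  constructor
  · rintro ⟨h1, h2, h3⟩
    exact ⟨h1, h2, h3.symm⟩
  · rintro ⟨h1, h2, h3⟩
    exact ⟨h1, h2, h3.symm⟩
-- END ed_comm

-- BEGIN gl_card
/-- The graph has one edge for every sum. PROOF. The map `s ↦ s(⟨L s, _⟩, ⟨s - L s, _⟩)` from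
`Finset.Icc lo hi` to the edge set is bijective (as in `sumE_inj`, `sumE_surj`, `card_edge` of
`MP_1b49f3_co/Close.lean`, which may be adapted with `L` for `Ln`); `lo = 2`. -/
theorem gl_card (L : ℕ → ℕ) (q p : ℕ) (h : Ok L 2 (q + 1) p) :
    Nat.card (Gg L 2 (q + 1) p).edgeSet = q := by
  have hL : ∀ x : {s // s ∈ Finset.Icc 2 (q + 1)}, 2 * L x.1 < x.1 ∧ x.1 - L x.1 < p := by
    intro x
    have hx := Finset.mem_Icc.1 x.2
    exact h x.1 hx.1 hx.2
  let f : {s // s ∈ Finset.Icc 2 (q + 1)} → (Gg L 2 (q + 1) p).edgeSet := fun x =>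
    ⟨s((⟨L x.1, by have := hL x; omega⟩ : Fin p), ⟨x.1 - L x.1, (hL x).2⟩), by
      have h1 := hL x
      have hx := Finset.mem_Icc.1 x.2
      rw [SimpleGraph.mem_edgeSet]
      refine ⟨?_, ?_⟩
      · intro hc
        have h2 : L x.1 = x.1 - L x.1 := congrArg Fin.val hc
        omega
      · have h3 : L x.1 + (x.1 - L x.1) = x.1 := by omega
        change 2 ≤ L x.1 + (x.1 - L x.1) ∧ L x.1 + (x.1 - L x.1) ≤ q + 1 ∧
          (L (L x.1 + (x.1 - L x.1)) = L x.1 ∨ L (L x.1 + (x.1 - L x.1)) = x.1 - L x.1)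
        rw [h3]
        exact ⟨hx.1, hx.2, Or.inl rfl⟩⟩
  have hf : Function.Bijective f := by
    constructor
    · intro x y hxy
      have h1 := congrArg Subtype.val hxy
      have h2 : s((⟨L x.1, by have := hL x; omega⟩ : Fin p), ⟨x.1 - L x.1, (hL x).2⟩) =
          s((⟨L y.1, by have := hL y; omega⟩ : Fin p), ⟨y.1 - L y.1, (hL y).2⟩) := h1
      rw [Sym2.eq_iff] at h2
      have hx := hL x
      have hy := hL y
      apply Subtype.ext
      rcases h2 with ⟨a, b⟩ | ⟨a, b⟩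
      · have a' : L x.1 = L y.1 := congrArg Fin.val a
        have b' : x.1 - L x.1 = y.1 - L y.1 := congrArg Fin.val b
        omega
      · have a' : L x.1 = y.1 - L y.1 := congrArg Fin.val a
        have b' : x.1 - L x.1 = L y.1 := congrArg Fin.val b
        omega
    · rintro ⟨e, he⟩
      induction e using Sym2.ind with
      | _ u v =>
        rw [SimpleGraph.mem_edgeSet] at he
        obtain ⟨hne, h1, h2, h3⟩ := he
        refine ⟨⟨(u : ℕ) + v, Finset.mem_Icc.2 ⟨h1, h2⟩⟩, ?_⟩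
        apply Subtype.ext
        change s((⟨L ((u : ℕ) + v), _⟩ : Fin p), ⟨(u : ℕ) + v - L ((u : ℕ) + v), _⟩) = s(u, v)
        rw [Sym2.eq_iff]
        rcases h3 with h3 | h3
        · left
          exact ⟨Fin.ext h3, Fin.ext (by change (u : ℕ) + v - L ((u : ℕ) + v) = v; omega)⟩
        · right
          exact ⟨Fin.ext h3, Fin.ext (by change (u : ℕ) + v - L ((u : ℕ) + v) = u; omega)⟩
  rw [← Nat.card_congr (Equiv.ofBijective f hf), Nat.card_eq_fintype_card, Fintype.card_coe,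
    Nat.card_Icc]
  omega
-- END gl_card

-- BEGIN chk_s
private theorem chk_s_lt (L : ℕ → ℕ) (lo hi p : ℕ) (h : Ok L lo hi p) {u v : ℕ}
    (he : Ed L lo hi u v) : u < p ∧ v < p ∧ u ≠ v := by
  obtain ⟨h1, h2, h3⟩ := he
  have h4 := h _ h1 h2
  rcases h3 with h3 | h3 <;> rw [h3] at h4 <;> omega

private theorem chk_s_nb (L : ℕ → ℕ) (lo hi p : ℕ) (h : Ok L lo hi p) {u v : ℕ}
    (he : Ed L lo hi u v) : v ∈ nb L lo hi p u := by
  unfold nb
  rw [List.mem_filter, List.mem_range]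
  exact ⟨(chk_s_lt L lo hi p h he).2.1, decide_eq_true he⟩

/-- The check is sound. PROOF. The ends of an edge are `< p` by `Ok` (`L s < p` and `s - L s < p`) and
different. A triangle `a b c`: `c` is a neighbour of `a` and in the list of the second kind (via `b`):
against `List.nodup_append` (disjoint). A `4`-cycle `a b c d`: `c ≠ a` occurs via `b` and via `d ≠ b`:
against `List.nodup_flatMap` (pairwise disjoint). -/
theorem chk_s (L : ℕ → ℕ) (lo hi p : ℕ) (h : Ok L lo hi p) (hc : chk L lo hi p = true) :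
    NoS L lo hi := by
  have key : ∀ a, a < p → (nb L lo hi p a ++ (nb L lo hi p a).flatMap fun b =>
      (nb L lo hi p b).filter fun c => c != a).Nodup := by
    intro a ha
    unfold chk at hc
    rw [List.all_eq_true] at hc
    have h1 := hc a (List.mem_range.2 ha)
    unfold chk1 at h1
    exact of_decide_eq_true h1
  have sy : ∀ u v, Ed L lo hi u v → Ed L lo hi v u := fun u v he => (ed_comm L lo hi u v).1 he
  constructor
  · intro a b c hab hbc hca
    have ha := (chk_s_lt L lo hi p h hab).1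
    have h1 := key a ha
    rw [List.nodup_append'] at h1
    have h2 := h1.2.2
    have hcb : c ∈ (nb L lo hi p b).filter fun c => c != a := by
      rw [List.mem_filter]
      refine ⟨chk_s_nb L lo hi p h hbc, ?_⟩
      have := (chk_s_lt L lo hi p h hca).2.2
      simpa using this
    exact h2 (chk_s_nb L lo hi p h (sy _ _ hca))
      (List.mem_flatMap.2 ⟨b, chk_s_nb L lo hi p h hab, hcb⟩)
  · intro a b c d hac hbd hab hbc hcd hda
    have ha := (chk_s_lt L lo hi p h hab).1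
    have h1 := key a ha
    rw [List.nodup_append'] at h1
    have h2 := (List.nodup_flatMap.1 h1.2.1).2
    have h3 : ∀ x ∈ nb L lo hi p a, ∀ y ∈ nb L lo hi p a, x ≠ y →
        List.Disjoint ((nb L lo hi p x).filter fun c => c != a)
          ((nb L lo hi p y).filter fun c => c != a) := by
      intro x hx y hy hxy
      rcases List.mem_iff_getElem.1 hx with ⟨i, hi', rfl⟩
      rcases List.mem_iff_getElem.1 hy with ⟨j, hj', rfl⟩
      rcases lt_trichotomy i j with hij | hij | hij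
      · exact List.pairwise_iff_getElem.1 h2 i j hi' hj' hij
      · subst hij; exact absurd rfl hxy
      · exact (List.pairwise_iff_getElem.1 h2 j i hj' hi' hij).symm
    have hca : (c != a) = true := by simpa using hac.symm
    have e1 : c ∈ (nb L lo hi p b).filter fun c => c != a :=
      List.mem_filter.2 ⟨chk_s_nb L lo hi p h hbc, hca⟩
    have e2 : c ∈ (nb L lo hi p d).filter fun c => c != a :=
      List.mem_filter.2 ⟨chk_s_nb L lo hi p h (sy _ _ hcd), hca⟩
    exact h3 b (chk_s_nb L lo hi p h hab) d (chk_s_nb L lo hi p h (sy _ _ hda)) hbd e1 e2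
-- END chk_s

-- BEGIN gl_girth
/-- Girth five. PROOF. `girth ≤ 5`: the cycle of length five (`SimpleGraph.girth_le_length`; or as in
`girth_le` of `MP_1b49f3_co/Close.lean`). `5 ≤ girth`: the girth is the length of a cycle
(`SimpleGraph.exists_girth_eq_length`, the graph is not acyclic); a cycle has length `≥ 3`; length
`3` or `4` gives the adjacencies for `NoS` (destruct the walk; compare `girth_ge` of
`MP_1b49f3_co/Close.lean`). -/
theorem gl_girth (L : ℕ → ℕ) (lo hi p : ℕ) (h : Ok L lo hi p) (hn : NoS L lo hi)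
    (c : Fin 5 → ℕ) (hc : Function.Injective c) (h0 : ∀ i, c i < p)
    (h1 : ∀ i : Fin 5, Ed L lo hi (c i) (c (i + 1))) : (Gg L lo hi p).girth = 5 := by
  have hge : ((5 : ℕ) : ℕ∞) ≤ (Gg L lo hi p).egirth := by
    rw [SimpleGraph.le_egirth]
    intro a w hw
    rw [Nat.cast_le]
    by_contra hlt
    push Not at hlt
    have hl3 : 3 ≤ w.length := hw.three_le_length
    have hadj : ∀ i, i < w.length → Ed L lo hi (w.getVert i) (w.getVert (i + 1)) := fun i hi =>
      (w.adj_getVert_succ hi).2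
    have hend : w.getVert w.length = w.getVert 0 := by
      rw [SimpleGraph.Walk.getVert_length, SimpleGraph.Walk.getVert_zero]
    rcases Nat.lt_or_ge w.length 4 with h4 | h4
    · have hl : w.length = 3 := by omega
      have e0 := hadj 0 (by omega)
      have e1 := hadj 1 (by omega)
      have e2 := hadj 2 (by omega)
      rw [hl] at hend
      rw [show (2 + 1 : ℕ) = 3 from rfl, hend] at e2
      exact hn.1 _ _ _ e0 e1 e2
    · have hl : w.length = 4 := by omega
      have e0 := hadj 0 (by omega)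
      have e1 := hadj 1 (by omega)
      have e2 := hadj 2 (by omega)
      have e3 := hadj 3 (by omega)
      rw [hl] at hend
      rw [show (3 + 1 : ℕ) = 4 from rfl, hend] at e3
      have hne : ∀ i j : ℕ, i < 4 → j < 4 → i ≠ j →
          ((w.getVert i : Fin p) : ℕ) ≠ ((w.getVert j : Fin p) : ℕ) := by
        intro i j hi hj hij he
        exact hij (hw.getVert_injOn' (by simp only [Set.mem_ofPred_eq]; omega)
          (by simp only [Set.mem_ofPred_eq]; omega) (Fin.ext he))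
      exact hn.2 _ _ _ _ (hne 0 2 (by omega) (by omega) (by omega))
        (hne 1 3 (by omega) (by omega) (by omega)) e0 e1 e2 e3
  have hle : (Gg L lo hi p).egirth ≤ ((5 : ℕ) : ℕ∞) := by
    set v : Fin 5 → Fin p := fun i => ⟨c i, h0 i⟩ with hv
    have hvi : Function.Injective v := fun i j hij => hc (congrArg Fin.val hij)
    have hadj : ∀ i : Fin 5, (Gg L lo hi p).Adj (v i) (v (i + 1)) := by
      intro i
      refine ⟨fun he => ?_, h1 i⟩
      have := hvi he
      revert this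
      fin_cases i <;> decide
    have a0 : (Gg L lo hi p).Adj (v 0) (v 1) := hadj 0
    have a1 : (Gg L lo hi p).Adj (v 1) (v 2) := hadj 1
    have a2 : (Gg L lo hi p).Adj (v 2) (v 3) := hadj 2
    have a3 : (Gg L lo hi p).Adj (v 3) (v 4) := hadj 3
    have a4 : (Gg L lo hi p).Adj (v 4) (v 0) := hadj 4
    have n01 : v 0 ≠ v 1 := fun he => absurd (hvi he) (by decide)
    have n02 : v 0 ≠ v 2 := fun he => absurd (hvi he) (by decide)
    have n03 : v 0 ≠ v 3 := fun he => absurd (hvi he) (by decide)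
    have n04 : v 0 ≠ v 4 := fun he => absurd (hvi he) (by decide)
    have n12 : v 1 ≠ v 2 := fun he => absurd (hvi he) (by decide)
    have n13 : v 1 ≠ v 3 := fun he => absurd (hvi he) (by decide)
    have n14 : v 1 ≠ v 4 := fun he => absurd (hvi he) (by decide)
    have n23 : v 2 ≠ v 3 := fun he => absurd (hvi he) (by decide)
    have n24 : v 2 ≠ v 4 := fun he => absurd (hvi he) (by decide)
    have n34 : v 3 ≠ v 4 := fun he => absurd (hvi he) (by decide)
    let q : (Gg L lo hi p).Walk (v 1) (v 0) :=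
      .cons a1 (.cons a2 (.cons a3 (.cons a4 .nil)))
    have hq : q.IsPath := by
      rw [SimpleGraph.Walk.isPath_def]
      simp only [q, SimpleGraph.Walk.support_cons, SimpleGraph.Walk.support_nil, List.nodup_cons,
        List.mem_cons, List.not_mem_nil, or_false, not_or, List.nodup_nil, and_true]
      exact ⟨⟨n12, n13, n14, n01.symm⟩, ⟨n23, n24, n02.symm⟩, ⟨n34, n03.symm⟩, n04.symm, not_false⟩
    have hcy : (SimpleGraph.Walk.cons a0 q).IsCycle := by
      rw [SimpleGraph.Walk.cons_isCycle_iff]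
      refine ⟨hq, ?_⟩
      simp only [q, SimpleGraph.Walk.edges_cons, SimpleGraph.Walk.edges_nil, List.mem_cons,
        List.not_mem_nil, or_false, not_or, Sym2.eq_iff]
      exact ⟨⟨fun g => n01 g.1, fun g => n02 g.1⟩, ⟨fun g => n02 g.1, fun g => n03 g.1⟩,
        ⟨fun g => n03 g.1, fun g => n04 g.1⟩, fun g => n04 g.1, fun g => n14 g.2⟩
    have hlen : (SimpleGraph.Walk.cons a0 q).length = 5 := rfl
    have := (SimpleGraph.le_egirth (G := Gg L lo hi p) (n := (Gg L lo hi p).egirth)).1 le_rfl _ _ hcy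
    rw [hlen] at this
    exact this
  have he : (Gg L lo hi p).egirth = ((5 : ℕ) : ℕ∞) := le_antisymm hle hge
  rw [SimpleGraph.girth, he, ENat.toNat_natCast]
-- END gl_girth

-- BEGIN ok_LL
private theorem ok_LL_lo : ∀ s < 15, 2 ≤ s →
    dlo s ≤ 8 ∧ dlo s % 2 = s % 2 ∧ 0 < dlo s ∧ dlo s ≤ s := by
  decide

private theorem ok_LL_hi : ∀ s < 17, 2 ≤ s →
    dhi s ≤ 8 ∧ dhi s % 2 = s % 2 ∧ 0 < dhi s ∧ dhi s ≤ s := by
  decide

private theorem ok_LL_mid (s : ℕ) : dmid s ≤ 6 ∧ dmid s % 2 = s % 2 ∧ 0 < dmid s := by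
  unfold dmid
  have h1 : s % 2 = (s % 4) % 2 := by omega
  have h2 : s % 4 < 4 := Nat.mod_lt _ (by norm_num)
  rw [h1]
  generalize s % 4 = r at h2
  interval_cases r <;> decide

private theorem ok_LL_dd (p s : ℕ) (hp : 19 ≤ p) (h1 : 2 ≤ s) (h2 : s ≤ 2 * p - 4) :
    dd p s % 2 = s % 2 ∧ 0 < dd p s ∧ dd p s ≤ s ∧ dd p s ≤ 2 * p - 2 - s := by
  unfold dd
  have hm := ok_LL_mid s
  split_ifs with a b c d
  · have h3 := ok_LL_lo s a h1
    omega
  · have h3 := ok_LL_lo (2 * p - 2 - s) c (by omega)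
    omega
  · omega
  · have h3 := ok_LL_hi (2 * p - 2 - s) d (by omega)
    omega
  · omega

/-- PROOF. `dd p s ≤ 8`, `dd p s ≡ s mod 2`, `0 < dd p s`, `dd p s ≤ s` and
`dd p s ≤ 2 p - 2 - s` in all cases: cases of the definition; the tables by `interval_cases`
(`s`, resp. `2 * p - 2 - s`), the middle by `s % 4`. Then `2 * LL p s = s - dd p s`. -/
theorem ok_LL (p : ℕ) (hp : 19 ≤ p) : Ok (LL p) 2 (2 * p - 4) p := by
  intro s h1 h2
  have h3 := ok_LL_dd p s hp h1 h2
  unfold LL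
  omega
-- END ok_LL

-- BEGIN dd_le
private theorem dd_le_lo : ∀ s < 15, 2 ≤ s → dlo s ≤ 8 ∧ dlo s % 2 = s % 2 := by
  decide

private theorem dd_le_hi : ∀ s < 17, 2 ≤ s → dhi s ≤ 8 ∧ dhi s % 2 = s % 2 := by
  decide

private theorem dd_le_mid (s : ℕ) : dmid s ≤ 8 ∧ dmid s % 2 = s % 2 := by
  unfold dmid
  have h1 : s % 2 = (s % 4) % 2 := by omega
  have h2 : s % 4 < 4 := Nat.mod_lt _ (by norm_num)
  rw [h1]
  generalize s % 4 = r at h2
  interval_cases r <;> decide

private theorem dd_le_dd (p s : ℕ) (h1 : 2 ≤ s) (h2 : s ≤ 2 * p - 4) (hp : 19 ≤ p) :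
    dd p s ≤ 8 ∧ dd p s % 2 = s % 2 := by
  unfold dd
  have hm := dd_le_mid s
  split_ifs with a b c d
  · exact dd_le_lo s a h1
  · have h3 := dd_le_lo (2 * p - 2 - s) c (by omega)
    omega
  · exact hm
  · have h3 := dd_le_hi (2 * p - 2 - s) d (by omega)
    omega
  · exact hm

/-- The ends of an edge differ by at most `8`. PROOF. As `ok_LL` (`dd p s ≤ 8`). -/
theorem dd_le (p u v : ℕ) (hp : 19 ≤ p) (h : Ed (LL p) 2 (2 * p - 4) u v) :
    u ≤ v + 8 ∧ v ≤ u + 8 := by
  obtain ⟨h1, h2, h3⟩ := h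
  have h4 := ok_LL p hp (u + v) h1 h2
  have h5 := dd_le_dd p (u + v) h1 h2 hp
  unfold LL at h3 h4
  omega
-- END dd_le

-- BEGIN stay
/-- Away from the high end the graph does not change. PROOF. `dd (p + 2) s = dd p s`: for `s < 15` clear;
otherwise both are `dmid s` (for `p + 2` the number `2 (p + 2) - 2 - s` is larger still). -/
theorem stay (p u v : ℕ) (hs : u + v + 19 ≤ 2 * p) :
    Ed (LL (p + 2)) 2 (2 * (p + 2) - 4) u v ↔ Ed (LL p) 2 (2 * p - 4) u v := by
  have e1 : dd (p + 2) (u + v) = dd p (u + v) := by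
    unfold dd
    have h1 : (p + 2) % 2 = p % 2 := by omega
    rw [h1, if_neg (by omega : ¬ 2 * (p + 2) - 2 - (u + v) < 15),
      if_neg (by omega : ¬ 2 * (p + 2) - 2 - (u + v) < 17),
      if_neg (by omega : ¬ 2 * p - 2 - (u + v) < 15),
      if_neg (by omega : ¬ 2 * p - 2 - (u + v) < 17)]
  have e2 : LL (p + 2) (u + v) = LL p (u + v) := by
    unfold LL
    rw [e1]
  unfold Ed
  rw [e2]
  omega
-- END stay

-- BEGIN shift
private theorem shift_get (l : List ℕ) (h : ∀ x ∈ l, x ≤ 8) (i : ℕ) : l.getD i 0 ≤ 8 := by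
  rw [List.getD_eq_getElem?_getD]
  rcases hx : l[i]? with _ | x
  · simp
  · exact h x (List.mem_of_getElem? hx)

private theorem shift_le (p s : ℕ) : dd p s ≤ 8 := by
  have h1 : ∀ s, dlo s ≤ 8 := fun s => shift_get _ (by decide) _
  have h2 : ∀ s, dhi s ≤ 8 := fun s => shift_get _ (by decide) _
  have h3 : ∀ s, dmid s ≤ 8 := fun s => shift_get _ (by decide) _
  unfold dd
  split_ifs
  all_goals first | exact h1 _ | exact h2 _ | exact h3 _

private theorem shift_dd (p s : ℕ) (hs : 15 ≤ s) (h : s + 4 ≤ 2 * p) :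
    dd (p + 2) (s + 4) = dd p s := by
  have e1 : 2 * (p + 2) - 2 - (s + 4) = 2 * p - 2 - s := by omega
  have e2 : (p + 2) % 2 = p % 2 := by omega
  have e3 : dmid (s + 4) = dmid s := by
    unfold dmid
    rw [Nat.add_mod_right]
  unfold dd
  rw [if_neg (by omega : ¬ s + 4 < 15), if_neg (by omega : ¬ s < 15), e1, e2, e3]

/-- Away from the low end the graph is shifted by `2`. PROOF. With `s = u + v`:
`dd (p + 2) (s + 4) = dd p s` for `15 ≤ s`: the same `2 p - 2 - s`, the same parity of `p`, and `dmid`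
has period four. So `LL (p + 2) (s + 4) = LL p s + 2`. -/
theorem shift (p u v : ℕ) (hs : 15 ≤ u + v) :
    Ed (LL (p + 2)) 2 (2 * (p + 2) - 4) (u + 2) (v + 2) ↔ Ed (LL p) 2 (2 * p - 4) u v := by
  have e : u + 2 + (v + 2) = u + v + 4 := by omega
  unfold Ed
  rw [e]
  by_cases h : u + v + 4 ≤ 2 * p
  · have h1 := shift_dd p (u + v) hs h
    have h2 := shift_le p (u + v)
    have h3 : LL (p + 2) (u + v + 4) = LL p (u + v) + 2 := by
      unfold LL
      rw [h1]
      omega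
    rw [h3]
    omega
  · omega
-- END shift

-- BEGIN step
/-- PROOF. Let `a b c` (or `a b c d`) be a short cycle for `p + 2` (`19 ≤ p + 2`). By `dd_le` (and `ed_comm`)
adjacent vertices differ by at most `8`, so any two of the vertices by at most `16`. If some edge sum
is `≤ 18` then its smaller end is `≤ 9`, all vertices are `≤ 25`, all edge sums are `≤ 50 ≤ 2 p - 19` as
`35 ≤ p`: by `stay` it is a cycle for `p`. Otherwise all edge sums are `≥ 19`, so all vertices are `≥ 2`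
(a vertex `≤ 1` has a neighbour `≥ 18`, against `dd_le`): write them as `x + 2` and use `shift`. -/
theorem step (p : ℕ) (hp : 35 ≤ p) (h : NoS (LL p) 2 (2 * p - 4)) :
    NoS (LL (p + 2)) 2 (2 * (p + 2) - 4) := by
  have dle : ∀ u v, Ed (LL (p + 2)) 2 (2 * (p + 2) - 4) u v → u ≤ v + 8 ∧ v ≤ u + 8 :=
    fun u v => dd_le (p + 2) u v (by omega)
  have hst : ∀ u v, u + v + 19 ≤ 2 * p → Ed (LL (p + 2)) 2 (2 * (p + 2) - 4) u v →
      Ed (LL p) 2 (2 * p - 4) u v := fun u v hs => (stay p u v hs).mp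
  have hsh : ∀ u v, 15 ≤ u + v → Ed (LL (p + 2)) 2 (2 * (p + 2) - 4) (u + 2) (v + 2) →
      Ed (LL p) 2 (2 * p - 4) u v := fun u v hs => (shift p u v hs).mp
  constructor
  · intro a b c h1 h2 h3
    have d1 := dle _ _ h1
    have d2 := dle _ _ h2
    have d3 := dle _ _ h3
    by_cases hs : 19 ≤ a + b ∧ 19 ≤ b + c ∧ 19 ≤ c + a
    · obtain ⟨a', rfl⟩ : ∃ a', a = a' + 2 := ⟨a - 2, by omega⟩
      obtain ⟨b', rfl⟩ : ∃ b', b = b' + 2 := ⟨b - 2, by omega⟩
      obtain ⟨c', rfl⟩ : ∃ c', c = c' + 2 := ⟨c - 2, by omega⟩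
      exact h.1 a' b' c' (hsh a' b' (by omega) h1) (hsh b' c' (by omega) h2)
        (hsh c' a' (by omega) h3)
    · exact h.1 a b c (hst a b (by omega) h1) (hst b c (by omega) h2) (hst c a (by omega) h3)
  · intro a b c d hac hbd h1 h2 h3 h4
    have d1 := dle _ _ h1
    have d2 := dle _ _ h2
    have d3 := dle _ _ h3
    have d4 := dle _ _ h4
    by_cases hs : 19 ≤ a + b ∧ 19 ≤ b + c ∧ 19 ≤ c + d ∧ 19 ≤ d + a
    · obtain ⟨a', rfl⟩ : ∃ a', a = a' + 2 := ⟨a - 2, by omega⟩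
      obtain ⟨b', rfl⟩ : ∃ b', b = b' + 2 := ⟨b - 2, by omega⟩
      obtain ⟨c', rfl⟩ : ∃ c', c = c' + 2 := ⟨c - 2, by omega⟩
      obtain ⟨d', rfl⟩ : ∃ d', d = d' + 2 := ⟨d - 2, by omega⟩
      exact h.2 a' b' c' d' (by omega) (by omega) (hsh a' b' (by omega) h1)
        (hsh b' c' (by omega) h2) (hsh c' d' (by omega) h3) (hsh d' a' (by omega) h4)
    · exact h.2 a b c d hac hbd (hst a b (by omega) h1) (hst b c (by omega) h2)
        (hst c d (by omega) h3) (hst d a (by omega) h4)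
-- END step

-- BEGIN base
private theorem base_chk : ∀ p ∈ List.range' 19 18, chk (LL p) 2 (2 * p - 4) p = true := by
  decide +kernel

/-- PROOF. `interval_cases p`, then `chk_s` with `ok_LL` and `decide` (kernel; if it is slow use
`by decide +kernel` or `rfl`; the lists have at most `36` elements; `Nat.decEq` on literals). -/
theorem base (p : ℕ) (h1 : 19 ≤ p) (h2 : p ≤ 36) : NoS (LL p) 2 (2 * p - 4) := by
  have hm : p ∈ List.range' 19 18 := by
    rw [List.mem_range'_1]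
    omega
  exact chk_s (LL p) 2 (2 * p - 4) p (ok_LL p h1) (base_chk p hm)
-- END base

/-- All orders `p ≥ 19`. -/
theorem all_p (p : ℕ) (hp : 19 ≤ p) : NoS (LL p) 2 (2 * p - 4) := by
  induction p using Nat.strong_induction_on with
  | _ p ih =>
    rcases Nat.lt_or_ge 36 p with h | h
    · obtain ⟨r, rfl⟩ : ∃ r, p = r + 2 := ⟨p - 2, by omega⟩
      exact step r (by omega) (ih r (by omega) (by omega))
    · exact base p hp h

-- BEGIN cyc
/-- The cycle `0 2 1 3 6` (labels `1 3 2 4 7`). PROOF. All sums are at most `9 < 15`: `LL p s` is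
`(s - dlo s) / 2`; `fin_cases i`, `simp [Ed, LL, dd, dlo]`, `omega` (`2 * p - 4 ≥ 34`). -/
theorem cyc (p : ℕ) (hp : 19 ≤ p) : ∀ i : Fin 5,
    Ed (LL p) 2 (2 * p - 4) ((![0, 2, 1, 3, 6] : Fin 5 → ℕ) i) ((![0, 2, 1, 3, 6] : Fin 5 → ℕ) (i + 1)) := by
  intro i
  fin_cases i <;> (refine ⟨?_, ?_, ?_⟩ <;> simp [LL, dd, dlo] <;> omega)
-- END cyc

-- BEGIN big
/-- PROOF. `gl_girth` with `ok_LL`, `all_p`, `cyc` (the numbers `0, 2, 1, 3, 6` are different and
`< 19`), `gl_card` with `q = 2 p - 5` (`q + 1 = 2 * p - 4`). -/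
theorem big (p : ℕ) (hp : 19 ≤ p) :
    Ok (LL p) 2 (2 * p - 4) p ∧ (Gg (LL p) 2 (2 * p - 4) p).girth = 5 ∧
      Nat.card (Gg (LL p) 2 (2 * p - 4) p).edgeSet = 2 * p - 5 := by
  have hok := ok_LL p hp
  refine ⟨hok, ?_, ?_⟩
  · refine gl_girth (LL p) 2 (2 * p - 4) p hok (all_p p hp) ![0, 2, 1, 3, 6] (by decide) ?_ (cyc p hp)
    intro i
    fin_cases i <;> simp <;> omega
  · have e : 2 * p - 4 = (2 * p - 5) + 1 := by omega
    rw [e] at hok ⊢
    exact gl_card (LL p) (2 * p - 5) p hok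
-- END big

-- BEGIN sm_full
/-- The small graphs with `2 p - 5` edges. PROOF. For each `p`: `Ok` by `decide` (or `interval_cases s`),
`chk_s` by `decide +kernel`, `gl_girth` with a `5`-cycle, `gl_card`. The `5`-cycles: `p = 5`:
`0 2 4 1 3`; `10`: `0 9 7 8 3`; `13`: `0 9 7 4 2`; `14`: `0 10 8 5 3`; `15`: `0 10 9 7 4`; `16`:
`0 8 11 15 3`; `17`: `0 8 15 10 6`; `18`: `0 2 1 7 6`. -/
theorem sm_full (p : ℕ) (hp : p ∈ ([5, 10, 13, 14, 15, 16, 17, 18] : List ℕ)) :
    Ok (LT p) 2 (2 * p - 4) p ∧ (Gg (LT p) 2 (2 * p - 4) p).girth = 5 ∧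
      Nat.card (Gg (LT p) 2 (2 * p - 4) p).edgeSet = 2 * p - 5 := by
  simp only [List.mem_cons, List.not_mem_nil, or_false] at hp
  rcases hp with rfl | rfl | rfl | rfl | rfl | rfl | rfl | rfl
  · have hok : Ok (LT 5) 2 6 5 := by
      intro s h1 h2
      interval_cases s <;> simp [LT, tab]
    exact ⟨hok, gl_girth (LT 5) 2 6 5 hok (chk_s (LT 5) 2 6 5 hok (by decide +kernel))
      ![0, 2, 4, 1, 3] (by decide) (by decide) (by decide), gl_card (LT 5) 5 5 hok⟩
  · have hok : Ok (LT 10) 2 16 10 := by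
      intro s h1 h2
      interval_cases s <;> simp [LT, tab]
    exact ⟨hok, gl_girth (LT 10) 2 16 10 hok (chk_s (LT 10) 2 16 10 hok (by decide +kernel))
      ![0, 9, 7, 8, 3] (by decide) (by decide) (by decide), gl_card (LT 10) 15 10 hok⟩
  · have hok : Ok (LT 13) 2 22 13 := by
      intro s h1 h2
      interval_cases s <;> simp [LT, tab]
    exact ⟨hok, gl_girth (LT 13) 2 22 13 hok (chk_s (LT 13) 2 22 13 hok (by decide +kernel))
      ![0, 9, 7, 4, 2] (by decide) (by decide) (by decide), gl_card (LT 13) 21 13 hok⟩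
  · have hok : Ok (LT 14) 2 24 14 := by
      intro s h1 h2
      interval_cases s <;> simp [LT, tab]
    exact ⟨hok, gl_girth (LT 14) 2 24 14 hok (chk_s (LT 14) 2 24 14 hok (by decide +kernel))
      ![0, 10, 8, 5, 3] (by decide) (by decide) (by decide), gl_card (LT 14) 23 14 hok⟩
  · have hok : Ok (LT 15) 2 26 15 := by
      intro s h1 h2
      interval_cases s <;> simp [LT, tab]
    exact ⟨hok, gl_girth (LT 15) 2 26 15 hok (chk_s (LT 15) 2 26 15 hok (by decide +kernel))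
      ![0, 10, 9, 7, 4] (by decide) (by decide) (by decide), gl_card (LT 15) 25 15 hok⟩
  · have hok : Ok (LT 16) 2 28 16 := by
      intro s h1 h2
      interval_cases s <;> simp [LT, tab]
    exact ⟨hok, gl_girth (LT 16) 2 28 16 hok (chk_s (LT 16) 2 28 16 hok (by decide +kernel))
      ![0, 8, 11, 15, 3] (by decide) (by decide) (by decide), gl_card (LT 16) 27 16 hok⟩
  · have hok : Ok (LT 17) 2 30 17 := by
      intro s h1 h2
      interval_cases s <;> simp [LT, tab]
    exact ⟨hok, gl_girth (LT 17) 2 30 17 hok (chk_s (LT 17) 2 30 17 hok (by decide +kernel))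
      ![0, 8, 15, 10, 6] (by decide) (by decide) (by decide), gl_card (LT 17) 29 17 hok⟩
  · have hok : Ok (LT 18) 2 32 18 := by
      intro s h1 h2
      interval_cases s <;> simp [LT, tab]
    exact ⟨hok, gl_girth (LT 18) 2 32 18 hok (chk_s (LT 18) 2 32 18 hok (by decide +kernel))
      ![0, 2, 1, 7, 6] (by decide) (by decide) (by decide), gl_card (LT 18) 31 18 hok⟩
-- END sm_full

-- BEGIN sm_less
/-- The small graphs with `2 p - 6` edges. PROOF. As `sm_full`. The `5`-cycles: `p = 6`: `0 2 5 1 4`;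
`8`: `0 2 7 1 3`; `9`: `0 2 4 7 3`; `11`: `0 2 7 9 6`; `12`: `0 2 7 1 3`. -/
theorem sm_less (p : ℕ) (hp : p ∈ ([6, 8, 9, 11, 12] : List ℕ)) :
    Ok (LT p) 2 (2 * p - 5) p ∧ (Gg (LT p) 2 (2 * p - 5) p).girth = 5 ∧
      Nat.card (Gg (LT p) 2 (2 * p - 5) p).edgeSet = 2 * p - 6 := by
  simp only [List.mem_cons, List.not_mem_nil, or_false] at hp
  rcases hp with rfl | rfl | rfl | rfl | rfl
  · have hok : Ok (LT 6) 2 7 6 := by
      intro s h1 h2
      interval_cases s <;> simp [LT, tab]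
    exact ⟨hok, gl_girth (LT 6) 2 7 6 hok (chk_s (LT 6) 2 7 6 hok (by decide +kernel))
      ![0, 2, 5, 1, 4] (by decide) (by decide) (by decide), gl_card (LT 6) 6 6 hok⟩
  · have hok : Ok (LT 8) 2 11 8 := by
      intro s h1 h2
      interval_cases s <;> simp [LT, tab]
    exact ⟨hok, gl_girth (LT 8) 2 11 8 hok (chk_s (LT 8) 2 11 8 hok (by decide +kernel))
      ![0, 2, 7, 1, 3] (by decide) (by decide) (by decide), gl_card (LT 8) 10 8 hok⟩
  · have hok : Ok (LT 9) 2 13 9 := by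
      intro s h1 h2
      interval_cases s <;> simp [LT, tab]
    exact ⟨hok, gl_girth (LT 9) 2 13 9 hok (chk_s (LT 9) 2 13 9 hok (by decide +kernel))
      ![0, 2, 4, 7, 3] (by decide) (by decide) (by decide), gl_card (LT 9) 12 9 hok⟩
  · have hok : Ok (LT 11) 2 17 11 := by
      intro s h1 h2
      interval_cases s <;> simp [LT, tab]
    exact ⟨hok, gl_girth (LT 11) 2 17 11 hok (chk_s (LT 11) 2 17 11 hok (by decide +kernel))
      ![0, 2, 7, 9, 6] (by decide) (by decide) (by decide), gl_card (LT 11) 16 11 hok⟩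
  · have hok : Ok (LT 12) 2 19 12 := by
      intro s h1 h2
      interval_cases s <;> simp [LT, tab]
    exact ⟨hok, gl_girth (LT 12) 2 19 12 hok (chk_s (LT 12) 2 19 12 hok (by decide +kernel))
      ![0, 2, 7, 1, 3] (by decide) (by decide) (by decide), gl_card (LT 12) 18 12 hok⟩
-- END sm_less

-- BEGIN sm_seven
/-- Order seven, seven edges. PROOF. As `sm_full`; the `5`-cycle `0 2 6 1 5`. -/
theorem sm_seven :
    Ok (LT 7) 2 8 7 ∧ (Gg (LT 7) 2 8 7).girth = 5 ∧ Nat.card (Gg (LT 7) 2 8 7).edgeSet = 7 := by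
  have hok : Ok (LT 7) 2 8 7 := by
    intro s h1 h2
    interval_cases s <;> simp [LT, tab]
  refine ⟨hok, ?_, gl_card (LT 7) 7 7 hok⟩
  exact gl_girth (LT 7) 2 8 7 hok (chk_s (LT 7) 2 8 7 hok (by decide +kernel)) ![0, 2, 6, 1, 5]
    (by decide) (by decide) (by decide)
-- END sm_seven

end Pool.Agent.GFv
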