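import Pool.Agent.GFv.Six

set_option autoImplicit false

/-!
# Girth six: the graphs of order 28 to 40
-/

namespace Pool.Agent.GFv

/-- Order `28`. -/
theorem h6_28 : Has6 28 :=
  ⟨_, small6
    [0, 0, 1, 1, 1, 0, 2, 0, 0, 5, 4, 2, 2, 7, 4, 1, 3, 6, 6, 4, 8, 5, 3, 7, 7, 11, 8, 14, 5, 11, 10, 9,
    13, 10, 14, 13, 16, 12, 16, 20, 15, 17, 18, 20, 19, 21, 22, 23, 23, 24, 25]
    [[2, 3, 7, 9, 10], [3, 4, 5, 16], [0, 6, 11, 12], [0, 1, 15, 21], [1, 8, 12, 17], [1, 6, 18, 25],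
    [2, 5, 13, 14], [0, 8, 18, 19], [4, 7, 14, 20], [0, 24], [0, 22, 25], [2, 16, 20], [2, 4, 27], [6,
    21, 24], [6, 8, 15, 22], [3, 14, 27], [1, 11, 22, 24], [4, 26], [5, 7, 26], [7, 27], [8, 11, 21,
    25], [3, 13, 20, 26], [10, 14, 16, 26], [26, 27], [9, 13, 16, 27], [5, 10, 20, 27], [17, 18, 21, 22,
    23], [12, 15, 19, 23, 24, 25]]
    [0, 2, 6, 5, 1, 3] 28 (by norm_num) (by decide +kernel)⟩

/-- Order `29`. -/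
theorem h6_29 : Has6 29 :=
  ⟨_, small6
    [0, 1, 1, 0, 0, 3, 0, 4, 3, 1, 3, 6, 2, 1, 5, 8, 3, 6, 4, 10, 5, 10, 4, 7, 7, 6, 12, 11, 12, 9, 8,
    11, 10, 12, 17, 16, 15, 13, 15, 14, 17, 21, 20, 18, 21, 19, 20, 24, 22, 23, 25, 26, 26]
    [[2, 5, 6, 8], [2, 3, 10, 14], [0, 1, 12], [1, 4, 7, 9, 15], [3, 5, 16, 20], [0, 4, 11, 17], [0, 7,
    13, 21], [3, 6, 18, 19], [0, 9, 24], [3, 8, 22], [1, 11, 13, 24], [5, 10, 18, 22], [2, 16, 18, 23],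
    [6, 10, 26], [1, 27], [3, 23, 25], [4, 12, 21], [5, 19, 25], [7, 11, 12, 27], [7, 17, 28], [4, 24,
    28], [6, 16, 22, 25], [9, 11, 21, 28], [12, 15, 28], [8, 10, 20, 25], [15, 17, 21, 24, 27], [13, 27,
    28], [14, 18, 25, 26], [19, 20, 22, 23, 26]]
    [0, 2, 1, 3, 4, 5] 29 (by norm_num) (by decide +kernel)⟩

/-- Order `30`. -/
theorem h6_30 : Has6 30 :=
  ⟨_, small6
    [0, 1, 1, 0, 0, 3, 0, 4, 1, 0, 0, 6, 4, 1, 7, 7, 3, 2, 7, 3, 3, 8, 6, 5, 5, 10, 13, 13, 14, 12, 8,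
    9, 11, 14, 10, 11, 16, 12, 14, 19, 20, 15, 19, 22, 17, 18, 20, 24, 21, 25, 23, 24, 26, 27, 27]
    [[2, 5, 6, 8, 11, 12], [2, 3, 9, 14], [0, 1, 17], [1, 4, 15, 18, 19], [3, 5, 10], [0, 4, 20, 21],
    [0, 7, 18], [6, 9, 10, 13], [0, 15, 24], [1, 7, 24], [4, 7, 17, 26], [0, 23, 26], [0, 19, 27], [7,
    15, 16], [1, 16, 21, 26], [3, 8, 13, 28], [13, 14, 22], [2, 10, 29], [3, 6, 29], [3, 12, 22, 25],
    [5, 22, 28], [5, 14, 29], [16, 19, 20, 23], [11, 22, 29], [8, 9, 25, 29], [19, 24, 26], [10, 11, 14,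
    25, 28], [12, 28, 29], [15, 20, 26, 27], [17, 18, 21, 23, 24, 27]]
    [0, 2, 1, 3, 4, 5] 30 (by norm_num) (by decide +kernel)⟩

/-- Order `31`. -/
theorem h6_31 : Has6 31 :=
  ⟨_, small6
    [0, 0, 1, 1, 1, 0, 2, 1, 0, 2, 0, 4, 6, 4, 3, 2, 4, 3, 5, 7, 5, 11, 6, 6, 5, 10, 7, 9, 8, 13, 10,
    14, 11, 11, 16, 12, 15, 18, 14, 13, 16, 15, 17, 21, 22, 18, 22, 19, 20, 25, 23, 25, 24, 26, 27, 27,
    28]
    [[2, 3, 7, 10, 12], [3, 4, 5, 8], [0, 6, 9, 15], [0, 1, 13, 16], [1, 9, 11, 14], [1, 15, 17, 21],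
    [2, 8, 18, 19], [0, 14, 21], [1, 6, 22], [2, 4, 20], [0, 17, 22], [4, 12, 23, 24], [0, 11, 25], [3,
    18, 28], [4, 7, 19, 26], [2, 5, 23, 28], [3, 20, 26], [5, 10, 27], [6, 13, 21, 29], [6, 14, 30], [9,
    16, 30], [5, 7, 18, 24], [8, 10, 24, 26], [11, 15, 29], [11, 21, 22, 30], [12, 26, 28], [14, 16, 22,
    25, 29], [17, 29, 30], [13, 15, 25, 30], [18, 23, 26, 27], [19, 20, 24, 27, 28]]
    [0, 2, 6, 8, 1, 3] 31 (by norm_num) (by decide +kernel)⟩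

/-- Order `32`. -/
theorem h6_32 : Has6 32 :=
  ⟨_, small6
    [0, 0, 0, 1, 1, 0, 2, 1, 0, 5, 3, 1, 3, 0, 5, 3, 2, 6, 2, 9, 8, 4, 7, 5, 8, 13, 12, 8, 13, 10, 9,
    11, 10, 15, 11, 13, 12, 17, 17, 18, 14, 21, 16, 18, 15, 20, 19, 24, 21, 24, 22, 26, 23, 26, 25, 27,
    28, 28, 29]
    [[2, 3, 4, 7, 10, 15], [4, 5, 8, 12], [0, 6, 16, 18], [0, 9, 11, 14], [0, 1, 19], [1, 6, 11, 20],
    [2, 5, 13], [0, 17], [1, 14, 18, 21], [3, 12, 23], [0, 21, 24], [3, 5, 22, 25], [1, 9, 16, 26], [6,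
    14, 17, 24], [3, 8, 13, 28], [0, 20, 31], [2, 12, 28], [7, 13, 22, 23], [2, 8, 23, 27], [4, 29], [5,
    15, 27], [8, 10, 22, 29], [11, 17, 21, 30], [9, 17, 18, 31], [10, 13, 25, 27], [11, 24, 31], [12,
    27, 29], [18, 20, 24, 26, 30], [14, 16, 30, 31], [19, 21, 26, 31], [22, 27, 28], [15, 23, 25, 28,
    29]]
    [0, 2, 6, 5, 1, 4] 32 (by norm_num) (by decide +kernel)⟩

/-- Order `33`. -/
theorem h6_33 : Has6 33 :=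
  ⟨_, small6
    [0, 0, 1, 1, 0, 2, 1, 4, 2, 2, 1, 3, 1, 7, 0, 5, 4, 4, 9, 6, 10, 6, 6, 7, 7, 7, 11, 12, 8, 8, 10, 9,
    10, 16, 11, 14, 14, 13, 12, 13, 16, 19, 21, 18, 15, 22, 22, 17, 19, 23, 20, 21, 24, 27, 25, 27, 26,
    28, 29, 29, 30]
    [[2, 3, 6, 16], [3, 4, 7, 11, 13], [0, 5, 8, 9], [0, 1, 10], [1, 5, 14, 15], [2, 4, 12], [0, 15, 17,
    18], [1, 8, 18, 19, 20], [2, 7, 22, 23], [2, 11, 24], [3, 12, 22, 24], [1, 9, 17, 25], [5, 10, 17,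
    28], [1, 26, 28], [4, 23, 24], [4, 6, 31], [0, 19, 26], [6, 11, 12, 32], [6, 7, 27], [7, 16, 24,
    31], [7, 32], [23, 32], [8, 10, 25, 26], [8, 14, 21, 28], [9, 10, 14, 19, 30], [11, 22, 31], [13,
    16, 22, 32], [18, 28, 30], [12, 13, 23, 27, 31], [31, 32], [24, 27, 32], [15, 19, 25, 28, 29], [17,
    20, 21, 26, 29, 30]]
    [0, 2, 5, 4, 1, 3] 33 (by norm_num) (by decide +kernel)⟩

/-- Order `34`. -/
theorem h6_34 : Has6 34 :=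
  ⟨_, small6
    [0, 0, 1, 1, 1, 1, 0, 2, 0, 2, 5, 4, 2, 1, 5, 4, 2, 8, 3, 8, 6, 5, 4, 6, 12, 12, 7, 10, 10, 9, 8,
    11, 11, 12, 10, 12, 17, 15, 13, 15, 19, 14, 17, 20, 19, 16, 22, 18, 20, 22, 24, 21, 24, 23, 27, 26,
    25, 29, 27, 28, 30, 31, 31]
    [[2, 3, 8, 10], [3, 4, 5, 6, 14], [0, 7, 9, 12, 16], [0, 1, 17], [1, 9, 13, 20], [1, 7, 11, 18], [1,
    16, 19], [2, 5, 21], [0, 11, 13, 24], [2, 4, 22], [0, 19, 20, 26], [5, 8, 22, 23], [2, 14, 15, 23,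
    25], [4, 8, 27], [1, 12, 29], [12, 24, 26], [2, 6, 31], [3, 21, 27], [5, 31], [6, 10, 23, 27], [4,
    10, 25, 30], [7, 17, 32], [9, 11, 26, 29], [11, 12, 19, 32], [8, 15, 28, 30], [12, 20, 33], [10, 15,
    22, 31], [13, 17, 19, 29, 33], [24, 33], [14, 22, 27, 30], [20, 24, 29, 32], [16, 18, 26, 32, 33],
    [21, 23, 30, 31], [25, 27, 28, 31]]
    [0, 2, 7, 5, 1, 3] 34 (by norm_num) (by decide +kernel)⟩

/-- Order `35`. -/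
theorem h6_35 : Has6 35 :=
  ⟨_, small6
    [0, 0, 1, 1, 1, 0, 2, 0, 4, 1, 4, 2, 2, 7, 5, 3, 2, 4, 3, 8, 10, 5, 9, 12, 7, 6, 8, 7, 13, 11, 10,
    9, 14, 12, 11, 13, 15, 13, 19, 14, 17, 15, 16, 18, 16, 22, 17, 18, 19, 24, 22, 20, 24, 21, 23, 28,
    26, 25, 29, 27, 28, 30, 31, 32, 32]
    [[2, 3, 7, 9], [3, 4, 5, 10], [0, 6, 11, 12, 16], [0, 1, 14, 17], [1, 6, 8, 15], [1, 11, 18], [2, 4,
    21], [0, 8, 19, 22], [4, 7, 13, 20], [0, 15, 24], [1, 12, 22], [2, 5, 20, 25], [2, 10, 13, 23], [8,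
    12, 17, 24, 26], [3, 20, 27], [4, 9, 23, 28], [2, 28, 30], [3, 13, 25, 31], [5, 27, 31], [7, 21,
    31], [8, 11, 14, 33], [6, 19, 34], [7, 10, 25, 30], [12, 15, 33], [9, 13, 27, 30], [11, 17, 22, 34],
    [13, 32], [14, 18, 24, 34], [15, 16, 29, 34], [28, 31], [16, 22, 24, 33], [17, 18, 19, 29, 33], [26,
    33, 34], [20, 23, 30, 31, 32], [21, 25, 27, 28, 32]]
    [0, 2, 6, 4, 1, 3] 35 (by norm_num) (by decide +kernel)⟩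

/-- Order `36`. -/
theorem h6_36 : Has6 36 :=
  ⟨_, small6
    [0, 0, 0, 1, 1, 0, 2, 1, 0, 5, 3, 2, 2, 1, 0, 8, 5, 8, 3, 6, 5, 10, 9, 6, 12, 9, 7, 8, 8, 13, 10,
    13, 10, 12, 11, 11, 13, 15, 17, 19, 14, 17, 16, 15, 19, 19, 20, 18, 20, 22, 25, 23, 26, 21, 23, 26,
    25, 24, 29, 27, 29, 28, 30, 31, 32, 32, 33]
    [[2, 3, 4, 7, 10, 16], [4, 5, 8, 14], [0, 6, 11, 12], [0, 9, 17], [0, 1], [1, 6, 13, 17], [2, 5, 15,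
    19], [0, 21], [1, 9, 11, 21, 22], [3, 8, 15, 18], [0, 13, 22, 24], [2, 8, 25, 26], [2, 14, 23], [5,
    10, 18, 20, 25], [1, 12, 28], [6, 9, 24, 30], [0, 28], [3, 5, 23, 26], [9, 13, 31], [6, 22, 27, 28],
    [13, 28, 30], [7, 8, 34], [8, 10, 19, 29], [12, 17, 30, 33], [10, 15, 35], [11, 13, 27, 33], [11,
    17, 28, 31], [19, 25, 34], [14, 16, 19, 20, 26, 35], [22, 31, 33], [15, 20, 23, 34], [18, 26, 29,
    34], [34, 35], [23, 25, 29, 35], [21, 27, 30, 31, 32], [24, 28, 32, 33]]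
    [0, 2, 6, 5, 1, 4] 36 (by norm_num) (by decide +kernel)⟩

/-- Order `37`. -/
theorem h6_37 : Has6 37 :=
  ⟨_, small6
    [0, 1, 1, 0, 0, 3, 1, 4, 1, 0, 2, 1, 6, 0, 3, 8, 4, 6, 3, 5, 3, 5, 10, 7, 6, 7, 11, 7, 9, 8, 11, 9,
    15, 14, 14, 15, 13, 15, 17, 18, 13, 18, 14, 16, 19, 20, 16, 17, 19, 22, 20, 25, 21, 26, 24, 26, 24,
    23, 25, 30, 28, 27, 30, 29, 31, 32, 33, 33, 34]
    [[2, 5, 6, 11, 15], [2, 3, 7, 9, 12], [0, 1, 10], [1, 4, 13, 17, 19], [3, 5, 14], [0, 4, 16, 18],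
    [0, 8, 13, 20], [1, 18, 20, 22], [6, 9, 23], [1, 8, 21, 24], [2, 14], [0, 17, 21], [1], [3, 6, 25,
    29], [4, 10, 21, 22, 30], [0, 19, 22, 24], [5, 29, 32], [3, 11, 23, 32], [5, 7, 23, 25], [3, 15, 27,
    31], [6, 7, 27, 32], [9, 11, 14, 33], [7, 14, 15, 29], [8, 17, 18, 36], [9, 15, 32, 34], [13, 18,
    28, 35], [29, 31], [19, 20, 36], [25, 34], [13, 16, 22, 26, 36], [14, 31, 34], [19, 26, 30, 35],
    [16, 17, 20, 24, 35], [21, 35, 36], [24, 28, 30, 36], [25, 31, 32, 33], [23, 27, 29, 33, 34]]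
    [0, 2, 1, 3, 4, 5] 37 (by norm_num) (by decide +kernel)⟩

/-- Order `38`. -/
theorem h6_38 : Has6 38 :=
  ⟨_, small6
    [0, 1, 1, 0, 2, 0, 0, 3, 0, 5, 3, 1, 3, 1, 3, 8, 1, 4, 7, 10, 4, 4, 8, 6, 6, 9, 13, 7, 14, 10, 9,
    12, 10, 16, 15, 11, 14, 17, 13, 19, 16, 15, 20, 22, 17, 17, 18, 24, 18, 23, 19, 22, 26, 20, 27, 23,
    21, 25, 24, 26, 27, 31, 28, 29, 31, 30, 32, 33, 33, 34, 35]
    [[2, 5, 7, 8, 10], [2, 3, 12, 14, 17], [0, 1, 4], [1, 6, 9, 11, 13], [2, 15, 18, 19], [0, 6], [3, 5,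
    19, 20], [0, 13, 22], [0, 9, 16], [3, 8, 18, 23], [0, 11, 21, 24], [3, 10, 26], [1, 21], [3, 7, 15,
    27], [1, 16, 24], [4, 13, 21, 28], [8, 14, 19, 26], [1, 22, 29, 30], [4, 9, 30, 32], [4, 6, 16, 22,
    33], [6, 24, 35], [10, 12, 15, 37], [7, 17, 19, 23, 31], [9, 22, 28, 34], [10, 14, 20, 25, 36], [24,
    34], [11, 16, 28, 35], [13, 29, 35], [15, 23, 26, 36], [17, 27, 36], [17, 18, 37], [22, 32, 35],
    [18, 31, 36], [19, 36, 37], [23, 25, 37], [20, 26, 27, 31, 37], [24, 28, 29, 32, 33], [21, 30, 33,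
    34, 35]]
    [0, 2, 1, 3, 6, 5] 38 (by norm_num) (by decide +kernel)⟩

/-- Order `39`. -/
theorem h6_39 : Has6 39 :=
  ⟨_, small6
    [0, 1, 1, 0, 0, 3, 0, 4, 3, 1, 0, 6, 0, 6, 5, 1, 3, 9, 7, 10, 4, 8, 4, 8, 7, 10, 6, 9, 11, 8, 11, 9,
    9, 17, 15, 11, 16, 12, 18, 13, 13, 21, 14, 16, 15, 20, 16, 23, 17, 19, 24, 26, 25, 26, 20, 21, 24,
    22, 25, 23, 29, 31, 27, 31, 28, 33, 30, 33, 32, 34, 35, 35, 36]
    [[2, 5, 6, 8, 12, 14], [2, 3, 10, 16], [0, 1], [1, 4, 7, 15], [3, 5, 18, 20], [0, 4, 11], [0, 7, 9,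
    22], [3, 6, 13, 19], [0, 15, 17, 23], [6, 10, 20, 24, 25], [1, 9, 11, 17], [5, 10, 19, 21, 26], [0,
    27], [7, 28, 29], [0, 30], [3, 8, 21, 31], [1, 22, 29, 32], [8, 10, 18, 33], [4, 17, 22], [7, 11,
    32], [4, 9, 27, 36], [11, 15, 22, 36], [6, 16, 18, 21, 37], [8, 26, 38], [9, 28, 34], [9, 29, 35],
    [11, 23, 27, 29], [12, 20, 26, 37], [13, 24, 38], [13, 16, 25, 26, 33], [14, 38], [15, 32, 34], [16,
    19, 31, 38], [17, 29, 34, 36], [24, 31, 33, 37], [25, 37, 38], [20, 21, 33, 38], [22, 27, 34, 35],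
    [23, 28, 30, 32, 35, 36]]
    [0, 2, 1, 3, 4, 5] 39 (by norm_num) (by decide +kernel)⟩

/-- Order `40`. -/
theorem h6_40 : Has6 40 :=
  ⟨_, small6
    [0, 1, 1, 1, 0, 0, 3, 0, 0, 5, 1, 5, 2, 2, 0, 3, 1, 4, 8, 7, 3, 8, 9, 7, 8, 7, 6, 10, 9, 11, 8, 11,
    10, 11, 11, 14, 17, 13, 12, 16, 13, 14, 15, 15, 20, 16, 17, 19, 18, 23, 18, 19, 25, 20, 27, 25, 21,
    22, 24, 30, 23, 28, 27, 26, 31, 29, 33, 30, 33, 32, 34, 35, 36, 36, 37]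
    [[2, 6, 7, 9, 10, 16], [2, 3, 4, 11, 17], [0, 1, 12, 13], [1, 5, 14, 19], [1, 15], [3, 6, 8], [0, 5,
    22], [0, 14, 18, 20], [5, 12, 15, 18, 24], [0, 15, 21], [0, 19, 24], [1, 20, 22, 24, 25], [2, 8,
    28], [2, 26, 29], [3, 7, 23, 29], [4, 8, 9, 29, 30], [0, 25, 31], [1, 21, 31], [7, 8, 32, 34], [3,
    10, 30, 34], [7, 11, 26, 35], [9, 17, 37], [6, 11, 37], [14, 28, 39], [8, 10, 11, 36], [11, 16, 29,
    32], [13, 20, 39], [29, 37], [12, 23, 35], [13, 14, 15, 25, 27, 38], [15, 19, 31, 39], [16, 17, 30,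
    35], [18, 25, 39], [35, 37], [18, 19, 38], [20, 28, 31, 33, 38], [24, 38, 39], [21, 22, 27, 33, 39],
    [29, 34, 35, 36], [23, 26, 30, 32, 36, 37]]
    [0, 2, 1, 3, 5, 6] 40 (by norm_num) (by decide +kernel)⟩

end Pool.Agent.GFv
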