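import Pool.Agent.GFv.Six

set_option autoImplicit false

/-!
# Girth six: the check of the formula graphs of order 50 to 59
-/

namespace Pool.Agent.GFv

/-- Order `50`. -/
theorem b6_50 : NoS6 (LL6 50) 2 (2 * 50 - 4) :=
  ck_s6 (LL6 50) (2 * 50 - 5) 50
    [[2, 3, 7, 9], [3, 4, 5, 15], [0, 6, 8, 11], [0, 1, 12], [1, 8, 10, 17, 18], [1, 6, 13, 14], [2, 5,
    19], [0, 10, 13], [2, 4, 16], [0, 14, 18], [4, 7, 20, 23], [2, 15, 23, 24], [3, 16, 19, 20], [5, 7,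
    16, 24], [5, 9, 25], [1, 11, 26], [8, 12, 13, 22, 27], [4, 19, 28], [4, 9, 24, 29], [6, 12, 17, 21,
    30], [10, 12, 26, 31], [19, 23, 32], [16, 28, 33], [10, 11, 21, 25, 34], [11, 13, 18, 30, 35], [14,
    23, 27, 36], [15, 20, 32, 37, 39], [16, 25, 29, 41], [17, 22, 34, 38], [18, 27, 31, 38, 40], [19,
    24, 41, 44], [20, 29, 33, 42, 44], [21, 26, 38, 45], [22, 31, 45], [23, 28, 42, 47], [24, 37, 47],
    [25, 43, 44], [26, 35, 48], [28, 29, 32, 46], [26, 49], [29, 43, 47], [27, 30, 45, 48], [31, 34,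
    48], [36, 40, 48], [30, 31, 36, 49], [32, 33, 41, 47], [38, 48, 49], [34, 35, 40, 45, 49], [37, 41,
    42, 43, 46], [39, 44, 46, 47]]
    (ok_LL6 50 (by norm_num)) (by decide +kernel) (by decide +kernel)

/-- Order `51`. -/
theorem b6_51 : NoS6 (LL6 51) 2 (2 * 51 - 4) :=
  ck_s6 (LL6 51) (2 * 51 - 5) 51
    [[2, 3, 7, 9], [3, 4, 5, 15], [0, 6, 8, 11], [0, 1, 12], [1, 8, 10, 17, 18], [1, 6, 13, 14], [2, 5,
    19], [0, 10, 13], [2, 4, 16], [0, 14, 18], [4, 7, 20, 23], [2, 15, 23, 24], [3, 16, 19, 20], [5, 7,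
    16, 24], [5, 9, 25], [1, 11, 26], [8, 12, 13, 22, 27], [4, 19, 28], [4, 9, 24, 29], [6, 12, 17, 21,
    30], [10, 12, 26, 31], [19, 23, 32], [16, 28, 33], [10, 11, 21, 25, 34], [11, 13, 18, 30, 35], [14,
    23, 27, 36], [15, 20, 32, 37, 39], [16, 25, 29, 39, 40], [17, 22, 34], [18, 27, 31], [19, 24, 38,
    40], [20, 29, 33, 38, 44], [21, 26, 41, 46], [22, 31, 46], [23, 28, 37, 38, 42], [24, 39, 49], [25,
    41, 45], [26, 34, 43, 45], [30, 31, 34, 47], [26, 27, 35, 48], [27, 30, 43, 46], [32, 36, 50], [34,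
    46, 48], [37, 40, 50], [31, 45, 48], [36, 37, 44, 49], [32, 33, 40, 42, 49], [38, 49, 50], [39, 42,
    44, 50], [35, 45, 46, 47], [41, 43, 47, 48]]
    (ok_LL6 51 (by norm_num)) (by decide +kernel) (by decide +kernel)

/-- Order `52`. -/
theorem b6_52 : NoS6 (LL6 52) 2 (2 * 52 - 4) :=
  ck_s6 (LL6 52) (2 * 52 - 5) 52
    [[2, 3, 7, 9], [3, 4, 5, 15], [0, 6, 8, 11], [0, 1, 12], [1, 8, 10, 17, 18], [1, 6, 13, 14], [2, 5,
    19], [0, 10, 13], [2, 4, 16], [0, 14, 18], [4, 7, 20, 23], [2, 15, 23, 24], [3, 16, 19, 20], [5, 7,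
    16, 24], [5, 9, 25], [1, 11, 26], [8, 12, 13, 22, 27], [4, 19, 28], [4, 9, 24, 29], [6, 12, 17, 21,
    30], [10, 12, 26, 31], [19, 23, 32], [16, 28, 33], [10, 11, 21, 25, 34], [11, 13, 18, 30, 35], [14,
    23, 27, 36], [15, 20, 32, 37], [16, 25, 29, 38], [17, 22, 34, 39, 41], [18, 27, 31, 43], [19, 24,
    36, 40], [20, 29, 33, 40, 42], [21, 26, 43, 46], [22, 31, 35, 44, 46], [23, 28, 40, 47], [24, 33,
    47], [25, 30, 44, 49], [26, 39, 49], [27, 45, 46], [28, 37, 50], [30, 31, 34, 48], [28, 51], [31,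
    45, 49], [29, 32, 47, 50], [33, 36, 50], [38, 42, 50], [32, 33, 38, 51], [34, 35, 43, 49], [40, 50,
    51], [36, 37, 42, 47, 51], [39, 43, 44, 45, 48], [41, 46, 48, 49]]
    (ok_LL6 52 (by norm_num)) (by decide +kernel) (by decide +kernel)

/-- Order `53`. -/
theorem b6_53 : NoS6 (LL6 53) 2 (2 * 53 - 4) :=
  ck_s6 (LL6 53) (2 * 53 - 5) 53
    [[2, 3, 7, 9], [3, 4, 5, 15], [0, 6, 8, 11], [0, 1, 12], [1, 8, 10, 17, 18], [1, 6, 13, 14], [2, 5,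
    19], [0, 10, 13], [2, 4, 16], [0, 14, 18], [4, 7, 20, 23], [2, 15, 23, 24], [3, 16, 19, 20], [5, 7,
    16, 24], [5, 9, 25], [1, 11, 26], [8, 12, 13, 22, 27], [4, 19, 28], [4, 9, 24, 29], [6, 12, 17, 21,
    30], [10, 12, 26, 31], [19, 23, 32], [16, 28, 33], [10, 11, 21, 25, 34], [11, 13, 18, 30, 35], [14,
    23, 27, 36], [15, 20, 32, 37], [16, 25, 29, 38], [17, 22, 34, 39, 41], [18, 27, 31, 41, 42], [19,
    24, 36], [20, 29, 33], [21, 26, 40, 42], [22, 31, 35, 40, 46], [23, 28, 43, 48], [24, 33, 48], [25,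
    30, 39, 40, 44], [26, 41, 51], [27, 43, 47], [28, 36, 45, 47], [32, 33, 36, 49], [28, 29, 37, 50],
    [29, 32, 45, 48], [34, 38, 52], [36, 48, 50], [39, 42, 52], [33, 47, 50], [38, 39, 46, 51], [34, 35,
    42, 44, 51], [40, 51, 52], [41, 44, 46, 52], [37, 47, 48, 49], [43, 45, 49, 50]]
    (ok_LL6 53 (by norm_num)) (by decide +kernel) (by decide +kernel)

/-- Order `54`. -/
theorem b6_54 : NoS6 (LL6 54) 2 (2 * 54 - 4) :=
  ck_s6 (LL6 54) (2 * 54 - 5) 54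
    [[2, 3, 7, 9], [3, 4, 5, 15], [0, 6, 8, 11], [0, 1, 12], [1, 8, 10, 17, 18], [1, 6, 13, 14], [2, 5,
    19], [0, 10, 13], [2, 4, 16], [0, 14, 18], [4, 7, 20, 23], [2, 15, 23, 24], [3, 16, 19, 20], [5, 7,
    16, 24], [5, 9, 25], [1, 11, 26], [8, 12, 13, 22, 27], [4, 19, 28], [4, 9, 24, 29], [6, 12, 17, 21,
    30], [10, 12, 26, 31], [19, 23, 32], [16, 28, 33], [10, 11, 21, 25, 34], [11, 13, 18, 30, 35], [14,
    23, 27, 36], [15, 20, 32, 37], [16, 25, 29, 38], [17, 22, 34, 39], [18, 27, 31, 40], [19, 24, 36,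
    41, 43], [20, 29, 33, 45], [21, 26, 38, 42], [22, 31, 35, 42, 44], [23, 28, 45, 48], [24, 33, 37,
    46, 48], [25, 30, 42, 49], [26, 35, 49], [27, 32, 46, 51], [28, 41, 51], [29, 47, 48], [30, 39, 52],
    [32, 33, 36, 50], [30, 53], [33, 47, 51], [31, 34, 49, 52], [35, 38, 52], [40, 44, 52], [34, 35, 40,
    53], [36, 37, 45, 51], [42, 52, 53], [38, 39, 44, 49, 53], [41, 45, 46, 47, 50], [43, 48, 50, 51]]
    (ok_LL6 54 (by norm_num)) (by decide +kernel) (by decide +kernel)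

/-- Order `55`. -/
theorem b6_55 : NoS6 (LL6 55) 2 (2 * 55 - 4) :=
  ck_s6 (LL6 55) (2 * 55 - 5) 55
    [[2, 3, 7, 9], [3, 4, 5, 15], [0, 6, 8, 11], [0, 1, 12], [1, 8, 10, 17, 18], [1, 6, 13, 14], [2, 5,
    19], [0, 10, 13], [2, 4, 16], [0, 14, 18], [4, 7, 20, 23], [2, 15, 23, 24], [3, 16, 19, 20], [5, 7,
    16, 24], [5, 9, 25], [1, 11, 26], [8, 12, 13, 22, 27], [4, 19, 28], [4, 9, 24, 29], [6, 12, 17, 21,
    30], [10, 12, 26, 31], [19, 23, 32], [16, 28, 33], [10, 11, 21, 25, 34], [11, 13, 18, 30, 35], [14,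
    23, 27, 36], [15, 20, 32, 37], [16, 25, 29, 38], [17, 22, 34, 39], [18, 27, 31, 40], [19, 24, 36,
    41, 43], [20, 29, 33, 43, 44], [21, 26, 38], [22, 31, 35], [23, 28, 42, 44], [24, 33, 37, 42, 48],
    [25, 30, 45, 50], [26, 35, 50], [27, 32, 41, 42, 46], [28, 43, 53], [29, 45, 49], [30, 38, 47, 49],
    [34, 35, 38, 51], [30, 31, 39, 52], [31, 34, 47, 50], [36, 40, 54], [38, 50, 52], [41, 44, 54], [35,
    49, 52], [40, 41, 48, 53], [36, 37, 44, 46, 53], [42, 53, 54], [43, 46, 48, 54], [39, 49, 50, 51],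
    [45, 47, 51, 52]]
    (ok_LL6 55 (by norm_num)) (by decide +kernel) (by decide +kernel)

/-- Order `56`. -/
theorem b6_56 : NoS6 (LL6 56) 2 (2 * 56 - 4) :=
  ck_s6 (LL6 56) (2 * 56 - 5) 56
    [[2, 3, 7, 9], [3, 4, 5, 15], [0, 6, 8, 11], [0, 1, 12], [1, 8, 10, 17, 18], [1, 6, 13, 14], [2, 5,
    19], [0, 10, 13], [2, 4, 16], [0, 14, 18], [4, 7, 20, 23], [2, 15, 23, 24], [3, 16, 19, 20], [5, 7,
    16, 24], [5, 9, 25], [1, 11, 26], [8, 12, 13, 22, 27], [4, 19, 28], [4, 9, 24, 29], [6, 12, 17, 21,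
    30], [10, 12, 26, 31], [19, 23, 32], [16, 28, 33], [10, 11, 21, 25, 34], [11, 13, 18, 30, 35], [14,
    23, 27, 36], [15, 20, 32, 37], [16, 25, 29, 38], [17, 22, 34, 39], [18, 27, 31, 40], [19, 24, 36,
    41], [20, 29, 33, 42], [21, 26, 38, 43, 45], [22, 31, 35, 47], [23, 28, 40, 44], [24, 33, 37, 44,
    46], [25, 30, 47, 50], [26, 35, 39, 48, 50], [27, 32, 44, 51], [28, 37, 51], [29, 34, 48, 53], [30,
    43, 53], [31, 49, 50], [32, 41, 54], [34, 35, 38, 52], [32, 55], [35, 49, 53], [33, 36, 51, 54],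
    [37, 40, 54], [42, 46, 54], [36, 37, 42, 55], [38, 39, 47, 53], [44, 54, 55], [40, 41, 46, 51, 55],
    [43, 47, 48, 49, 52], [45, 50, 52, 53]]
    (ok_LL6 56 (by norm_num)) (by decide +kernel) (by decide +kernel)

/-- Order `57`. -/
theorem b6_57 : NoS6 (LL6 57) 2 (2 * 57 - 4) :=
  ck_s6 (LL6 57) (2 * 57 - 5) 57
    [[2, 3, 7, 9], [3, 4, 5, 15], [0, 6, 8, 11], [0, 1, 12], [1, 8, 10, 17, 18], [1, 6, 13, 14], [2, 5,
    19], [0, 10, 13], [2, 4, 16], [0, 14, 18], [4, 7, 20, 23], [2, 15, 23, 24], [3, 16, 19, 20], [5, 7,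
    16, 24], [5, 9, 25], [1, 11, 26], [8, 12, 13, 22, 27], [4, 19, 28], [4, 9, 24, 29], [6, 12, 17, 21,
    30], [10, 12, 26, 31], [19, 23, 32], [16, 28, 33], [10, 11, 21, 25, 34], [11, 13, 18, 30, 35], [14,
    23, 27, 36], [15, 20, 32, 37], [16, 25, 29, 38], [17, 22, 34, 39], [18, 27, 31, 40], [19, 24, 36,
    41], [20, 29, 33, 42], [21, 26, 38, 43, 45], [22, 31, 35, 45, 46], [23, 28, 40], [24, 33, 37], [25,
    30, 44, 46], [26, 35, 39, 44, 50], [27, 32, 47, 52], [28, 37, 52], [29, 34, 43, 44, 48], [30, 45,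
    55], [31, 47, 51], [32, 40, 49, 51], [36, 37, 40, 53], [32, 33, 41, 54], [33, 36, 49, 52], [38, 42,
    56], [40, 52, 54], [43, 46, 56], [37, 51, 54], [42, 43, 50, 55], [38, 39, 46, 48, 55], [44, 55, 56],
    [45, 48, 50, 56], [41, 51, 52, 53], [47, 49, 53, 54]]
    (ok_LL6 57 (by norm_num)) (by decide +kernel) (by decide +kernel)

/-- Order `58`. -/
theorem b6_58 : NoS6 (LL6 58) 2 (2 * 58 - 4) :=
  ck_s6 (LL6 58) (2 * 58 - 5) 58
    [[2, 3, 7, 9], [3, 4, 5, 15], [0, 6, 8, 11], [0, 1, 12], [1, 8, 10, 17, 18], [1, 6, 13, 14], [2, 5,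
    19], [0, 10, 13], [2, 4, 16], [0, 14, 18], [4, 7, 20, 23], [2, 15, 23, 24], [3, 16, 19, 20], [5, 7,
    16, 24], [5, 9, 25], [1, 11, 26], [8, 12, 13, 22, 27], [4, 19, 28], [4, 9, 24, 29], [6, 12, 17, 21,
    30], [10, 12, 26, 31], [19, 23, 32], [16, 28, 33], [10, 11, 21, 25, 34], [11, 13, 18, 30, 35], [14,
    23, 27, 36], [15, 20, 32, 37], [16, 25, 29, 38], [17, 22, 34, 39], [18, 27, 31, 40], [19, 24, 36,
    41], [20, 29, 33, 42], [21, 26, 38, 43], [22, 31, 35, 44], [23, 28, 40, 45, 47], [24, 33, 37, 49],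
    [25, 30, 42, 46], [26, 35, 39, 46, 48], [27, 32, 49, 52], [28, 37, 41, 50, 52], [29, 34, 46, 53],
    [30, 39, 53], [31, 36, 50, 55], [32, 45, 55], [33, 51, 52], [34, 43, 56], [36, 37, 40, 54], [34,
    57], [37, 51, 55], [35, 38, 53, 56], [39, 42, 56], [44, 48, 56], [38, 39, 44, 57], [40, 41, 49, 55],
    [46, 56, 57], [42, 43, 48, 53, 57], [45, 49, 50, 51, 54], [47, 52, 54, 55]]
    (ok_LL6 58 (by norm_num)) (by decide +kernel) (by decide +kernel)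

/-- Order `59`. -/
theorem b6_59 : NoS6 (LL6 59) 2 (2 * 59 - 4) :=
  ck_s6 (LL6 59) (2 * 59 - 5) 59
    [[2, 3, 7, 9], [3, 4, 5, 15], [0, 6, 8, 11], [0, 1, 12], [1, 8, 10, 17, 18], [1, 6, 13, 14], [2, 5,
    19], [0, 10, 13], [2, 4, 16], [0, 14, 18], [4, 7, 20, 23], [2, 15, 23, 24], [3, 16, 19, 20], [5, 7,
    16, 24], [5, 9, 25], [1, 11, 26], [8, 12, 13, 22, 27], [4, 19, 28], [4, 9, 24, 29], [6, 12, 17, 21,
    30], [10, 12, 26, 31], [19, 23, 32], [16, 28, 33], [10, 11, 21, 25, 34], [11, 13, 18, 30, 35], [14,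
    23, 27, 36], [15, 20, 32, 37], [16, 25, 29, 38], [17, 22, 34, 39], [18, 27, 31, 40], [19, 24, 36,
    41], [20, 29, 33, 42], [21, 26, 38, 43], [22, 31, 35, 44], [23, 28, 40, 45, 47], [24, 33, 37, 47,
    48], [25, 30, 42], [26, 35, 39], [27, 32, 46, 48], [28, 37, 41, 46, 52], [29, 34, 49, 54], [30, 39,
    54], [31, 36, 45, 46, 50], [32, 47, 57], [33, 49, 53], [34, 42, 51, 53], [38, 39, 42, 55], [34, 35,
    43, 56], [35, 38, 51, 54], [40, 44, 58], [42, 54, 56], [45, 48, 58], [39, 53, 56], [44, 45, 52, 57],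
    [40, 41, 48, 50, 57], [46, 57, 58], [47, 50, 52, 58], [43, 53, 54, 55], [49, 51, 55, 56]]
    (ok_LL6 59 (by norm_num)) (by decide +kernel) (by decide +kernel)

end Pool.Agent.GFv
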