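import Pool.Agent.GFv.Six

set_option autoImplicit false

/-!
# Girth six: the check of the formula graphs of order 60 to 67
-/

namespace Pool.Agent.GFv

/-- Order `60`. -/
theorem b6_60 : NoS6 (LL6 60) 2 (2 * 60 - 4) :=
  ck_s6 (LL6 60) (2 * 60 - 5) 60
    [[2, 3, 7, 9], [3, 4, 5, 15], [0, 6, 8, 11], [0, 1, 12], [1, 8, 10, 17, 18], [1, 6, 13, 14], [2, 5,
    19], [0, 10, 13], [2, 4, 16], [0, 14, 18], [4, 7, 20, 23], [2, 15, 23, 24], [3, 16, 19, 20], [5, 7,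
    16, 24], [5, 9, 25], [1, 11, 26], [8, 12, 13, 22, 27], [4, 19, 28], [4, 9, 24, 29], [6, 12, 17, 21,
    30], [10, 12, 26, 31], [19, 23, 32], [16, 28, 33], [10, 11, 21, 25, 34], [11, 13, 18, 30, 35], [14,
    23, 27, 36], [15, 20, 32, 37], [16, 25, 29, 38], [17, 22, 34, 39], [18, 27, 31, 40], [19, 24, 36,
    41], [20, 29, 33, 42], [21, 26, 38, 43], [22, 31, 35, 44], [23, 28, 40, 45], [24, 33, 37, 46], [25,
    30, 42, 47, 49], [26, 35, 39, 51], [27, 32, 44, 48], [28, 37, 41, 48, 50], [29, 34, 51, 54], [30,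
    39, 43, 52, 54], [31, 36, 48, 55], [32, 41, 55], [33, 38, 52, 57], [34, 47, 57], [35, 53, 54], [36,
    45, 58], [38, 39, 42, 56], [36, 59], [39, 53, 57], [37, 40, 55, 58], [41, 44, 58], [46, 50, 58],
    [40, 41, 46, 59], [42, 43, 51, 57], [48, 58, 59], [44, 45, 50, 55, 59], [47, 51, 52, 53, 56], [49,
    54, 56, 57]]
    (ok_LL6 60 (by norm_num)) (by decide +kernel) (by decide +kernel)

/-- Order `61`. -/
theorem b6_61 : NoS6 (LL6 61) 2 (2 * 61 - 4) :=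
  ck_s6 (LL6 61) (2 * 61 - 5) 61
    [[2, 3, 7, 9], [3, 4, 5, 15], [0, 6, 8, 11], [0, 1, 12], [1, 8, 10, 17, 18], [1, 6, 13, 14], [2, 5,
    19], [0, 10, 13], [2, 4, 16], [0, 14, 18], [4, 7, 20, 23], [2, 15, 23, 24], [3, 16, 19, 20], [5, 7,
    16, 24], [5, 9, 25], [1, 11, 26], [8, 12, 13, 22, 27], [4, 19, 28], [4, 9, 24, 29], [6, 12, 17, 21,
    30], [10, 12, 26, 31], [19, 23, 32], [16, 28, 33], [10, 11, 21, 25, 34], [11, 13, 18, 30, 35], [14,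
    23, 27, 36], [15, 20, 32, 37], [16, 25, 29, 38], [17, 22, 34, 39], [18, 27, 31, 40], [19, 24, 36,
    41], [20, 29, 33, 42], [21, 26, 38, 43], [22, 31, 35, 44], [23, 28, 40, 45], [24, 33, 37, 46], [25,
    30, 42, 47, 49], [26, 35, 39, 49, 50], [27, 32, 44], [28, 37, 41], [29, 34, 48, 50], [30, 39, 43,
    48, 54], [31, 36, 51, 56], [32, 41, 56], [33, 38, 47, 48, 52], [34, 49, 59], [35, 51, 55], [36, 44,
    53, 55], [40, 41, 44, 57], [36, 37, 45, 58], [37, 40, 53, 56], [42, 46, 60], [44, 56, 58], [47, 50,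
    60], [41, 55, 58], [46, 47, 54, 59], [42, 43, 50, 52, 59], [48, 59, 60], [49, 52, 54, 60], [45, 55,
    56, 57], [51, 53, 57, 58]]
    (ok_LL6 61 (by norm_num)) (by decide +kernel) (by decide +kernel)

/-- Order `62`. -/
theorem b6_62 : NoS6 (LL6 62) 2 (2 * 62 - 4) :=
  ck_s6 (LL6 62) (2 * 62 - 5) 62
    [[2, 3, 7, 9], [3, 4, 5, 15], [0, 6, 8, 11], [0, 1, 12], [1, 8, 10, 17, 18], [1, 6, 13, 14], [2, 5,
    19], [0, 10, 13], [2, 4, 16], [0, 14, 18], [4, 7, 20, 23], [2, 15, 23, 24], [3, 16, 19, 20], [5, 7,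
    16, 24], [5, 9, 25], [1, 11, 26], [8, 12, 13, 22, 27], [4, 19, 28], [4, 9, 24, 29], [6, 12, 17, 21,
    30], [10, 12, 26, 31], [19, 23, 32], [16, 28, 33], [10, 11, 21, 25, 34], [11, 13, 18, 30, 35], [14,
    23, 27, 36], [15, 20, 32, 37], [16, 25, 29, 38], [17, 22, 34, 39], [18, 27, 31, 40], [19, 24, 36,
    41], [20, 29, 33, 42], [21, 26, 38, 43], [22, 31, 35, 44], [23, 28, 40, 45], [24, 33, 37, 46], [25,
    30, 42, 47], [26, 35, 39, 48], [27, 32, 44, 49, 51], [28, 37, 41, 53], [29, 34, 46, 50], [30, 39,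
    43, 50, 52], [31, 36, 53, 56], [32, 41, 45, 54, 56], [33, 38, 50, 57], [34, 43, 57], [35, 40, 54,
    59], [36, 49, 59], [37, 55, 56], [38, 47, 60], [40, 41, 44, 58], [38, 61], [41, 55, 59], [39, 42,
    57, 60], [43, 46, 60], [48, 52, 60], [42, 43, 48, 61], [44, 45, 53, 59], [50, 60, 61], [46, 47, 52,
    57, 61], [49, 53, 54, 55, 58], [51, 56, 58, 59]]
    (ok_LL6 62 (by norm_num)) (by decide +kernel) (by decide +kernel)

/-- Order `63`. -/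
theorem b6_63 : NoS6 (LL6 63) 2 (2 * 63 - 4) :=
  ck_s6 (LL6 63) (2 * 63 - 5) 63
    [[2, 3, 7, 9], [3, 4, 5, 15], [0, 6, 8, 11], [0, 1, 12], [1, 8, 10, 17, 18], [1, 6, 13, 14], [2, 5,
    19], [0, 10, 13], [2, 4, 16], [0, 14, 18], [4, 7, 20, 23], [2, 15, 23, 24], [3, 16, 19, 20], [5, 7,
    16, 24], [5, 9, 25], [1, 11, 26], [8, 12, 13, 22, 27], [4, 19, 28], [4, 9, 24, 29], [6, 12, 17, 21,
    30], [10, 12, 26, 31], [19, 23, 32], [16, 28, 33], [10, 11, 21, 25, 34], [11, 13, 18, 30, 35], [14,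
    23, 27, 36], [15, 20, 32, 37], [16, 25, 29, 38], [17, 22, 34, 39], [18, 27, 31, 40], [19, 24, 36,
    41], [20, 29, 33, 42], [21, 26, 38, 43], [22, 31, 35, 44], [23, 28, 40, 45], [24, 33, 37, 46], [25,
    30, 42, 47], [26, 35, 39, 48], [27, 32, 44, 49, 51], [28, 37, 41, 51, 52], [29, 34, 46], [30, 39,
    43], [31, 36, 50, 52], [32, 41, 45, 50, 56], [33, 38, 53, 58], [34, 43, 58], [35, 40, 49, 50, 54],
    [36, 51, 61], [37, 53, 57], [38, 46, 55, 57], [42, 43, 46, 59], [38, 39, 47, 60], [39, 42, 55, 58],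
    [44, 48, 62], [46, 58, 60], [49, 52, 62], [43, 57, 60], [48, 49, 56, 61], [44, 45, 52, 54, 61], [50,
    61, 62], [51, 54, 56, 62], [47, 57, 58, 59], [53, 55, 59, 60]]
    (ok_LL6 63 (by norm_num)) (by decide +kernel) (by decide +kernel)

/-- Order `64`. -/
theorem b6_64 : NoS6 (LL6 64) 2 (2 * 64 - 4) :=
  ck_s6 (LL6 64) (2 * 64 - 5) 64
    [[2, 3, 7, 9], [3, 4, 5, 15], [0, 6, 8, 11], [0, 1, 12], [1, 8, 10, 17, 18], [1, 6, 13, 14], [2, 5,
    19], [0, 10, 13], [2, 4, 16], [0, 14, 18], [4, 7, 20, 23], [2, 15, 23, 24], [3, 16, 19, 20], [5, 7,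
    16, 24], [5, 9, 25], [1, 11, 26], [8, 12, 13, 22, 27], [4, 19, 28], [4, 9, 24, 29], [6, 12, 17, 21,
    30], [10, 12, 26, 31], [19, 23, 32], [16, 28, 33], [10, 11, 21, 25, 34], [11, 13, 18, 30, 35], [14,
    23, 27, 36], [15, 20, 32, 37], [16, 25, 29, 38], [17, 22, 34, 39], [18, 27, 31, 40], [19, 24, 36,
    41], [20, 29, 33, 42], [21, 26, 38, 43], [22, 31, 35, 44], [23, 28, 40, 45], [24, 33, 37, 46], [25,
    30, 42, 47], [26, 35, 39, 48], [27, 32, 44, 49], [28, 37, 41, 50], [29, 34, 46, 51, 53], [30, 39,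
    43, 55], [31, 36, 48, 52], [32, 41, 45, 52, 54], [33, 38, 55, 58], [34, 43, 47, 56, 58], [35, 40,
    52, 59], [36, 45, 59], [37, 42, 56, 61], [38, 51, 61], [39, 57, 58], [40, 49, 62], [42, 43, 46, 60],
    [40, 63], [43, 57, 61], [41, 44, 59, 62], [45, 48, 62], [50, 54, 62], [44, 45, 50, 63], [46, 47, 55,
    61], [52, 62, 63], [48, 49, 54, 59, 63], [51, 55, 56, 57, 60], [53, 58, 60, 61]]
    (ok_LL6 64 (by norm_num)) (by decide +kernel) (by decide +kernel)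

/-- Order `65`. -/
theorem b6_65 : NoS6 (LL6 65) 2 (2 * 65 - 4) :=
  ck_s6 (LL6 65) (2 * 65 - 5) 65
    [[2, 3, 7, 9], [3, 4, 5, 15], [0, 6, 8, 11], [0, 1, 12], [1, 8, 10, 17, 18], [1, 6, 13, 14], [2, 5,
    19], [0, 10, 13], [2, 4, 16], [0, 14, 18], [4, 7, 20, 23], [2, 15, 23, 24], [3, 16, 19, 20], [5, 7,
    16, 24], [5, 9, 25], [1, 11, 26], [8, 12, 13, 22, 27], [4, 19, 28], [4, 9, 24, 29], [6, 12, 17, 21,
    30], [10, 12, 26, 31], [19, 23, 32], [16, 28, 33], [10, 11, 21, 25, 34], [11, 13, 18, 30, 35], [14,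
    23, 27, 36], [15, 20, 32, 37], [16, 25, 29, 38], [17, 22, 34, 39], [18, 27, 31, 40], [19, 24, 36,
    41], [20, 29, 33, 42], [21, 26, 38, 43], [22, 31, 35, 44], [23, 28, 40, 45], [24, 33, 37, 46], [25,
    30, 42, 47], [26, 35, 39, 48], [27, 32, 44, 49], [28, 37, 41, 50], [29, 34, 46, 51, 53], [30, 39,
    43, 53, 54], [31, 36, 48], [32, 41, 45], [33, 38, 52, 54], [34, 43, 47, 52, 58], [35, 40, 55, 60],
    [36, 45, 60], [37, 42, 51, 52, 56], [38, 53, 63], [39, 55, 59], [40, 48, 57, 59], [44, 45, 48, 61],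
    [40, 41, 49, 62], [41, 44, 57, 60], [46, 50, 64], [48, 60, 62], [51, 54, 64], [45, 59, 62], [50, 51,
    58, 63], [46, 47, 54, 56, 63], [52, 63, 64], [53, 56, 58, 64], [49, 59, 60, 61], [55, 57, 61, 62]]
    (ok_LL6 65 (by norm_num)) (by decide +kernel) (by decide +kernel)

/-- Order `66`. -/
theorem b6_66 : NoS6 (LL6 66) 2 (2 * 66 - 4) :=
  ck_s6 (LL6 66) (2 * 66 - 5) 66
    [[2, 3, 7, 9], [3, 4, 5, 15], [0, 6, 8, 11], [0, 1, 12], [1, 8, 10, 17, 18], [1, 6, 13, 14], [2, 5,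
    19], [0, 10, 13], [2, 4, 16], [0, 14, 18], [4, 7, 20, 23], [2, 15, 23, 24], [3, 16, 19, 20], [5, 7,
    16, 24], [5, 9, 25], [1, 11, 26], [8, 12, 13, 22, 27], [4, 19, 28], [4, 9, 24, 29], [6, 12, 17, 21,
    30], [10, 12, 26, 31], [19, 23, 32], [16, 28, 33], [10, 11, 21, 25, 34], [11, 13, 18, 30, 35], [14,
    23, 27, 36], [15, 20, 32, 37], [16, 25, 29, 38], [17, 22, 34, 39], [18, 27, 31, 40], [19, 24, 36,
    41], [20, 29, 33, 42], [21, 26, 38, 43], [22, 31, 35, 44], [23, 28, 40, 45], [24, 33, 37, 46], [25,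
    30, 42, 47], [26, 35, 39, 48], [27, 32, 44, 49], [28, 37, 41, 50], [29, 34, 46, 51], [30, 39, 43,
    52], [31, 36, 48, 53, 55], [32, 41, 45, 57], [33, 38, 50, 54], [34, 43, 47, 54, 56], [35, 40, 57,
    60], [36, 45, 49, 58, 60], [37, 42, 54, 61], [38, 47, 61], [39, 44, 58, 63], [40, 53, 63], [41, 59,
    60], [42, 51, 64], [44, 45, 48, 62], [42, 65], [45, 59, 63], [43, 46, 61, 64], [47, 50, 64], [52,
    56, 64], [46, 47, 52, 65], [48, 49, 57, 63], [54, 64, 65], [50, 51, 56, 61, 65], [53, 57, 58, 59,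
    62], [55, 60, 62, 63]]
    (ok_LL6 66 (by norm_num)) (by decide +kernel) (by decide +kernel)

/-- Order `67`. -/
theorem b6_67 : NoS6 (LL6 67) 2 (2 * 67 - 4) :=
  ck_s6 (LL6 67) (2 * 67 - 5) 67
    [[2, 3, 7, 9], [3, 4, 5, 15], [0, 6, 8, 11], [0, 1, 12], [1, 8, 10, 17, 18], [1, 6, 13, 14], [2, 5,
    19], [0, 10, 13], [2, 4, 16], [0, 14, 18], [4, 7, 20, 23], [2, 15, 23, 24], [3, 16, 19, 20], [5, 7,
    16, 24], [5, 9, 25], [1, 11, 26], [8, 12, 13, 22, 27], [4, 19, 28], [4, 9, 24, 29], [6, 12, 17, 21,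
    30], [10, 12, 26, 31], [19, 23, 32], [16, 28, 33], [10, 11, 21, 25, 34], [11, 13, 18, 30, 35], [14,
    23, 27, 36], [15, 20, 32, 37], [16, 25, 29, 38], [17, 22, 34, 39], [18, 27, 31, 40], [19, 24, 36,
    41], [20, 29, 33, 42], [21, 26, 38, 43], [22, 31, 35, 44], [23, 28, 40, 45], [24, 33, 37, 46], [25,
    30, 42, 47], [26, 35, 39, 48], [27, 32, 44, 49], [28, 37, 41, 50], [29, 34, 46, 51], [30, 39, 43,
    52], [31, 36, 48, 53, 55], [32, 41, 45, 55, 56], [33, 38, 50], [34, 43, 47], [35, 40, 54, 56], [36,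
    45, 49, 54, 60], [37, 42, 57, 62], [38, 47, 62], [39, 44, 53, 54, 58], [40, 55, 65], [41, 57, 61],
    [42, 50, 59, 61], [46, 47, 50, 63], [42, 43, 51, 64], [43, 46, 59, 62], [48, 52, 66], [50, 62, 64],
    [53, 56, 66], [47, 61, 64], [52, 53, 60, 65], [48, 49, 56, 58, 65], [54, 65, 66], [55, 58, 60, 66],
    [51, 61, 62, 63], [57, 59, 63, 64]]
    (ok_LL6 67 (by norm_num)) (by decide +kernel) (by decide +kernel)

end Pool.Agent.GFv
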