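import Pool.Agent.GFv.Six

set_option autoImplicit false

/-!
# Girth six: the graphs of order 26 to 27
-/

namespace Pool.Agent.GFv

/-- Order `26`. -/
theorem h6_26 : Has6 26 :=
  ⟨_, small6
    [0, 0, 1, 0, 2, 1, 1, 1, 0, 2, 4, 2, 0, 6, 4, 1, 7, 6, 5, 6, 5, 10, 7, 4, 8, 12, 8, 10, 10, 12, 14,
    9, 13, 16, 11, 14, 17, 16, 15, 17, 18, 19, 21, 20, 22, 22, 23]
    [[2, 3, 5, 10, 14], [3, 6, 7, 8, 16], [0, 4, 9, 11], [0, 1], [2, 8, 12, 21], [0, 15, 17], [1, 9, 13,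
    15], [1, 11, 17], [1, 4, 18, 20], [2, 6, 24], [0, 13, 19, 20], [2, 7, 25], [4, 15, 19], [6, 10, 21],
    [0, 18, 23], [5, 6, 12, 25], [1, 19, 23], [5, 7, 21, 24], [8, 14, 24], [10, 12, 16, 24], [8, 10,
    25], [4, 13, 17, 23], [24, 25], [14, 16, 21, 25], [9, 17, 18, 19, 22], [11, 15, 20, 22, 23]]
    [0, 2, 4, 8, 1, 3] 26 (by norm_num) (by decide +kernel)⟩

/-- Order `27`. -/
theorem h6_27 : Has6 27 :=
  ⟨_, small6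
    [0, 1, 1, 0, 0, 3, 0, 4, 3, 1, 1, 6, 5, 0, 2, 4, 6, 2, 9, 3, 10, 7, 5, 12, 8, 7, 6, 10, 13, 10, 8,
    16, 9, 11, 15, 13, 15, 16, 14, 20, 17, 18, 20, 19, 21, 22, 22, 23, 24]
    [[2, 5, 6, 8, 15], [2, 3, 10, 11], [0, 1, 14, 17], [1, 4, 7, 18], [3, 5, 13], [0, 4, 9, 19], [0, 7,
    12, 22], [3, 6, 16, 20], [0, 18, 24], [5, 11, 25], [1, 12, 19, 21], [1, 9, 24], [6, 10, 13], [4, 12,
    17, 24], [2, 26], [0, 21, 23], [7, 17, 23], [2, 13, 16, 25], [3, 8, 25], [5, 10, 26], [7, 21, 24],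
    [10, 15, 20, 25], [6, 25, 26], [15, 16, 26], [8, 11, 13, 20, 26], [9, 17, 18, 21, 22], [14, 19, 22,
    23, 24]]
    [0, 2, 1, 3, 4, 5] 27 (by norm_num) (by decide +kernel)⟩

end Pool.Agent.GFv
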