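import Pool.Agent.GFv.Upp

set_option autoImplicit false

/-!
# Girth six: at most `2 n - 6` edges for `6 ≤ n ≤ 19` (MP_1b49f3_co, third theorem)
-/

namespace Pool.Agent.GFv

/-- No cycle of length three, four or five. -/
def NoD {V : Type} (G : SimpleGraph V) : Prop :=
  NoC G ∧ ∀ a b c d e : V, G.Adj a b → G.Adj b c → G.Adj c d → G.Adj d e → G.Adj e a → False

-- BEGIN nod
/-- PROOF. `noc`. A closed walk `a b c d e` of length five: if two vertices at distance two in the walk are
equal (`a = c`, `b = d`, `c = e`, `d = a`, `e = b`) the other three edges form a triangle. Otherwise all five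
are different: build the closed walk and show that it is a cycle of length five (as in `noc`);
`SimpleGraph.girth_le_length`. -/
theorem nod {V : Type} (G : SimpleGraph V) (hg : 6 ≤ G.girth) : NoD G := by
  have h0 : NoC G := noc G (by omega)
  refine ⟨h0, fun a b c d e hab hbc hcd hde hea => ?_⟩
  have h3 := h0.1
  by_cases hac : a = c
  · rw [hac] at hea
    exact h3 c d e hcd hde hea
  by_cases hbd : b = d
  · rw [← hbd] at hde
    exact h3 a b e hab hde hea
  by_cases hce : c = e
  · rw [← hce] at hea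
    exact h3 a b c hab hbc hea
  by_cases hda : d = a
  · rw [hda] at hcd
    exact h3 a b c hab hbc hcd
  by_cases heb : e = b
  · rw [heb] at hde
    exact h3 b c d hbc hcd hde
  have hc : (SimpleGraph.Walk.cons hab (SimpleGraph.Walk.cons hbc (SimpleGraph.Walk.cons hcd
      (SimpleGraph.Walk.cons hde (SimpleGraph.Walk.cons hea SimpleGraph.Walk.nil))))).IsCycle := by
    have h1 := hab.ne
    have h2 := hbc.ne
    have h3 := hcd.ne
    have h4 := hde.ne
    have h5 := hea.ne
    have g1 : c ≠ a := Ne.symm hac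
    have g2 : d ≠ b := Ne.symm hbd
    have g3 : e ≠ c := Ne.symm hce
    have g4 : a ≠ d := Ne.symm hda
    have g5 : b ≠ e := Ne.symm heb
    rw [SimpleGraph.Walk.isCycle_def]
    refine ⟨?_, ?_, ?_⟩
    · simp [SimpleGraph.Walk.isTrail_def, h1, h2, h3, h4, h5, h1.symm, h5.symm, hac, hbd, hce,
        hda, g1, g4, g5]
    · simp
    · simp [h1.symm, h2, h3, h4, h5, hbd, hce, hda, g1, g5]
  have := SimpleGraph.girth_le_length hc
  simp at this
  omega
-- END nod

-- BEGIN loc6
private theorem loc6_card {V : Type} [Fintype V] [DecidableEq V] (G : SimpleGraph V)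
    [DecidableRel G.Adj] (hG : NoC G) (u v : V) :
    (((G.neighborFinset u).erase v).biUnion (fun w => (G.neighborFinset w).erase u)).card =
      ∑ w ∈ (G.neighborFinset u).erase v, (G.degree w - 1) := by
  obtain ⟨h3, h4⟩ := hG
  rw [Finset.card_biUnion]
  · refine Finset.sum_congr rfl fun w hw => ?_
    have huw : G.Adj u w := (G.mem_neighborFinset u w).1 (Finset.mem_of_mem_erase hw)
    rw [Finset.card_erase_of_mem ((G.mem_neighborFinset w u).2 huw.symm),
      G.card_neighborFinset_eq_degree]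
  · intro w hw w' hw' hne
    have huw : G.Adj u w := (G.mem_neighborFinset u w).1 (Finset.mem_of_mem_erase hw)
    have huw' : G.Adj u w' := (G.mem_neighborFinset u w').1 (Finset.mem_of_mem_erase hw')
    show Disjoint ((G.neighborFinset w).erase u) ((G.neighborFinset w').erase u)
    rw [Finset.disjoint_left]
    intro x hx hx'
    rw [Finset.mem_erase, SimpleGraph.mem_neighborFinset] at hx hx'
    exact h4 u w x w' (Ne.symm hx.1) hne huw hx.2 hx'.2.symm huw'.symm

private theorem loc6_mem {V : Type} [Fintype V] [DecidableEq V] (G : SimpleGraph V)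
    [DecidableRel G.Adj] (u v x : V)
    (h : x ∈ ((G.neighborFinset u).erase v).biUnion (fun w => (G.neighborFinset w).erase u)) :
    ∃ w, w ≠ v ∧ G.Adj u w ∧ x ≠ u ∧ G.Adj w x := by
  rw [Finset.mem_biUnion] at h
  obtain ⟨w, hw, hx⟩ := h
  rw [Finset.mem_erase, SimpleGraph.mem_neighborFinset] at hw hx
  exact ⟨w, hw.1, hw.2, hx.1, hx.2⟩

/-- The sets `N(u)`, `N(v)`, `N(w) \ {u}` for `w ∈ N(u) \ {v}` and `N(w) \ {v}` for `w ∈ N(v) \ {u}` are pairwise
disjoint. PROOF. As `nbr` of `Upp.lean` (`Finset.card_biUnion`, `Finset.card_erase_of_mem`): a common element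
gives a closed walk of length three or five or a `4`-cycle: `x ∈ N(u) ∩ N(v)` triangle; `x ∈ N(u) ∩ N(w)`,
`w ∈ N(u)`: triangle; `x ∈ N(u)`, `x ∈ N(w) \ {v}`, `w ∈ N(v) \ {u}`: the `4`-cycle `u x w v`; `x` in
`N(w) \ {u}` and `N(w') \ {u}`: the `4`-cycle `u w x w'`; `x ∈ N(w)`, `x ∈ N(w')` with `w ∈ N(u)`, `w' ∈ N(v)`:
the closed walk `u w x w' v`. -/
theorem loc6 {V : Type} [Fintype V] [DecidableEq V] (G : SimpleGraph V) [DecidableRel G.Adj]
    (hG : NoD G) (u v : V) (h : G.Adj u v) :
    G.degree u + G.degree v + ∑ w ∈ (G.neighborFinset u).erase v, (G.degree w - 1) +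
      ∑ w ∈ (G.neighborFinset v).erase u, (G.degree w - 1) ≤ Fintype.card V := by
  obtain ⟨hC, h5⟩ := hG
  have h3 := hC.1
  have h4 := hC.2
  rw [← loc6_card G hC u v, ← loc6_card G hC v u, ← G.card_neighborFinset_eq_degree u,
    ← G.card_neighborFinset_eq_degree v]
  have d1 : Disjoint (G.neighborFinset u) (G.neighborFinset v) := by
    rw [Finset.disjoint_left]
    intro x hx hx'
    rw [SimpleGraph.mem_neighborFinset] at hx hx'
    exact h3 u x v hx hx'.symm h.symm
  have d2 : Disjoint (G.neighborFinset u ∪ G.neighborFinset v)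
      (((G.neighborFinset u).erase v).biUnion (fun w => (G.neighborFinset w).erase u)) := by
    rw [Finset.disjoint_left]
    intro x hx hx'
    obtain ⟨w, hw, huw, hxu, hwx⟩ := loc6_mem G u v x hx'
    rw [Finset.mem_union, SimpleGraph.mem_neighborFinset, SimpleGraph.mem_neighborFinset] at hx
    rcases hx with hx | hx
    · exact h3 u w x huw hwx hx.symm
    · exact h4 u w x v (Ne.symm hxu) hw huw hwx hx.symm h.symm
  have d3 : Disjoint (G.neighborFinset u ∪ G.neighborFinset v ∪
      ((G.neighborFinset u).erase v).biUnion (fun w => (G.neighborFinset w).erase u))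
      (((G.neighborFinset v).erase u).biUnion (fun w => (G.neighborFinset w).erase v)) := by
    rw [Finset.disjoint_left]
    intro x hx hx'
    obtain ⟨w, hw, hvw, hxv, hwx⟩ := loc6_mem G v u x hx'
    rw [Finset.mem_union, Finset.mem_union, SimpleGraph.mem_neighborFinset,
      SimpleGraph.mem_neighborFinset] at hx
    rcases hx with (hx | hx) | hx
    · exact h4 v w x u (Ne.symm hxv) hw hvw hwx hx.symm h
    · exact h3 v w x hvw hwx hx.symm
    · obtain ⟨w', hw', huw', hxu, hwx'⟩ := loc6_mem G u v x hx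
      exact h5 u w' x w v huw' hwx' hwx.symm hvw.symm h.symm
  rw [← Finset.card_union_of_disjoint d1, ← Finset.card_union_of_disjoint d2,
    ← Finset.card_union_of_disjoint d3]
  exact Finset.card_le_univ _
-- END loc6

-- BEGIN sum6
private theorem sum6_swp {V : Type} [Fintype V] [DecidableEq V] (G : SimpleGraph V)
    [DecidableRel G.Adj] (f : V → V → ℕ) :
    ∑ u, ∑ v ∈ G.neighborFinset u, f u v = ∑ u, ∑ v ∈ G.neighborFinset u, f v u := by
  refine Finset.sum_comm' ?_
  intro x y
  simp only [Finset.mem_univ, true_and, and_true, SimpleGraph.mem_neighborFinset]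
  exact G.adj_comm x y

private theorem sum6_era {V : Type} [Fintype V] [DecidableEq V] (G : SimpleGraph V)
    [DecidableRel G.Adj] (g : V → ℕ) (u : V) :
    ∑ v ∈ G.neighborFinset u, ∑ w ∈ (G.neighborFinset u).erase v, g w =
      (G.degree u - 1) * ∑ w ∈ G.neighborFinset u, g w := by
  have e : ∑ v ∈ G.neighborFinset u, ∑ w ∈ (G.neighborFinset u).erase v, g w =
      ∑ w ∈ G.neighborFinset u, ∑ _v ∈ (G.neighborFinset u).erase w, g w := by
    refine Finset.sum_comm' ?_
    intro x y
    simp only [Finset.mem_erase]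
    constructor
    · rintro ⟨h1, h2, h3⟩
      exact ⟨⟨Ne.symm h2, h1⟩, h3⟩
    · rintro ⟨⟨h1, h2⟩, h3⟩
      exact ⟨h2, Ne.symm h1, h3⟩
  rw [e, Finset.mul_sum]
  refine Finset.sum_congr rfl fun w hw => ?_
  rw [Finset.sum_const, smul_eq_mul, Finset.card_erase_of_mem hw,
    G.card_neighborFinset_eq_degree]

/-- PROOF. Sum `loc6` over all `u` and all `v ∈ N(u)`. The four sums are `∑ d(u) ^ 2` (twice; see `sqs`) and
`∑_u ∑_(v ∈ N(u)) ∑_(w ∈ N(u) \ {v}) (d(w) - 1) = ∑_u (d(u) - 1) ∑_(w ∈ N(u)) (d(w) - 1)` (twice, by the symmetry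
`u ↔ v`, `Finset.sum_comm'`); the right side is `n ∑ d(u) = 2 n m`
(`SimpleGraph.sum_degrees_eq_twice_card_edges`). Divide by two. -/
theorem sum6 {V : Type} [Fintype V] [DecidableEq V] (G : SimpleGraph V) [DecidableRel G.Adj]
    (hG : NoD G) :
    ∑ v, G.degree v ^ 2 + ∑ u, (G.degree u - 1) * ∑ w ∈ G.neighborFinset u, (G.degree w - 1) ≤
      Fintype.card V * G.edgeFinset.card := by
  have h1 : ∑ u, ∑ v ∈ G.neighborFinset u, (G.degree u + G.degree v +
      ∑ w ∈ (G.neighborFinset u).erase v, (G.degree w - 1) +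
      ∑ w ∈ (G.neighborFinset v).erase u, (G.degree w - 1)) ≤
      ∑ u, ∑ _v ∈ G.neighborFinset u, Fintype.card V :=
    Finset.sum_le_sum fun u _ => Finset.sum_le_sum fun v hv =>
      loc6 G hG u v ((G.mem_neighborFinset u v).1 hv)
  simp only [Finset.sum_add_distrib] at h1
  have s1 : ∑ u, ∑ _v ∈ G.neighborFinset u, G.degree u = ∑ v, G.degree v ^ 2 := by
    refine Finset.sum_congr rfl fun u _ => ?_
    rw [Finset.sum_const, smul_eq_mul, G.card_neighborFinset_eq_degree, sq]
  have s2 : ∑ u, ∑ v ∈ G.neighborFinset u, G.degree v = ∑ v, G.degree v ^ 2 := by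
    rw [sum6_swp G (fun _ v => G.degree v)]
    exact s1
  have s3 : ∑ u, ∑ v ∈ G.neighborFinset u,
      ∑ w ∈ (G.neighborFinset u).erase v, (G.degree w - 1) =
      ∑ u, (G.degree u - 1) * ∑ w ∈ G.neighborFinset u, (G.degree w - 1) :=
    Finset.sum_congr rfl fun u _ => sum6_era G (fun w => G.degree w - 1) u
  have s4 : ∑ u, ∑ v ∈ G.neighborFinset u,
      ∑ w ∈ (G.neighborFinset v).erase u, (G.degree w - 1) =
      ∑ u, (G.degree u - 1) * ∑ w ∈ G.neighborFinset u, (G.degree w - 1) := by
    rw [sum6_swp G (fun u v => ∑ w ∈ (G.neighborFinset v).erase u, (G.degree w - 1))]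
    exact s3
  have s5 : ∑ u, ∑ _v ∈ G.neighborFinset u, Fintype.card V =
      2 * (Fintype.card V * G.edgeFinset.card) := by
    have e : ∀ u : V, ∑ _v ∈ G.neighborFinset u, Fintype.card V = G.degree u * Fintype.card V :=
      fun u => by rw [Finset.sum_const, smul_eq_mul, G.card_neighborFinset_eq_degree]
    rw [Finset.sum_congr rfl fun u _ => e u, ← Finset.sum_mul, G.sum_degrees_eq_twice_card_edges]
    ring
  rw [s1, s2, s3, s4, s5] at h1
  linarith
-- END sum6

-- BEGIN low6
private theorem low6_ex {V : Type} [Fintype V] [DecidableEq V] (G : SimpleGraph V)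
    [DecidableRel G.Adj] :
    ∑ v, ∑ u ∈ G.neighborFinset v, G.degree u = ∑ v, G.degree v ^ 2 := by
  have e : ∑ v, ∑ u ∈ G.neighborFinset v, G.degree u =
      ∑ u, ∑ _v ∈ G.neighborFinset u, G.degree u := by
    refine Finset.sum_comm' ?_
    intro x y
    simp only [Finset.mem_univ, true_and, and_true, SimpleGraph.mem_neighborFinset]
    exact G.adj_comm x y
  rw [e]
  refine Finset.sum_congr rfl fun u _ => ?_
  rw [Finset.sum_const, smul_eq_mul, SimpleGraph.card_neighborFinset_eq_degree, sq]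

private theorem low6_ab {a b : ℕ} (ha : 3 ≤ a) (hb : 3 ≤ b) :
    2 * a + 2 * b ≤ (a - 1) * (b - 1) + 8 := by
  obtain ⟨x, rfl⟩ := Nat.exists_eq_add_of_le ha
  obtain ⟨y, rfl⟩ := Nat.exists_eq_add_of_le hb
  have e1 : 3 + x - 1 = x + 2 := by omega
  have e2 : 3 + y - 1 = y + 2 := by omega
  rw [e1, e2]
  nlinarith [Nat.zero_le (x * y)]

private theorem low6_sq {a : ℕ} (ha : 3 ≤ a) : 7 * a ≤ a ^ 2 + 12 := by
  obtain ⟨x, rfl⟩ := Nat.exists_eq_add_of_le ha
  have h : x ≤ x * x := Nat.le_mul_self x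
  nlinarith

/-- PROOF. For degrees `≥ 3`: `(d - 1) (d' - 1) + 8 ≥ 2 d + 2 d'`, so the second sum of `sum6` is
`≥ 4 ∑ d ^ 2 - 16 m` (`∑_u ∑_(w ∈ N(u)) (2 d(u) + 2 d(w) - 8)`); and `d ^ 2 + 12 ≥ 7 d`, so
`∑ d ^ 2 ≥ 14 m - 12 n`. Together `5 (14 m - 12 n) - 16 m ≤ n m`. -/
theorem low6 {V : Type} [Fintype V] [DecidableEq V] (G : SimpleGraph V) [DecidableRel G.Adj]
    (hG : NoD G) (hd : ∀ v, 3 ≤ G.degree v) :
    54 * G.edgeFinset.card ≤ Fintype.card V * G.edgeFinset.card + 60 * Fintype.card V := by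
  have hs := sum6 G hG
  have hm : ∑ v, G.degree v = 2 * G.edgeFinset.card := G.sum_degrees_eq_twice_card_edges
  have h1 : ∀ u, 2 * G.degree u ^ 2 + 2 * ∑ w ∈ G.neighborFinset u, G.degree w ≤
      (G.degree u - 1) * ∑ w ∈ G.neighborFinset u, (G.degree w - 1) + 8 * G.degree u := by
    intro u
    have h2 : ∑ w ∈ G.neighborFinset u, (2 * G.degree u + 2 * G.degree w) ≤
        ∑ w ∈ G.neighborFinset u, ((G.degree u - 1) * (G.degree w - 1) + 8) :=
      Finset.sum_le_sum fun w _ => low6_ab (hd u) (hd w)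
    rw [Finset.sum_add_distrib, Finset.sum_add_distrib, Finset.sum_const, Finset.sum_const,
      ← Finset.mul_sum, ← Finset.mul_sum, SimpleGraph.card_neighborFinset_eq_degree, smul_eq_mul,
      smul_eq_mul] at h2
    nlinarith
  have h3 := Finset.sum_le_sum fun u (_ : u ∈ (Finset.univ : Finset V)) => h1 u
  rw [Finset.sum_add_distrib, Finset.sum_add_distrib, ← Finset.mul_sum, ← Finset.mul_sum,
    ← Finset.mul_sum, low6_ex, hm] at h3
  have h4 := Finset.sum_le_sum fun v (_ : v ∈ (Finset.univ : Finset V)) => low6_sq (hd v)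
  rw [Finset.sum_add_distrib, ← Finset.mul_sum, hm, Finset.sum_const, Finset.card_univ,
    smul_eq_mul] at h4
  omega
-- END low6

-- BEGIN del6
/-- Deleting a vertex. PROOF. As `del` of `Upp.lean` (same proof with the additional clause). -/
theorem del6 {V : Type} [Fintype V] [DecidableEq V] (G : SimpleGraph V) [DecidableRel G.Adj]
    (hG : NoD G) (v : V) :
    ∃ H : SimpleGraph {u : V // u ≠ v}, ∃ _ : DecidableRel H.Adj, NoD H ∧
      G.edgeFinset.card ≤ H.edgeFinset.card + G.degree v := by
  refine ⟨G.comap Subtype.val, fun a b => inferInstanceAs (Decidable (G.Adj a b)),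
    ⟨⟨fun a b c h1 h2 h3 => hG.1.1 a b c h1 h2 h3, fun a b c d hac hbd h1 h2 h3 h4 =>
      hG.1.2 a b c d (fun h => hac (Subtype.ext h)) (fun h => hbd (Subtype.ext h)) h1 h2 h3 h4⟩,
      fun a b c d e h1 h2 h3 h4 h5 => hG.2 a b c d e h1 h2 h3 h4 h5⟩, ?_⟩
  let _ : DecidableRel (G.comap (Subtype.val : {u : V // u ≠ v} → V)).Adj :=
    fun a b => inferInstanceAs (Decidable (G.Adj a b))
  have hsub : G.edgeFinset ⊆
      (G.comap (Subtype.val : {u : V // u ≠ v} → V)).edgeFinset.image (Sym2.map Subtype.val) ∪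
        G.incidenceFinset v := by
    intro e
    induction e with
    | _ a b =>
      intro he
      rw [Finset.mem_union, SimpleGraph.mem_incidenceFinset]
      have he' : G.Adj a b := by
        rw [SimpleGraph.mem_edgeFinset, SimpleGraph.mem_edgeSet] at he
        exact he
      by_cases ha : a = v
      · right
        exact ⟨he', by rw [ha]; exact Sym2.mem_mk_left v b⟩
      by_cases hb : b = v
      · right
        exact ⟨he', by rw [hb]; exact Sym2.mem_mk_right a v⟩
      · left
        refine Finset.mem_image.2 ⟨s(⟨a, ha⟩, ⟨b, hb⟩), ?_, rfl⟩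
        rw [SimpleGraph.mem_edgeFinset, SimpleGraph.mem_edgeSet]
        exact he'
  calc G.edgeFinset.card
      ≤ ((G.comap (Subtype.val : {u : V // u ≠ v} → V)).edgeFinset.image (Sym2.map Subtype.val) ∪
        G.incidenceFinset v).card := Finset.card_le_card hsub
    _ ≤ ((G.comap (Subtype.val : {u : V // u ≠ v} → V)).edgeFinset.image
          (Sym2.map Subtype.val)).card + (G.incidenceFinset v).card := Finset.card_union_le _ _
    _ ≤ (G.comap (Subtype.val : {u : V // u ≠ v} → V)).edgeFinset.card + G.degree v := by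
        rw [G.card_incidenceFinset_eq_degree v]
        exact Nat.add_le_add_right Finset.card_image_le _
-- END del6

-- BEGIN ext6
/-- PROOF. Induction on `n` from `6` (`Nat.le_induction`; `6`: `ex_small`). Step to `n + 1 ≤ 19`: a vertex of
degree `≤ 2`: `del6` (see `ex_twelve` for the cardinality). Otherwise `low6`: if there are `m ≥ 2 (n + 1) - 5`
edges, `(54 - (n + 1)) m ≤ 60 (n + 1)` fails for each `n + 1 = 7, ..., 19` (`interval_cases n`, `omega`). -/
theorem ext6 (n : ℕ) (h6 : 6 ≤ n) : n ≤ 19 → ∀ (V : Type) [Fintype V] [DecidableEq V]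
    (G : SimpleGraph V) [DecidableRel G.Adj], NoD G → Fintype.card V = n →
      G.edgeFinset.card + 6 ≤ 2 * n := by
  induction n, h6 using Nat.le_induction with
  | base =>
    intro _ V _ _ G _ hG hc
    have h := ex_small G hG.1 (by omega) (by omega)
    omega
  | succ n hn ih =>
    intro h19 V _ _ G _ hG hc
    by_cases hd : ∃ v, G.degree v ≤ 2
    · obtain ⟨v, hv⟩ := hd
      obtain ⟨H, hH, hN, hle⟩ := del6 G hG v
      have hcc : Fintype.card {u : V // u ≠ v} = n := by
        have h1 : Fintype.card {u : V // ¬ u = v} =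
            Fintype.card V - Fintype.card {u : V // u = v} :=
          Fintype.card_subtype_compl _
        rw [Fintype.card_subtype_eq, hc] at h1
        simpa using h1
      have h2 := ih (by omega) {u : V // u ≠ v} H hN hcc
      omega
    · have hd3 : ∀ v, 3 ≤ G.degree v := by
        intro v
        by_contra hlt
        exact hd ⟨v, by omega⟩
      by_contra hq
      have hl := low6 G hG hd3
      rw [hc] at hl
      generalize G.edgeFinset.card = m at hl hq
      have h18 : n ≤ 18 := by omega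
      clear ih h19
      interval_cases n <;> omega
-- END ext6

end Pool.Agent.GFv
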