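import Pool.Agent.GFv.Upp

set_option autoImplicit false

/-!
# Girth six (MP_1b49f3_co, second theorem)

Conventions as in `Ctr.lean`: vertices `0, ..., p - 1`, the edge with sum `s` is `{L s, s - L s}`.
-/

namespace Pool.Agent.GFv

/-- No cycle of length three, four or five. -/
def NoS6 (L : ℕ → ℕ) (lo hi : ℕ) : Prop :=
  NoS L lo hi ∧ ∀ a b c d e : ℕ, Ed L lo hi a b → Ed L lo hi b c → Ed L lo hi c d →
    Ed L lo hi d e → Ed L lo hi e a → False

/-- Row `a` of a table of neighbours. -/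
def rw6 (T : List (List ℕ)) (a : ℕ) : List ℕ := T.getD a []

/-- Every edge is in the table, at both ends. -/
def cov6 (L : ℕ → ℕ) (q : ℕ) (T : List (List ℕ)) : Bool :=
  (List.range q).all fun i =>
    (rw6 T (L (i + 2))).contains (i + 2 - L (i + 2)) && (rw6 T (i + 2 - L (i + 2))).contains (L (i + 2))

/-- Check of the table: for `a` and `b` in its row, the ends `x` of the walks `a c x` with `c ≠ b` are not in
the row of `b` (unless `x = a`) and are no ends of walks `b d x` with `d ≠ a`. -/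
def ck6 (T : List (List ℕ)) (p : ℕ) : Bool :=
  (List.range p).all fun a => (rw6 T a).all fun b =>
    (((rw6 T a).filter fun c => c != b).flatMap (rw6 T)).all fun x =>
      (x == a || !((rw6 T b).contains x)) &&
        !((((rw6 T b).filter fun d => d != a).flatMap (rw6 T)).contains x)

/-- The end table (differences for the sums `2, ..., 35`). -/
def dlo6 (s : ℕ) : ℕ :=
  [2, 3, 2, 3, 4, 7, 4, 9, 6, 1, 4, 9, 6, 9, 14, 3, 8, 9, 6, 13, 14, 5, 8, 13, 4, 9, 4, 3, 10, 7, 8, 13,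
    12, 13].getD (s - 2) 0

/-- The end table of the other parity (differences for the sums `2, ..., 33`). -/
def dhi6 (s : ℕ) : ℕ :=
  [2, 3, 2, 5, 2, 5, 6, 7, 10, 7, 4, 11, 8, 3, 12, 13, 8, 7, 12, 13, 8, 13, 14, 11, 2, 11, 6, 11, 14, 9,
    10, 13].getD (s - 2) 0

/-- The middle. -/
def dmid6 (s : ℕ) : ℕ := [2, 11, 6, 11].getD (s % 4) 0

/-- The difference of the ends of the edge with sum `s` in the graph of order `p`. -/
def dd6 (p s : ℕ) : ℕ :=
  if s < 36 then dlo6 s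
  else if p % 2 = 1 then (if 2 * p - 2 - s < 36 then dlo6 (2 * p - 2 - s) else dmid6 s)
  else (if 2 * p - 2 - s < 34 then dhi6 (2 * p - 2 - s) else dmid6 s)

/-- The smaller end of the edge with sum `s` in the graph of order `p ≥ 50`. -/
def LL6 (p s : ℕ) : ℕ := (s - dd6 p s) / 2

-- BEGIN ck_s6
private theorem ck_s6_lt (L : ℕ → ℕ) (q p : ℕ) (h : Ok L 2 (q + 1) p) {u v : ℕ}
    (he : Ed L 2 (q + 1) u v) : u < p ∧ v < p ∧ u ≠ v := by
  obtain ⟨h1, h2, h3⟩ := he
  have h4 := h _ h1 h2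
  rcases h3 with h3 | h3 <;> rw [h3] at h4 <;> omega

private theorem ck_s6_mem (L : ℕ → ℕ) (q : ℕ) (T : List (List ℕ)) (hc : cov6 L q T = true)
    {u v : ℕ} (he : Ed L 2 (q + 1) u v) : v ∈ rw6 T u := by
  obtain ⟨h1, h2, h3⟩ := he
  unfold cov6 at hc
  rw [List.all_eq_true] at hc
  have h4 := hc (u + v - 2) (List.mem_range.2 (by omega))
  rw [Bool.and_eq_true, List.contains_iff_mem, List.contains_iff_mem,
    show u + v - 2 + 2 = u + v by omega] at h4
  rcases h3 with h3 | h3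
  · rw [h3, show u + v - u = v by omega] at h4
    exact h4.1
  · rw [h3, show u + v - v = u by omega] at h4
    exact h4.2

private theorem ck_s6_key (T : List (List ℕ)) (p : ℕ) (hk : ck6 T p = true) {a b c x : ℕ}
    (ha : a < p) (hb : b ∈ rw6 T a) (hc : c ∈ rw6 T a) (hcb : c ≠ b) (hx : x ∈ rw6 T c) :
    (x = a ∨ x ∉ rw6 T b) ∧ ∀ d, d ∈ rw6 T b → d ≠ a → x ∉ rw6 T d := by
  unfold ck6 at hk
  rw [List.all_eq_true] at hk
  have h1 := hk a (List.mem_range.2 ha)
  rw [List.all_eq_true] at h1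
  have h2 := h1 b hb
  rw [List.all_eq_true] at h2
  have h3 := h2 x (List.mem_flatMap.2 ⟨c, List.mem_filter.2 ⟨hc, by simpa using hcb⟩, hx⟩)
  rw [Bool.and_eq_true, Bool.or_eq_true] at h3
  obtain ⟨h4, h5⟩ := h3
  refine ⟨?_, fun d hd hda hxd => ?_⟩
  · rcases h4 with h4 | h4
    · exact Or.inl (by simpa using h4)
    · refine Or.inr fun h6 => ?_
      rw [← List.contains_iff_mem] at h6
      rw [h6] at h4
      exact absurd h4 (by simp)
  · have h6 : ((((rw6 T b).filter fun d => d != a).flatMap (rw6 T)).contains x) = true := by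
      rw [List.contains_iff_mem]
      exact List.mem_flatMap.2 ⟨d, List.mem_filter.2 ⟨hd, by simpa using hda⟩, hxd⟩
    rw [h6] at h5
    exact absurd h5 (by simp)

/-- The check is sound. PROOF. By `cov6` (and `Ok`): `Ed L 2 (q + 1) a b` implies `a < p`, `b < p`, `b` in
`rw6 T a`, `a` in `rw6 T b` (put `s = a + b`, `i = s - 2`). Closed walk `a b d x c` of length five (that is
`a b`, `b d`, `d x`, `x c`, `c a`): if `c = b` then `a b ..`: `b x`, `x d`, `d b` is a closed walk of length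
three; if `d = a` then `a x`, `x c`, `c a` is one. A closed walk `a b t` of length three: the check for the edge
`a b` with `c = t`, `x = a`: `a` is an end of `a t a` (`t ≠ b` as the ends of an edge are different) and of
`b t a` (`t ≠ a`). If `c ≠ b` and `d ≠ a` the check is violated at `x`. The `4`-cycle `a b x c` (`a ≠ x`,
`b ≠ c`): `x` is an end of `a c x`, in the row of `b`, `x ≠ a`. -/
theorem ck_s6 (L : ℕ → ℕ) (q p : ℕ) (T : List (List ℕ)) (h : Ok L 2 (q + 1) p)
    (hc : cov6 L q T = true) (hk : ck6 T p = true) : NoS6 L 2 (q + 1) := by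
  have sy : ∀ u v, Ed L 2 (q + 1) u v → Ed L 2 (q + 1) v u :=
    fun u v he => (ed_comm L 2 (q + 1) u v).1 he
  have me : ∀ {u v}, Ed L 2 (q + 1) u v → v ∈ rw6 T u := fun he => ck_s6_mem L q T hc he
  have K2 : ∀ a b c d x, Ed L 2 (q + 1) a b → Ed L 2 (q + 1) a c → c ≠ b → Ed L 2 (q + 1) c x →
      Ed L 2 (q + 1) b d → d ≠ a → Ed L 2 (q + 1) d x → False := by
    intro a b c d x h1 h2 h3 h4 h5 h6 h7
    exact (ck_s6_key T p hk (ck_s6_lt L q p h h1).1 (me h1) (me h2) h3 (me h4)).2 d (me h5) h6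
      (me h7)
  have tri : ∀ a b t, Ed L 2 (q + 1) a b → Ed L 2 (q + 1) b t → Ed L 2 (q + 1) t a → False := by
    intro a b t h1 h2 h3
    exact K2 a b t t a h1 (sy _ _ h3) (ck_s6_lt L q p h h2).2.2.symm h3 h2
      (ck_s6_lt L q p h h3).2.2 h3
  refine ⟨⟨tri, ?_⟩, ?_⟩
  · intro a b c d hac hbd hab hbc hcd hda
    rcases (ck_s6_key T p hk (ck_s6_lt L q p h hab).1 (me hab) (me (sy _ _ hda)) hbd.symm
      (me (sy _ _ hcd))).1 with h1 | h1
    · exact hac h1.symm
    · exact h1 (me hbc)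
  · intro a b c d e hab hbc hcd hde hea
    by_cases h1 : e = b
    · subst h1
      exact tri e c d hbc hcd hde
    · by_cases h2 : c = a
      · subst h2
        exact tri c d e hcd hde hea
      · exact K2 a b e c d hab (sy _ _ hea) h1 (sy _ _ hde) hbc h2 hcd
-- END ck_s6

-- BEGIN gl_girth6
/-- Girth six. PROOF. Adapt `gl_girth` of `Ctr.lean` (with one more length: a cycle of length five gives
five adjacencies that form a closed walk). -/
theorem gl_girth6 (L : ℕ → ℕ) (lo hi p : ℕ) (h : Ok L lo hi p) (hn : NoS6 L lo hi)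
    (c : Fin 6 → ℕ) (hc : Function.Injective c) (h0 : ∀ i, c i < p)
    (h1 : ∀ i : Fin 6, Ed L lo hi (c i) (c (i + 1))) : (Gg L lo hi p).girth = 6 := by
  have hge : ((6 : ℕ) : ℕ∞) ≤ (Gg L lo hi p).egirth := by
    rw [SimpleGraph.le_egirth]
    intro a w hw
    rw [Nat.cast_le]
    by_contra hlt
    push Not at hlt
    have hl3 : 3 ≤ w.length := hw.three_le_length
    have hadj : ∀ i, i < w.length → Ed L lo hi (w.getVert i) (w.getVert (i + 1)) := fun i hi =>
      (w.adj_getVert_succ hi).2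
    have hend : w.getVert w.length = w.getVert 0 := by
      rw [SimpleGraph.Walk.getVert_length, SimpleGraph.Walk.getVert_zero]
    rcases Nat.lt_or_ge w.length 4 with h4 | h4
    · have hl : w.length = 3 := by omega
      have e0 := hadj 0 (by omega)
      have e1 := hadj 1 (by omega)
      have e2 := hadj 2 (by omega)
      rw [hl] at hend
      rw [show (2 + 1 : ℕ) = 3 from rfl, hend] at e2
      exact hn.1.1 _ _ _ e0 e1 e2
    · rcases Nat.lt_or_ge w.length 5 with h5 | h5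
      · have hl : w.length = 4 := by omega
        have e0 := hadj 0 (by omega)
        have e1 := hadj 1 (by omega)
        have e2 := hadj 2 (by omega)
        have e3 := hadj 3 (by omega)
        rw [hl] at hend
        rw [show (3 + 1 : ℕ) = 4 from rfl, hend] at e3
        have hne : ∀ i j : ℕ, i < 4 → j < 4 → i ≠ j →
            ((w.getVert i : Fin p) : ℕ) ≠ ((w.getVert j : Fin p) : ℕ) := by
          intro i j hi hj hij he
          exact hij (hw.getVert_injOn' (by simp only [Set.mem_ofPred_eq]; omega)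
            (by simp only [Set.mem_ofPred_eq]; omega) (Fin.ext he))
        exact hn.1.2 _ _ _ _ (hne 0 2 (by omega) (by omega) (by omega))
          (hne 1 3 (by omega) (by omega) (by omega)) e0 e1 e2 e3
      · have hl : w.length = 5 := by omega
        have e0 := hadj 0 (by omega)
        have e1 := hadj 1 (by omega)
        have e2 := hadj 2 (by omega)
        have e3 := hadj 3 (by omega)
        have e4 := hadj 4 (by omega)
        rw [hl] at hend
        rw [show (4 + 1 : ℕ) = 5 from rfl, hend] at e4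
        exact hn.2 _ _ _ _ _ e0 e1 e2 e3 e4
  have hle : (Gg L lo hi p).egirth ≤ ((6 : ℕ) : ℕ∞) := by
    set v : Fin 6 → Fin p := fun i => ⟨c i, h0 i⟩ with hv
    have hvi : Function.Injective v := fun i j hij => hc (congrArg Fin.val hij)
    have hadj : ∀ i : Fin 6, (Gg L lo hi p).Adj (v i) (v (i + 1)) := by
      intro i
      refine ⟨fun he => ?_, h1 i⟩
      have := hvi he
      revert this
      fin_cases i <;> decide
    have a0 : (Gg L lo hi p).Adj (v 0) (v 1) := hadj 0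
    have a1 : (Gg L lo hi p).Adj (v 1) (v 2) := hadj 1
    have a2 : (Gg L lo hi p).Adj (v 2) (v 3) := hadj 2
    have a3 : (Gg L lo hi p).Adj (v 3) (v 4) := hadj 3
    have a4 : (Gg L lo hi p).Adj (v 4) (v 5) := hadj 4
    have a5 : (Gg L lo hi p).Adj (v 5) (v 0) := hadj 5
    have hne : ∀ i j : Fin 6, i ≠ j → v i ≠ v j := fun i j hij he => hij (hvi he)
    have n01 := hne 0 1 (by decide)
    have n02 := hne 0 2 (by decide)
    have n03 := hne 0 3 (by decide)
    have n04 := hne 0 4 (by decide)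
    have n05 := hne 0 5 (by decide)
    have n12 := hne 1 2 (by decide)
    have n13 := hne 1 3 (by decide)
    have n14 := hne 1 4 (by decide)
    have n15 := hne 1 5 (by decide)
    have n23 := hne 2 3 (by decide)
    have n24 := hne 2 4 (by decide)
    have n25 := hne 2 5 (by decide)
    have n34 := hne 3 4 (by decide)
    have n35 := hne 3 5 (by decide)
    have n45 := hne 4 5 (by decide)
    let q : (Gg L lo hi p).Walk (v 1) (v 0) :=
      .cons a1 (.cons a2 (.cons a3 (.cons a4 (.cons a5 .nil))))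
    have hq : q.IsPath := by
      rw [SimpleGraph.Walk.isPath_def]
      simp only [q, SimpleGraph.Walk.support_cons, SimpleGraph.Walk.support_nil, List.nodup_cons,
        List.mem_cons, List.not_mem_nil, or_false, not_or, List.nodup_nil, and_true]
      exact ⟨⟨n12, n13, n14, n15, n01.symm⟩, ⟨n23, n24, n25, n02.symm⟩, ⟨n34, n35, n03.symm⟩,
        ⟨n45, n04.symm⟩, n05.symm, not_false⟩
    have hcy : (SimpleGraph.Walk.cons a0 q).IsCycle := by
      rw [SimpleGraph.Walk.cons_isCycle_iff]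
      refine ⟨hq, ?_⟩
      simp only [q, SimpleGraph.Walk.edges_cons, SimpleGraph.Walk.edges_nil, List.mem_cons,
        List.not_mem_nil, or_false, not_or, Sym2.eq_iff]
      exact ⟨⟨fun g => n01 g.1, fun g => n02 g.1⟩, ⟨fun g => n02 g.1, fun g => n03 g.1⟩,
        ⟨fun g => n03 g.1, fun g => n04 g.1⟩, ⟨fun g => n04 g.1, fun g => n05 g.1⟩,
        fun g => n05 g.1, fun g => n15 g.2⟩
    have hlen : (SimpleGraph.Walk.cons a0 q).length = 6 := rfl
    have := (SimpleGraph.le_egirth (G := Gg L lo hi p) (n := (Gg L lo hi p).egirth)).1 le_rfl _ _ hcy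
    rw [hlen] at this
    exact this
  have he : (Gg L lo hi p).egirth = ((6 : ℕ) : ℕ∞) := le_antisymm hle hge
  rw [SimpleGraph.girth, he, ENat.toNat_natCast]
-- END gl_girth6

-- BEGIN ok_LL6
private theorem ok_LL6_lo : ∀ s < 36, 2 ≤ s →
    dlo6 s ≤ 14 ∧ dlo6 s % 2 = s % 2 ∧ 0 < dlo6 s ∧ dlo6 s ≤ s := by
  decide

private theorem ok_LL6_hi : ∀ s < 34, 2 ≤ s →
    dhi6 s ≤ 14 ∧ dhi6 s % 2 = s % 2 ∧ 0 < dhi6 s ∧ dhi6 s ≤ s := by
  decide

private theorem ok_LL6_mid (s : ℕ) : dmid6 s ≤ 11 ∧ dmid6 s % 2 = s % 2 ∧ 0 < dmid6 s := by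
  unfold dmid6
  have h1 : s % 2 = (s % 4) % 2 := by omega
  have h2 : s % 4 < 4 := Nat.mod_lt _ (by norm_num)
  rw [h1]
  generalize s % 4 = r at h2
  interval_cases r <;> decide

private theorem ok_LL6_dd (p s : ℕ) (hp : 50 ≤ p) (h1 : 2 ≤ s) (h2 : s ≤ 2 * p - 4) :
    dd6 p s % 2 = s % 2 ∧ 0 < dd6 p s ∧ dd6 p s ≤ s ∧ dd6 p s ≤ 2 * p - 2 - s := by
  unfold dd6
  have hm := ok_LL6_mid s
  split_ifs with a b c d
  · have h3 := ok_LL6_lo s a h1
    omega
  · have h3 := ok_LL6_lo (2 * p - 2 - s) c (by omega)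
    omega
  · omega
  · have h3 := ok_LL6_hi (2 * p - 2 - s) d (by omega)
    omega
  · omega

/-- PROOF. As `ok_LL` in `Ctr.lean`: `dlo6 s`, `dhi6 s` (tables, by `decide` for `2 ≤ s < 36`, `34`) are `≤ 14`, `≤ s`,
positive and `≡ s mod 2`; `dmid6 s ≤ 11`. -/
theorem ok_LL6 (p : ℕ) (hp : 50 ≤ p) : Ok (LL6 p) 2 (2 * p - 4) p := by
  intro s h1 h2
  have h3 := ok_LL6_dd p s hp h1 h2
  unfold LL6
  omega
-- END ok_LL6

-- BEGIN dd6_le
private theorem dd6_le_lo : ∀ s < 36, 2 ≤ s → dlo6 s ≤ 14 ∧ dlo6 s % 2 = s % 2 := by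
  decide

private theorem dd6_le_hi : ∀ s < 34, 2 ≤ s → dhi6 s ≤ 14 ∧ dhi6 s % 2 = s % 2 := by
  decide

private theorem dd6_le_mid (s : ℕ) : dmid6 s ≤ 14 ∧ dmid6 s % 2 = s % 2 := by
  unfold dmid6
  have h1 : s % 2 = (s % 4) % 2 := by omega
  have h2 : s % 4 < 4 := Nat.mod_lt _ (by norm_num)
  rw [h1]
  generalize s % 4 = r at h2
  interval_cases r <;> decide

private theorem dd6_le_dd (p s : ℕ) (h1 : 2 ≤ s) (h2 : s ≤ 2 * p - 4) (hp : 50 ≤ p) :
    dd6 p s ≤ 14 ∧ dd6 p s % 2 = s % 2 := by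
  unfold dd6
  have hm := dd6_le_mid s
  split_ifs with a b c d
  · exact dd6_le_lo s a h1
  · have h3 := dd6_le_lo (2 * p - 2 - s) c (by omega)
    omega
  · exact hm
  · have h3 := dd6_le_hi (2 * p - 2 - s) d (by omega)
    omega
  · exact hm

/-- The ends of an edge differ by at most `14`. PROOF. As `dd_le` in `Ctr.lean`. -/
theorem dd6_le (p u v : ℕ) (hp : 50 ≤ p) (h : Ed (LL6 p) 2 (2 * p - 4) u v) :
    u ≤ v + 14 ∧ v ≤ u + 14 := by
  obtain ⟨h1, h2, h3⟩ := h
  have h4 := ok_LL6 p hp (u + v) h1 h2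
  have h5 := dd6_le_dd p (u + v) h1 h2 hp
  unfold LL6 at h3 h4
  omega
-- END dd6_le

-- BEGIN stay6
/-- Away from the high end the graph does not change. PROOF. As `stay` in `Ctr.lean`. -/
theorem stay6 (p u v : ℕ) (hs : u + v + 38 ≤ 2 * p) :
    Ed (LL6 (p + 2)) 2 (2 * (p + 2) - 4) u v ↔ Ed (LL6 p) 2 (2 * p - 4) u v := by
  have e1 : dd6 (p + 2) (u + v) = dd6 p (u + v) := by
    unfold dd6
    have h1 : (p + 2) % 2 = p % 2 := by omega
    rw [h1, if_neg (by omega : ¬ 2 * (p + 2) - 2 - (u + v) < 36),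
      if_neg (by omega : ¬ 2 * (p + 2) - 2 - (u + v) < 34),
      if_neg (by omega : ¬ 2 * p - 2 - (u + v) < 36),
      if_neg (by omega : ¬ 2 * p - 2 - (u + v) < 34)]
  have e2 : LL6 (p + 2) (u + v) = LL6 p (u + v) := by
    unfold LL6
    rw [e1]
  unfold Ed
  rw [e2]
  omega
-- END stay6

-- BEGIN shift6
private theorem shift6_get (l : List ℕ) (h : ∀ x ∈ l, x ≤ 14) (i : ℕ) : l.getD i 0 ≤ 14 := by
  rw [List.getD_eq_getElem?_getD]
  rcases hx : l[i]? with _ | x
  · simp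
  · exact h x (List.mem_of_getElem? hx)

private theorem shift6_le (p s : ℕ) : dd6 p s ≤ 14 := by
  have h1 : ∀ s, dlo6 s ≤ 14 := fun s => shift6_get _ (by decide) _
  have h2 : ∀ s, dhi6 s ≤ 14 := fun s => shift6_get _ (by decide) _
  have h3 : ∀ s, dmid6 s ≤ 14 := fun s => shift6_get _ (by decide) _
  unfold dd6
  split_ifs
  all_goals first | exact h1 _ | exact h2 _ | exact h3 _

private theorem shift6_dd (p s : ℕ) (hs : 36 ≤ s) (h : s + 4 ≤ 2 * p) :
    dd6 (p + 2) (s + 4) = dd6 p s := by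
  have e1 : 2 * (p + 2) - 2 - (s + 4) = 2 * p - 2 - s := by omega
  have e2 : (p + 2) % 2 = p % 2 := by omega
  have e3 : dmid6 (s + 4) = dmid6 s := by
    unfold dmid6
    rw [Nat.add_mod_right]
  unfold dd6
  rw [if_neg (by omega : ¬ s + 4 < 36), if_neg (by omega : ¬ s < 36), e1, e2, e3]

/-- Away from the low end the graph is shifted by `2`. PROOF. As `shift` in `Ctr.lean`. -/
theorem shift6 (p u v : ℕ) (hs : 36 ≤ u + v) :
    Ed (LL6 (p + 2)) 2 (2 * (p + 2) - 4) (u + 2) (v + 2) ↔ Ed (LL6 p) 2 (2 * p - 4) u v := by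
  have e : u + 2 + (v + 2) = u + v + 4 := by omega
  unfold Ed
  rw [e]
  by_cases h : u + v + 4 ≤ 2 * p
  · have h1 := shift6_dd p (u + v) hs h
    have h2 := shift6_le p (u + v)
    have h3 : LL6 (p + 2) (u + v + 4) = LL6 p (u + v) + 2 := by
      unfold LL6
      rw [h1]
      omega
    rw [h3]
    omega
  · omega
-- END shift6

-- BEGIN step6
/-- PROOF. As `step` in `Ctr.lean`, for closed walks of length three and five and for `4`-cycles. Adjacent
vertices differ by at most `14` (`dd6_le`, `50 ≤ p + 2`), any two of the vertices of the walk by at most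
`28`. If some edge sum is `≤ 39` its smaller end is `≤ 19`, all vertices are `≤ 47`, all edge sums are
`≤ 94 ≤ 2 p - 38`: `stay6`. Otherwise all edge sums are `≥ 40`, all vertices are `≥ 2` (a vertex `≤ 1` has edge
sums `≤ 16`): write them as `x + 2` and use `shift6`. -/
theorem step6 (p : ℕ) (hp : 66 ≤ p) (h : NoS6 (LL6 p) 2 (2 * p - 4)) :
    NoS6 (LL6 (p + 2)) 2 (2 * (p + 2) - 4) := by
  have dle : ∀ u v, Ed (LL6 (p + 2)) 2 (2 * (p + 2) - 4) u v → u ≤ v + 14 ∧ v ≤ u + 14 :=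
    fun u v => dd6_le (p + 2) u v (by omega)
  have hst : ∀ u v, u + v + 38 ≤ 2 * p → Ed (LL6 (p + 2)) 2 (2 * (p + 2) - 4) u v →
      Ed (LL6 p) 2 (2 * p - 4) u v := fun u v hs => (stay6 p u v (by omega)).mp
  have hsh : ∀ u v, 36 ≤ u + v → Ed (LL6 (p + 2)) 2 (2 * (p + 2) - 4) (u + 2) (v + 2) →
      Ed (LL6 p) 2 (2 * p - 4) u v := fun u v hs => (shift6 p u v (by omega)).mp
  refine ⟨⟨?_, ?_⟩, ?_⟩
  · intro a b c h1 h2 h3
    have d1 := dle _ _ h1
    have d2 := dle _ _ h2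
    have d3 := dle _ _ h3
    by_cases hs : 40 ≤ a + b ∧ 40 ≤ b + c ∧ 40 ≤ c + a
    · obtain ⟨a', rfl⟩ : ∃ a', a = a' + 2 := ⟨a - 2, by omega⟩
      obtain ⟨b', rfl⟩ : ∃ b', b = b' + 2 := ⟨b - 2, by omega⟩
      obtain ⟨c', rfl⟩ : ∃ c', c = c' + 2 := ⟨c - 2, by omega⟩
      exact h.1.1 a' b' c' (hsh a' b' (by omega) h1) (hsh b' c' (by omega) h2)
        (hsh c' a' (by omega) h3)
    · exact h.1.1 a b c (hst a b (by omega) h1) (hst b c (by omega) h2) (hst c a (by omega) h3)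
  · intro a b c d hac hbd h1 h2 h3 h4
    have d1 := dle _ _ h1
    have d2 := dle _ _ h2
    have d3 := dle _ _ h3
    have d4 := dle _ _ h4
    by_cases hs : 40 ≤ a + b ∧ 40 ≤ b + c ∧ 40 ≤ c + d ∧ 40 ≤ d + a
    · obtain ⟨a', rfl⟩ : ∃ a', a = a' + 2 := ⟨a - 2, by omega⟩
      obtain ⟨b', rfl⟩ : ∃ b', b = b' + 2 := ⟨b - 2, by omega⟩
      obtain ⟨c', rfl⟩ : ∃ c', c = c' + 2 := ⟨c - 2, by omega⟩
      obtain ⟨d', rfl⟩ : ∃ d', d = d' + 2 := ⟨d - 2, by omega⟩
      exact h.1.2 a' b' c' d' (by omega) (by omega) (hsh a' b' (by omega) h1)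
        (hsh b' c' (by omega) h2) (hsh c' d' (by omega) h3) (hsh d' a' (by omega) h4)
    · exact h.1.2 a b c d hac hbd (hst a b (by omega) h1) (hst b c (by omega) h2)
        (hst c d (by omega) h3) (hst d a (by omega) h4)
  · intro a b c d e h1 h2 h3 h4 h5
    have d1 := dle _ _ h1
    have d2 := dle _ _ h2
    have d3 := dle _ _ h3
    have d4 := dle _ _ h4
    have d5 := dle _ _ h5
    by_cases hs : 40 ≤ a + b ∧ 40 ≤ b + c ∧ 40 ≤ c + d ∧ 40 ≤ d + e ∧ 40 ≤ e + a
    · obtain ⟨a', rfl⟩ : ∃ a', a = a' + 2 := ⟨a - 2, by omega⟩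
      obtain ⟨b', rfl⟩ : ∃ b', b = b' + 2 := ⟨b - 2, by omega⟩
      obtain ⟨c', rfl⟩ : ∃ c', c = c' + 2 := ⟨c - 2, by omega⟩
      obtain ⟨d', rfl⟩ : ∃ d', d = d' + 2 := ⟨d - 2, by omega⟩
      obtain ⟨e', rfl⟩ : ∃ e', e = e' + 2 := ⟨e - 2, by omega⟩
      exact h.2 a' b' c' d' e' (hsh a' b' (by omega) h1) (hsh b' c' (by omega) h2)
        (hsh c' d' (by omega) h3) (hsh d' e' (by omega) h4) (hsh e' a' (by omega) h5)
    · exact h.2 a b c d e (hst a b (by omega) h1) (hst b c (by omega) h2)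
        (hst c d (by omega) h3) (hst d e (by omega) h4) (hst e a (by omega) h5)
-- END step6

-- BEGIN cyc6
/-- A cycle of length six in the low end. PROOF. All sums are less than `36`; as `cyc` in `Ctr.lean`. -/
theorem cyc6 (p : ℕ) (hp : 50 ≤ p) : ∀ i : Fin 6,
    Ed (LL6 p) 2 (2 * p - 4) ((![0, 2, 6, 5, 1, 3] : Fin 6 → ℕ) i) ((![0, 2, 6, 5, 1, 3] : Fin 6 → ℕ) (i + 1)) := by
  intro i
  fin_cases i <;> (refine ⟨?_, ?_, ?_⟩ <;> simp [LL6, dd6, dlo6] <;> omega)
-- END cyc6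

/-- The conditions for a small graph as one check: `l` is the list of the smaller ends for the sums
`2, 3, ...`, `T` the table of neighbours, `c` a cycle of length six. -/
def sm6 (l : List ℕ) (T : List (List ℕ)) (c : List ℕ) (p : ℕ) : Bool :=
  ((List.range (2 * p - 5)).all fun i =>
    decide (2 * l.getD i 0 < i + 2) && decide (i + 2 - l.getD i 0 < p)) &&
  cov6 (fun s => l.getD (s - 2) 0) (2 * p - 5) T && ck6 T p &&
  ((List.range 6).all fun i => decide (c.getD i 0 < p) &&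
    (rw6 T (c.getD i 0)).contains (c.getD ((i + 1) % 6) 0) &&
    decide (Ed (fun s => l.getD (s - 2) 0) 2 (2 * p - 4) (c.getD i 0) (c.getD ((i + 1) % 6) 0))) &&
  decide ((List.range 6).map (fun i => c.getD i 0)).Nodup

-- BEGIN small6
/-- PROOF. Unfold `sm6` (`Bool.and_eq_true`, `List.all_eq_true`, `List.mem_range`): `Ok` (with `i = s - 2`,
`2 * p - 4 = (2 * p - 5) + 1`), `ck_s6`, `gl_girth6` with `fun i : Fin 6 => c.getD i 0` (injective by the last
clause; for the edges `fin_cases i`, or `(i + 1 : Fin 6)` has the value `(i + 1) % 6`), `gl_card`. -/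
theorem small6 (l : List ℕ) (T : List (List ℕ)) (c : List ℕ) (p : ℕ) (hp : 3 ≤ p)
    (h : sm6 l T c p = true) :
    Ok (fun s => l.getD (s - 2) 0) 2 (2 * p - 4) p ∧
      (Gg (fun s => l.getD (s - 2) 0) 2 (2 * p - 4) p).girth = 6 ∧
      Nat.card (Gg (fun s => l.getD (s - 2) 0) 2 (2 * p - 4) p).edgeSet = 2 * p - 5 := by
  have e : 2 * p - 4 = (2 * p - 5) + 1 := by omega
  simp only [sm6, Bool.and_eq_true, List.all_eq_true, List.mem_range, decide_eq_true_eq] at h
  obtain ⟨⟨⟨⟨h1, h2⟩, h3⟩, h4⟩, h5⟩ := h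
  have hok : Ok (fun s => l.getD (s - 2) 0) 2 (2 * p - 4) p := by
    intro s hs1 hs2
    have h6 := h1 (s - 2) (by omega)
    have e2 : s - 2 + 2 = s := by omega
    rw [e2] at h6
    exact h6
  have hok2 : Ok (fun s => l.getD (s - 2) 0) 2 ((2 * p - 5) + 1) p := e ▸ hok
  have hn : NoS6 (fun s => l.getD (s - 2) 0) 2 (2 * p - 4) := by
    rw [e]
    exact ck_s6 _ _ _ T hok2 h2 h3
  refine ⟨hok, ?_, ?_⟩
  · refine gl_girth6 _ 2 (2 * p - 4) p hok hn (fun i : Fin 6 => c.getD i 0) ?_ ?_ ?_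
    · intro i j hij
      have h6 := List.inj_on_of_nodup_map h5 (List.mem_range.2 i.2) (List.mem_range.2 j.2) hij
      exact Fin.ext h6
    · intro i
      exact (h4 i i.2).1.1
    · intro i
      have h6 := (h4 i i.2).2
      have e3 : ((i + 1 : Fin 6) : ℕ) = ((i : ℕ) + 1) % 6 := by
        fin_cases i <;> rfl
      show Ed _ 2 (2 * p - 4) (c.getD (i : ℕ) 0) (c.getD ((i + 1 : Fin 6) : ℕ) 0)
      rw [e3]
      exact h6
  · rw [e]
    exact gl_card _ (2 * p - 5) p hok2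
-- END small6

/-- There is a graph of order `p`, girth six and size `2 p - 5` in the conventions of this file. -/
def Has6 (p : ℕ) : Prop :=
  ∃ L : ℕ → ℕ, Ok L 2 (2 * p - 4) p ∧ (Gg L 2 (2 * p - 4) p).girth = 6 ∧
    Nat.card (Gg L 2 (2 * p - 4) p).edgeSet = 2 * p - 5

end Pool.Agent.GFv
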