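import Pool.Agent.GFv.Dat6a
import Pool.Agent.GFv.Dat6b
import Pool.Agent.GFv.Dat6c
import Pool.Agent.GFv.Dat6d
import Pool.Agent.GFv.Dat6e

set_option autoImplicit false

/-!
# Girth six: all orders from 26 on (MP_1b49f3_co, second theorem)
-/

namespace Pool.Agent.GFv

/-- The checked orders. -/
theorem base6 (p : ℕ) (h1 : 50 ≤ p) (h2 : p ≤ 67) : NoS6 (LL6 p) 2 (2 * p - 4) := by
  interval_cases p
  · exact b6_50
  · exact b6_51
  · exact b6_52
  · exact b6_53
  · exact b6_54
  · exact b6_55
  · exact b6_56
  · exact b6_57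
  · exact b6_58
  · exact b6_59
  · exact b6_60
  · exact b6_61
  · exact b6_62
  · exact b6_63
  · exact b6_64
  · exact b6_65
  · exact b6_66
  · exact b6_67

/-- No cycle of length three, four or five in the formula graphs. -/
theorem all6 (p : ℕ) (hp : 50 ≤ p) : NoS6 (LL6 p) 2 (2 * p - 4) := by
  induction p using Nat.strong_induction_on with
  | _ p ih =>
    rcases Nat.lt_or_ge p 68 with h | h
    · exact base6 p hp (by omega)
    · have := step6 (p - 2) (by omega) (ih (p - 2) (by omega) (by omega))
      rwa [show p - 2 + 2 = p by omega] at this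

/-- The formula graphs. -/
theorem big6 (p : ℕ) (hp : 50 ≤ p) : Has6 p := by
  have h := ok_LL6 p hp
  refine ⟨LL6 p, h, ?_, ?_⟩
  · refine gl_girth6 (LL6 p) 2 (2 * p - 4) p h (all6 p hp) ![0, 2, 6, 5, 1, 3] (by decide) ?_
      (cyc6 p hp)
    intro i
    have h7 : ∀ i : Fin 6, (![0, 2, 6, 5, 1, 3] : Fin 6 → ℕ) i < 7 := by decide
    have := h7 i
    omega
  · have e : 2 * p - 4 = (2 * p - 5) + 1 := by omega
    rw [e] at h ⊢
    exact gl_card (LL6 p) (2 * p - 5) p h

/-- All orders from `26` on. -/
theorem has6 (p : ℕ) (hp : 26 ≤ p) : Has6 p := by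
  rcases Nat.lt_or_ge p 50 with h | h
  · interval_cases p
    · exact h6_26
    · exact h6_27
    · exact h6_28
    · exact h6_29
    · exact h6_30
    · exact h6_31
    · exact h6_32
    · exact h6_33
    · exact h6_34
    · exact h6_35
    · exact h6_36
    · exact h6_37
    · exact h6_38
    · exact h6_39
    · exact h6_40
    · exact h6_41
    · exact h6_42
    · exact h6_43
    · exact h6_44
    · exact h6_45
    · exact h6_46
    · exact h6_47
    · exact h6_48
    · exact h6_49
  · exact big6 p h

end Pool.Agent.GFv
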