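import Pool.Agent.GFv.Ctr
import Pool.Agent.MP_1b49f3_co.Upper

set_option autoImplicit false

/-!
# Girth five: the labelling and the upper bounds (MP_1b49f3_co, second theorem)
-/

namespace Pool.Agent.GFv

open Pool.Agent.MP_1b49f3_co

-- BEGIN gl_sem
/-- Sum of the two ends of an edge. -/
private def gl_sem_e {p : ℕ} : Sym2 (Fin p) → ℕ :=
  Sym2.lift ⟨fun u v => (u : ℕ) + (v : ℕ), fun _ _ => add_comm _ _⟩

private theorem gl_sem_mk {p : ℕ} (u v : Fin p) :
    gl_sem_e s(u, v) = (u : ℕ) + (v : ℕ) := rfl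

private theorem gl_sem_mem (L : ℕ → ℕ) (q p : ℕ) (e : Sym2 (Fin p))
    (he : e ∈ (Gg L 2 (q + 1) p).edgeSet) : 2 ≤ gl_sem_e e ∧ gl_sem_e e ≤ q + 1 := by
  induction e with
  | _ _ _ => exact ⟨he.2.1, he.2.2.1⟩

private theorem gl_sem_inj (L : ℕ → ℕ) (q p : ℕ) (e e' : Sym2 (Fin p))
    (he : e ∈ (Gg L 2 (q + 1) p).edgeSet) (he' : e' ∈ (Gg L 2 (q + 1) p).edgeSet)
    (h : gl_sem_e e = gl_sem_e e') : e = e' := by
  induction e with
  | _ u v =>
    induction e' with
    | _ a b =>
      simp only [gl_sem_mk] at h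
      rw [SimpleGraph.mem_edgeSet] at he he'
      have h1 : L ((u : ℕ) + (v : ℕ)) = (u : ℕ) ∨ L ((u : ℕ) + (v : ℕ)) = (v : ℕ) := he.2.2.2
      have h2 : L ((a : ℕ) + (b : ℕ)) = (a : ℕ) ∨ L ((a : ℕ) + (b : ℕ)) = (b : ℕ) := he'.2.2.2
      rw [h] at h1
      rw [Sym2.eq_iff]
      simp only [Fin.ext_iff]
      rcases h1 with h1 | h1 <;> rcases h2 with h2 | h2 <;> rw [h1] at h2 <;> omega

private theorem gl_sem_surj (L : ℕ → ℕ) (q p : ℕ) (h : Ok L 2 (q + 1) p) (s : ℕ) (h1 : 2 ≤ s)
    (h2 : s ≤ q + 1) : ∃ e ∈ (Gg L 2 (q + 1) p).edgeSet, gl_sem_e e = s := by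
  obtain ⟨a1, a2⟩ := h s h1 h2
  refine ⟨s(⟨L s, by omega⟩, ⟨s - L s, a2⟩), ?_, ?_⟩
  · rw [SimpleGraph.mem_edgeSet]
    refine ⟨?_, ?_⟩
    · simp only [ne_eq, Fin.mk.injEq]
      omega
    · have e1 : L s + (s - L s) = s := by omega
      refine ⟨?_, ?_, Or.inl ?_⟩
      · simp only [e1]
        exact h1
      · simp only [e1]
        exact h2
      · simp only [e1]
  · simp only [gl_sem_mk]
    omega

/-- The graph is super edge-magic. PROOF. `f (inl u) = u + 1`, `f (inr e) = p + q + 2 - (sum of the ends of e)`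
(the sums run over `2, ..., q + 1`, so this runs over `p + 1, ..., p + q`), `k = p + q + 4`. Adapt
`superEdgeMagic` of `MP_1b49f3_co/Close.lean` (with `L` for `Ln`), the bijection of the sums is that
of `gl_card`. -/
theorem gl_sem (L : ℕ → ℕ) (q p : ℕ) (h : Ok L 2 (q + 1) p) : SuperEdgeMagic (Gg L 2 (q + 1) p) := by
  have hcard := gl_card L q p h
  refine ⟨Sum.elim (fun v => (v : ℕ) + 1) (fun e => p + q + 2 - gl_sem_e e.1),
    ⟨?_, ?_, ?_⟩, ⟨p + q + 4, ?_⟩, ?_⟩
  · rintro x -
    rw [hcard, Nat.card_eq_fintype_card, Fintype.card_fin, Set.mem_Icc]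
    rcases x with v | ⟨e, he⟩
    · have := v.2
      simp only [Sum.elim_inl]
      omega
    · have := gl_sem_mem L q p e he
      simp only [Sum.elim_inr]
      omega
  · rintro x - y - hxy
    rcases x with v | ⟨e, he⟩ <;> rcases y with w | ⟨e', he'⟩
    · simp only [Sum.elim_inl, Nat.add_right_cancel_iff] at hxy
      rw [Fin.ext hxy]
    · exfalso
      have := gl_sem_mem L q p e' he'
      have := v.2
      simp only [Sum.elim_inl, Sum.elim_inr] at hxy
      omega
    · exfalso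
      have := gl_sem_mem L q p e he
      have := w.2
      simp only [Sum.elim_inl, Sum.elim_inr] at hxy
      omega
    · have h1 := gl_sem_mem L q p e he
      have h2 := gl_sem_mem L q p e' he'
      simp only [Sum.elim_inr] at hxy
      congr 1
      exact Subtype.ext (gl_sem_inj L q p e e' he he' (by omega))
  · rintro y hy
    rw [hcard, Nat.card_eq_fintype_card, Fintype.card_fin, Set.mem_Icc] at hy
    by_cases hyp : y ≤ p
    · refine ⟨Sum.inl ⟨y - 1, by omega⟩, Set.mem_univ _, ?_⟩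
      simp only [Sum.elim_inl]
      omega
    · obtain ⟨e, he, h1⟩ := gl_sem_surj L q p h (p + q + 2 - y) (by omega) (by omega)
      refine ⟨Sum.inr ⟨e, he⟩, Set.mem_univ _, ?_⟩
      simp only [Sum.elim_inr]
      omega
  · intro u v huv
    have h1 := gl_sem_mem L q p _ ((SimpleGraph.mem_edgeSet _).mpr huv)
    simp only [Sum.elim_inl, Sum.elim_inr, gl_sem_mk] at h1 ⊢
    omega
  · ext y
    rw [Nat.card_eq_fintype_card, Fintype.card_fin, Set.mem_Icc]
    constructor
    · rintro ⟨_, ⟨v, rfl⟩, rfl⟩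
      have := v.2
      simp only [Sum.elim_inl]
      omega
    · rintro ⟨h1, h2⟩
      refine ⟨Sum.inl ⟨y - 1, by omega⟩, ⟨_, rfl⟩, ?_⟩
      simp only [Sum.elim_inl]
      omega
-- END gl_sem

/-- No cycle of length three or four. -/
def NoC {V : Type} (G : SimpleGraph V) : Prop :=
  (∀ a b c : V, G.Adj a b → G.Adj b c → G.Adj c a → False) ∧
  (∀ a b c d : V, a ≠ c → b ≠ d → G.Adj a b → G.Adj b c → G.Adj c d → G.Adj d a → False)

-- BEGIN noc
/-- PROOF. The triangle: `no_triangle_of_girth`. The `4`-cycle: build the closed walk `a b c d a` and show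
that it is a cycle of length four (as in `no_triangle_of_girth` of `MP_1b49f3_co/Upper.lean`);
`SimpleGraph.girth_le_length`. -/
theorem noc {V : Type} (G : SimpleGraph V) (hg : 5 ≤ G.girth) : NoC G := by
  refine ⟨fun a b c hab hbc hca => ?_, fun a b c d hac hbd hab hbc hcd hda => ?_⟩
  · exact no_triangle_of_girth G (by omega) a b c hab hca.symm hbc
  · have hc : (SimpleGraph.Walk.cons hab (SimpleGraph.Walk.cons hbc
        (SimpleGraph.Walk.cons hcd (SimpleGraph.Walk.cons hda SimpleGraph.Walk.nil)))).IsCycle := by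
      have h1 := hab.ne
      have h2 := hbc.ne
      have h3 := hcd.ne
      have h4 := hda.ne
      rw [SimpleGraph.Walk.isCycle_def]
      refine ⟨?_, ?_, ?_⟩
      · simp [SimpleGraph.Walk.isTrail_def, h1, h2, h3, h4, h1.symm, h2.symm, h3.symm, h4.symm,
          hac, hbd, hac.symm, hbd.symm]
      · simp
      · simp [h2, h3, hbd, h1.symm, hac.symm, h4, h4.symm]
    have := SimpleGraph.girth_le_length hc
    simp at this
    omega
-- END noc

-- BEGIN nbr
/-- PROOF. The sets `N(u) \ {v}`, `u ∈ N(v)`, are pairwise disjoint (no `4`-cycle), disjoint from `N(v)` (no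
triangle) and do not contain `v`. So `1 + d(v) + ∑ (d(u) - 1) ≤ n` (`Finset.card_biUnion`,
`Finset.card_le_univ`), and the number of `u` is `d(v)`. -/
theorem nbr {V : Type} [Fintype V] [DecidableEq V] (G : SimpleGraph V) [DecidableRel G.Adj]
    (hG : NoC G) (v : V) : ∑ u ∈ G.neighborFinset v, G.degree u + 1 ≤ Fintype.card V := by
  obtain ⟨h3, h4⟩ := hG
  have hd : ∀ u ∈ G.neighborFinset v,
      (insert u ((G.neighborFinset u).erase v)).card = G.degree u := by
    intro u hu
    have huv : G.Adj v u := (G.mem_neighborFinset v u).1 hu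
    have hvu : v ∈ G.neighborFinset u := (G.mem_neighborFinset u v).2 huv.symm
    have hn : u ∉ (G.neighborFinset u).erase v := by
      intro h
      exact G.irrefl ((G.mem_neighborFinset u u).1 (Finset.mem_of_mem_erase h))
    rw [Finset.card_insert_of_notMem hn, Finset.card_erase_add_one hvu,
      G.card_neighborFinset_eq_degree]
  have hp : ((G.neighborFinset v : Finset V) : Set V).PairwiseDisjoint
      (fun u => insert u ((G.neighborFinset u).erase v)) := by
    intro u hu u' hu' hne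
    have huv : G.Adj v u := (G.mem_neighborFinset v u).1 (Finset.mem_coe.1 hu)
    have huv' : G.Adj v u' := (G.mem_neighborFinset v u').1 (Finset.mem_coe.1 hu')
    show Disjoint (insert u ((G.neighborFinset u).erase v))
      (insert u' ((G.neighborFinset u').erase v))
    rw [Finset.disjoint_left]
    intro w hw hw'
    rw [Finset.mem_insert, Finset.mem_erase, SimpleGraph.mem_neighborFinset] at hw hw'
    rcases hw with e | ⟨e1, e2⟩
    · rcases hw' with f | ⟨f1, f2⟩
      · exact hne (e.symm.trans f)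
      · rw [e] at f2
        exact h3 v u' u huv' f2 huv.symm
    · rcases hw' with f | ⟨f1, f2⟩
      · rw [f] at e2
        exact h3 v u u' huv e2 huv'.symm
      · exact h4 v u w u' (Ne.symm e1) hne huv e2 f2.symm huv'.symm
  have hv : v ∉ (G.neighborFinset v).biUnion
      (fun u => insert u ((G.neighborFinset u).erase v)) := by
    intro h
    rw [Finset.mem_biUnion] at h
    obtain ⟨u, hu, h⟩ := h
    have huv : G.Adj v u := (G.mem_neighborFinset v u).1 hu
    rw [Finset.mem_insert, Finset.mem_erase] at h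
    rcases h with e | ⟨e, -⟩
    · exact huv.ne e
    · exact e rfl
  calc ∑ u ∈ G.neighborFinset v, G.degree u + 1
      = ((G.neighborFinset v).biUnion
          (fun u => insert u ((G.neighborFinset u).erase v))).card + 1 := by
        rw [Finset.card_biUnion hp]
        congr 1
        exact Finset.sum_congr rfl fun u hu => (hd u hu).symm
    _ = (insert v ((G.neighborFinset v).biUnion
          (fun u => insert u ((G.neighborFinset u).erase v)))).card :=
        (Finset.card_insert_of_notMem hv).symm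
    _ ≤ Fintype.card V := Finset.card_le_univ _
-- END nbr

-- BEGIN sqs
/-- PROOF. Sum `nbr` over `v`; `∑ v, ∑ u ∈ N(v), d(u) = ∑ u, d(u) * d(u)` (exchange the sums;
`Finset.sum_comm'`, `SimpleGraph.mem_neighborFinset`, `Finset.sum_const`). -/
theorem sqs {V : Type} [Fintype V] [DecidableEq V] (G : SimpleGraph V) [DecidableRel G.Adj]
    (hG : NoC G) :
    ∑ v, G.degree v ^ 2 + Fintype.card V ≤ Fintype.card V ^ 2 := by
  have h1 : ∑ v, (∑ u ∈ G.neighborFinset v, G.degree u + 1) ≤ ∑ _v : V, Fintype.card V :=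
    Finset.sum_le_sum fun v _ => nbr G hG v
  have h2 : ∑ v, ∑ u ∈ G.neighborFinset v, G.degree u = ∑ v, G.degree v ^ 2 := by
    have e : ∑ v, ∑ u ∈ G.neighborFinset v, G.degree u =
        ∑ u, ∑ _v ∈ G.neighborFinset u, G.degree u := by
      refine Finset.sum_comm' ?_
      intro x y
      simp only [Finset.mem_univ, true_and, and_true, SimpleGraph.mem_neighborFinset]
      exact G.adj_comm x y
    rw [e]
    refine Finset.sum_congr rfl fun u _ => ?_
    rw [Finset.sum_const, smul_eq_mul, SimpleGraph.card_neighborFinset_eq_degree, sq]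
  rw [Finset.sum_add_distrib, h2] at h1
  simp only [Finset.sum_const, smul_eq_mul, mul_one, Finset.card_univ] at h1
  rw [sq (Fintype.card V)]
  exact h1
-- END sqs

-- BEGIN ex_small
/-- PROOF. `∑ d = 2 q` (`SimpleGraph.sum_degrees_eq_twice_card_edges`), Cauchy-Schwarz
`(∑ d) ^ 2 ≤ n ∑ d ^ 2` (`sq_sum_le_card_mul_sum_sq`), `sqs`: `4 q ^ 2 ≤ n ^ 2 (n - 1)`. For `n = 6, 7, 8, 9`:
`180, 294, 448, 648`, so `q ≤ 6, 8, 10, 12`. -/
theorem ex_small {V : Type} [Fintype V] [DecidableEq V] (G : SimpleGraph V) [DecidableRel G.Adj]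
    (hG : NoC G) (h6 : 6 ≤ Fintype.card V) (h9 : Fintype.card V ≤ 9) :
    G.edgeFinset.card + 6 ≤ 2 * Fintype.card V := by
  have h1 := G.sum_degrees_eq_twice_card_edges
  have h2 : (∑ v, G.degree v) ^ 2 ≤ Fintype.card V * ∑ v, G.degree v ^ 2 := by
    have h := sq_sum_le_card_mul_sum_sq (s := (Finset.univ : Finset V)) (f := fun v => G.degree v)
    rw [Finset.card_univ] at h
    exact h
  have h3 := sqs G hG
  rw [h1] at h2
  generalize ∑ v, G.degree v ^ 2 = S at h2 h3
  generalize G.edgeFinset.card = q at h2 ⊢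
  generalize Fintype.card V = n at h2 h3 h6 h9 ⊢
  by_contra hc
  have h4 : 2 * n - 5 ≤ q := by omega
  interval_cases n
  · have h5 : 7 ≤ q := h4
    have h7 : S ≤ 30 := by omega
    nlinarith
  · have h5 : 9 ≤ q := h4
    have h7 : S ≤ 42 := by omega
    nlinarith
  · have h5 : 11 ≤ q := h4
    have h7 : S ≤ 56 := by omega
    nlinarith
  · have h5 : 13 ≤ q := h4
    have h7 : S ≤ 72 := by omega
    nlinarith
-- END ex_small

-- BEGIN ex_eleven
/-- PROOF. Suppose `17` edges (delete edges, or work with `q ≥ 17` directly: `∑ d ≥ 34`). Write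
`e(u) = 3 - d(u)` (natural subtraction) for the defect and `x(u) = d(u) - 3` for the excess (natural
subtraction). `∑ d ^ 2 ≤ 110` (`sqs`) and `d ^ 2 ≥ 6 d - 9 + e + x` for each vertex
(`(d - 3) ^ 2 ≥ |d - 3|`), so `∑ e + ∑ x ≤ 110 - 6 * 34 + 99 = 5` if `∑ d = 34` (with `∑ d ≥ 34` the same
bound holds), and `∑ x - ∑ e = ∑ d - 33 ≥ 1`. So `∑ e ≤ 2` and some `x(v) ≥ 1`. For `v` with `d(v) ≥ 4`:
`∑_(u ~ v) d(u) ≤ 10` (`nbr`), so `∑_(u ~ v) e(u) ≥ 3 d(v) - 10 ≥ 2`; as `∑ e ≤ 2`: `d(v) = 4`, `∑ e = 2`, and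
at least three vertices have degree four (`∑ x ≥ 3`, all `x ≤ 1`). Double counting the pairs
(`v` of degree four, `u ~ v`) with weight `e(u)`: `6 ≤ ∑_u e(u) d(u) ≤ 2 ∑ e = 4` (`e d ≤ 2 e` for
`d ≤ 2`; `e = 0` for `d ≥ 3`). -/
theorem ex_eleven {V : Type} [Fintype V] [DecidableEq V] (G : SimpleGraph V) [DecidableRel G.Adj]
    (hG : NoC G) (h : Fintype.card V = 11) : G.edgeFinset.card ≤ 16 := by
  by_contra hcon
  have hq : 17 ≤ G.edgeFinset.card := by omega
  have hsum : ∑ v, G.degree v = 2 * G.edgeFinset.card := G.sum_degrees_eq_twice_card_edges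
  have hsq := sqs G hG
  rw [h] at hsq
  have hpt : ∀ v, 6 * G.degree v + ((3 - G.degree v) + (G.degree v - 3)) ≤ G.degree v ^ 2 + 9 := by
    intro v
    generalize G.degree v = d
    rcases Nat.lt_or_ge d 3 with hd | hd
    · interval_cases d <;> simp
    · obtain ⟨k, rfl⟩ := Nat.exists_eq_add_of_le hd
      have h1 : 3 - (3 + k) = 0 := by omega
      have h2 : 3 + k - 3 = k := by omega
      rw [h1, h2]
      nlinarith [Nat.zero_le k, Nat.le_self_pow (two_ne_zero) k]
  have hE : ∑ v, (6 * G.degree v + ((3 - G.degree v) + (G.degree v - 3)))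
      ≤ ∑ v, (G.degree v ^ 2 + 9) := Finset.sum_le_sum fun v _ => hpt v
  rw [Finset.sum_add_distrib, Finset.sum_add_distrib, Finset.sum_add_distrib, ← Finset.mul_sum,
    Finset.sum_const, Finset.card_univ, h, smul_eq_mul] at hE
  have hbal : ∑ v, (G.degree v + (3 - G.degree v)) = ∑ v, (3 + (G.degree v - 3)) :=
    Finset.sum_congr rfl fun v _ => by omega
  rw [Finset.sum_add_distrib, Finset.sum_add_distrib, Finset.sum_const, Finset.card_univ, h,
    smul_eq_mul] at hbal
  set SE := ∑ v, (3 - G.degree v) with hSE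
  set SX := ∑ v, (G.degree v - 3) with hSX
  have hSE2 : SE ≤ 2 := by omega
  have hN : ∀ v, 4 ≤ G.degree v →
      3 * G.degree v ≤ 10 + ∑ u ∈ G.neighborFinset v, (3 - G.degree u) := by
    intro v hv
    have h1 := nbr G hG v
    rw [h] at h1
    have h2 : ∑ u ∈ G.neighborFinset v, 3
        ≤ ∑ u ∈ G.neighborFinset v, (G.degree u + (3 - G.degree u)) :=
      Finset.sum_le_sum fun u _ => by omega
    rw [Finset.sum_const, Finset.sum_add_distrib, G.card_neighborFinset_eq_degree, smul_eq_mul] at h2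
    omega
  have hNle : ∀ v, ∑ u ∈ G.neighborFinset v, (3 - G.degree u) ≤ SE := fun v =>
    Finset.sum_le_sum_of_subset (Finset.subset_univ _)
  have hx1 : ∀ v, G.degree v - 3 ≤ 1 := by
    intro v
    by_contra hv
    have h1 := hN v (by omega)
    have h2 := hNle v
    omega
  obtain ⟨v0, hv0⟩ : ∃ v, 1 ≤ G.degree v - 3 := by
    by_contra hno
    push Not at hno
    have : SX = 0 := Finset.sum_eq_zero fun v _ => by
      have := hno v
      omega
    omega
  have hSE2' : SE = 2 := by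
    have h1 := hN v0 (by omega)
    have h2 := hNle v0
    omega
  have hlow : ∑ v, 2 * (G.degree v - 3)
      ≤ ∑ v, ∑ u ∈ G.neighborFinset v, (G.degree v - 3) * (3 - G.degree u) := by
    refine Finset.sum_le_sum fun v _ => ?_
    rw [← Finset.mul_sum]
    rcases Nat.eq_zero_or_pos (G.degree v - 3) with h0 | h0
    · rw [h0]
      simp
    · have h1 := hN v (by omega)
      have h2 : 2 ≤ ∑ u ∈ G.neighborFinset v, (3 - G.degree u) := by omega
      rw [mul_comm]
      exact Nat.mul_le_mul_left _ h2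
  have hswap : ∑ v, ∑ u ∈ G.neighborFinset v, (G.degree v - 3) * (3 - G.degree u)
      = ∑ u, ∑ v ∈ G.neighborFinset u, (G.degree v - 3) * (3 - G.degree u) := by
    refine Finset.sum_comm' fun v u => ?_
    simp only [Finset.mem_univ, true_and, and_true, SimpleGraph.mem_neighborFinset]
    exact G.adj_comm v u
  have hup : ∑ u, ∑ v ∈ G.neighborFinset u, (G.degree v - 3) * (3 - G.degree u)
      ≤ ∑ u, 2 * (3 - G.degree u) := by
    refine Finset.sum_le_sum fun u _ => ?_
    have h1 : ∑ v ∈ G.neighborFinset u, (G.degree v - 3) * (3 - G.degree u)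
        ≤ ∑ v ∈ G.neighborFinset u, (3 - G.degree u) := by
      refine Finset.sum_le_sum fun v _ => ?_
      have h2 := Nat.mul_le_mul_right (3 - G.degree u) (hx1 v)
      rwa [one_mul] at h2
    refine h1.trans ?_
    rw [Finset.sum_const, G.card_neighborFinset_eq_degree, smul_eq_mul]
    generalize G.degree u = d
    rcases Nat.lt_or_ge d 3 with hd | hd
    · interval_cases d <;> simp
    · have h3 : 3 - d = 0 := by omega
      rw [h3]
      simp
  rw [← Finset.mul_sum] at hlow hup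
  rw [← hSX] at hlow
  rw [← hSE] at hup
  rw [hswap] at hlow
  have := hlow.trans hup
  omega
-- END ex_eleven

-- BEGIN del
/-- Deleting a vertex. PROOF. `H = G.induce {v}ᶜ` (or `G.comap Subtype.val`) on `{u // u ≠ v}`:
`SimpleGraph.card_edgeFinset_induce_compl_singleton` or the sum of the degrees. -/
theorem del {V : Type} [Fintype V] [DecidableEq V] (G : SimpleGraph V) [DecidableRel G.Adj]
    (hG : NoC G) (v : V) :
    ∃ H : SimpleGraph {u : V // u ≠ v}, ∃ _ : DecidableRel H.Adj, NoC H ∧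
      G.edgeFinset.card ≤ H.edgeFinset.card + G.degree v := by
  refine ⟨G.comap Subtype.val, fun a b => inferInstanceAs (Decidable (G.Adj a b)),
    ⟨fun a b c h1 h2 h3 => hG.1 a b c h1 h2 h3, fun a b c d hac hbd h1 h2 h3 h4 =>
      hG.2 a b c d (fun h => hac (Subtype.ext h)) (fun h => hbd (Subtype.ext h)) h1 h2 h3 h4⟩, ?_⟩
  let _ : DecidableRel (G.comap (Subtype.val : {u : V // u ≠ v} → V)).Adj :=
    fun a b => inferInstanceAs (Decidable (G.Adj a b))
  have hsub : G.edgeFinset ⊆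
      (G.comap (Subtype.val : {u : V // u ≠ v} → V)).edgeFinset.image (Sym2.map Subtype.val) ∪
        G.incidenceFinset v := by
    intro e
    induction e with
    | _ a b =>
      intro he
      rw [Finset.mem_union, SimpleGraph.mem_incidenceFinset]
      have he' : G.Adj a b := by
        rw [SimpleGraph.mem_edgeFinset, SimpleGraph.mem_edgeSet] at he
        exact he
      by_cases ha : a = v
      · right
        exact ⟨he', by rw [ha]; exact Sym2.mem_mk_left v b⟩
      by_cases hb : b = v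
      · right
        exact ⟨he', by rw [hb]; exact Sym2.mem_mk_right a v⟩
      · left
        refine Finset.mem_image.2 ⟨s(⟨a, ha⟩, ⟨b, hb⟩), ?_, rfl⟩
        rw [SimpleGraph.mem_edgeFinset, SimpleGraph.mem_edgeSet]
        exact he'
  calc G.edgeFinset.card
      ≤ ((G.comap (Subtype.val : {u : V // u ≠ v} → V)).edgeFinset.image (Sym2.map Subtype.val) ∪
        G.incidenceFinset v).card := Finset.card_le_card hsub
    _ ≤ ((G.comap (Subtype.val : {u : V // u ≠ v} → V)).edgeFinset.image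
          (Sym2.map Subtype.val)).card + (G.incidenceFinset v).card := Finset.card_union_le _ _
    _ ≤ (G.comap (Subtype.val : {u : V // u ≠ v} → V)).edgeFinset.card + G.degree v := by
        rw [G.card_incidenceFinset_eq_degree v]
        exact Nat.add_le_add_right Finset.card_image_le _
-- END del

-- BEGIN ex_twelve
/-- PROOF. A vertex of degree `≤ 2`: `del`, `ex_eleven` (`Fintype.card {u // u ≠ v} = 11`), so at most `18`
edges. Otherwise all degrees are `≥ 3`; if there are `≥ 19` edges some degree is `≥ 4`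
(`∑ d ≥ 38 > 36`), and then `∑_(u ~ v) d(u) ≥ 12`, against `nbr` (`≤ 11`). -/
theorem ex_twelve {V : Type} [Fintype V] [DecidableEq V] (G : SimpleGraph V) [DecidableRel G.Adj]
    (hG : NoC G) (h : Fintype.card V = 12) : G.edgeFinset.card ≤ 18 := by
  by_cases hd : ∃ v, G.degree v ≤ 2
  · obtain ⟨v, hv⟩ := hd
    obtain ⟨H, hH, hN, hle⟩ := del G hG v
    have hc : Fintype.card {u : V // u ≠ v} = 11 := by
      have h1 : Fintype.card {u : V // ¬ u = v} = Fintype.card V - Fintype.card {u : V // u = v} :=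
        Fintype.card_subtype_compl _
      rw [Fintype.card_subtype_eq, h] at h1
      exact h1
    have h11 := ex_eleven H hN hc
    omega
  · have hd3 : ∀ v, 3 ≤ G.degree v := by
      intro v
      by_contra hlt
      exact hd ⟨v, by omega⟩
    by_contra hq
    have hs := G.sum_degrees_eq_twice_card_edges
    have h4 : ∃ v, 4 ≤ G.degree v := by
      by_contra hcon
      have h5 : ∑ v, G.degree v ≤ ∑ _v : V, 3 := by
        refine Finset.sum_le_sum fun v _ => ?_
        by_contra hlt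
        exact hcon ⟨v, by omega⟩
      rw [Finset.sum_const, Finset.card_univ, h, smul_eq_mul] at h5
      omega
    obtain ⟨v, hv⟩ := h4
    have h1 := nbr G hG v
    have h2 : ∑ _u ∈ G.neighborFinset v, 3 ≤ ∑ u ∈ G.neighborFinset v, G.degree u :=
      Finset.sum_le_sum fun u _ => hd3 u
    rw [Finset.sum_const, G.card_neighborFinset_eq_degree, smul_eq_mul] at h2
    rw [h] at h1
    omega
-- END ex_twelve

-- BEGIN lab
/-- The sums of a super edge-magic graph are an interval. PROOF. As in the proof of `upper` in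
`MP_1b49f3_co/Upper.lean`: `a v = f (inl v)`, and the edge with label `x` has sum `k - x`,
`x = p + 1, ..., p + q`; `w = k - p - q` (`w ≥ 3` as the labels of adjacent vertices are different and
`≥ 1`; `q ≥ 1`). -/
theorem lab (p q : ℕ) (hq : 1 ≤ q) (G : SimpleGraph (Fin p)) (h : SuperEdgeMagic G)
    (hc : Nat.card G.edgeSet = q) :
    ∃ (a : Fin p → ℕ) (w : ℕ), Function.Injective a ∧ (∀ v, 1 ≤ a v ∧ a v ≤ p) ∧ 3 ≤ w ∧
      w + q ≤ 2 * p ∧ ∀ s, w ≤ s → s < w + q → ∃ u v, G.Adj u v ∧ a u + a v = s := by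
  obtain ⟨f, hbij, ⟨k, hk⟩, himg⟩ := h
  have hV : Nat.card (Fin p) = p := by simp
  rw [hV] at hbij himg
  rw [hc] at hbij
  have inj : Function.Injective (fun v : Fin p => f (Sum.inl v)) := by
    intro u v huv
    have := hbij.injOn (Set.mem_univ _) (Set.mem_univ _) huv
    exact Sum.inl_injective this
  have im : ∀ v : Fin p, 1 ≤ f (Sum.inl v) ∧ f (Sum.inl v) ≤ p := by
    intro v
    have : f (Sum.inl v) ∈ Set.Icc 1 p := by
      rw [← himg]
      exact ⟨_, ⟨v, rfl⟩, rfl⟩
    exact this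
  have edge : ∀ x, p + 1 ≤ x → x ≤ p + q →
      ∃ u v, G.Adj u v ∧ f (Sum.inl u) + f (Sum.inl v) + x = k := by
    intro x h1 h2
    have hx : x ∈ f '' Set.univ := by
      rw [hbij.image_eq]
      exact ⟨by omega, h2⟩
    obtain ⟨y, _, hy⟩ := hx
    rcases y with v | e
    · have := im v
      omega
    · obtain ⟨e, he⟩ := e
      induction e using Sym2.ind with
      | _ u v =>
        have hadj : G.Adj u v := he
        refine ⟨u, v, hadj, ?_⟩
        have := hk u v hadj
        have e2 : f (Sum.inr ⟨s(u, v), hadj⟩) = x := hy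
        rw [e2] at this
        omega
  have bnd : ∀ u v, G.Adj u v → 3 ≤ f (Sum.inl u) + f (Sum.inl v) ∧
      f (Sum.inl u) + f (Sum.inl v) + 1 ≤ 2 * p := by
    intro u v huv
    have hne : f (Sum.inl u) ≠ f (Sum.inl v) := fun hh => huv.ne (inj hh)
    have := im u
    have := im v
    omega
  obtain ⟨u1, v1, a1, e1⟩ := edge (p + 1) (le_refl _) (by omega)
  obtain ⟨u2, v2, a2, e2⟩ := edge (p + q) (by omega) (le_refl _)
  have b1 := bnd u1 v1 a1
  have b2 := bnd u2 v2 a2
  refine ⟨fun v => f (Sum.inl v), k - p - q, inj, im, by omega, by omega, ?_⟩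
  intro s h3 hs
  obtain ⟨u, v, hadj, huv⟩ := edge (k - s) (by omega) (by omega)
  refine ⟨u, v, hadj, ?_⟩
  show f (Sum.inl u) + f (Sum.inl v) = s
  omega
-- END lab

-- BEGIN srch
private def srchN (E : List (ℕ × ℕ)) (x : ℕ) : List ℕ :=
  E.filterMap fun e => if e.1 = x then some e.2 else if e.2 = x then some e.1 else none

private def srchB (x y : ℕ) (E : List (ℕ × ℕ)) : Bool :=
  (srchN E x).any fun u => (srchN E y).any fun v =>
    decide (u = v) || (decide (u ≠ y) && decide (v ≠ x) && decide (v ∈ srchN E u))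

private def srchS : List (List (ℕ × ℕ)) → List (ℕ × ℕ) → Bool
  | [], _ => false
  | o :: os, E => o.all fun e => srchB e.1 e.2 E || srchS os (e :: E)

private theorem srchN_R (R : ℕ → ℕ → Prop) (sym : ∀ x y, R x y → R y x) (E : List (ℕ × ℕ))
    (hE : ∀ e ∈ E, R e.1 e.2) (x u : ℕ) (h : u ∈ srchN E x) : R x u := by
  unfold srchN at h
  rw [List.mem_filterMap] at h
  obtain ⟨e, he, h⟩ := h
  have h1 := hE e he
  split_ifs at h with h2 h3
  · rw [Option.some.injEq] at h
    rw [← h, ← h2]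
    exact h1
  · rw [Option.some.injEq] at h
    rw [← h, ← h3]
    exact sym _ _ h1

private theorem srchB_R (R : ℕ → ℕ → Prop) (sym : ∀ x y, R x y → R y x)
    (h3 : ∀ x y z, R x y → R y z → R z x → False)
    (h4 : ∀ x y z t, x ≠ z → y ≠ t → R x y → R y z → R z t → R t x → False)
    (E : List (ℕ × ℕ)) (hE : ∀ e ∈ E, R e.1 e.2) (x y : ℕ) (hxy : R x y)
    (h : srchB x y E = true) : False := by
  unfold srchB at h
  rw [List.any_eq_true] at h
  obtain ⟨u, hu, h⟩ := h
  rw [List.any_eq_true] at h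
  obtain ⟨v, hv, h⟩ := h
  have h5 := srchN_R R sym E hE x u hu
  have h6 := srchN_R R sym E hE y v hv
  rw [Bool.or_eq_true, Bool.and_eq_true, Bool.and_eq_true, decide_eq_true_eq, decide_eq_true_eq,
    decide_eq_true_eq, decide_eq_true_eq] at h
  rcases h with h | ⟨⟨h7, h8⟩, h9⟩
  · rw [← h] at h6
    exact h3 x u y h5 (sym _ _ h6) (sym _ _ hxy)
  · have h10 := srchN_R R sym E hE u v h9
    exact h4 x u v y (Ne.symm h8) h7 h5 h10 (sym _ _ h6) (sym _ _ hxy)

private theorem srchS_R (R : ℕ → ℕ → Prop) (sym : ∀ x y, R x y → R y x)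
    (h3 : ∀ x y z, R x y → R y z → R z x → False)
    (h4 : ∀ x y z t, x ≠ z → y ≠ t → R x y → R y z → R z t → R t x → False)
    (os : List (List (ℕ × ℕ))) : ∀ (E : List (ℕ × ℕ)), (∀ e ∈ E, R e.1 e.2) →
    (∀ o ∈ os, ∃ e ∈ o, R e.1 e.2) → srchS os E = true → False := by
  induction os with
  | nil =>
    intro E _ _ h
    simp [srchS] at h
  | cons o os ih =>
    intro E hE ho h
    obtain ⟨e, he, hR⟩ := ho o (List.mem_cons_self ..)
    unfold srchS at h
    rw [List.all_eq_true] at h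
    have h5 := h e he
    rw [Bool.or_eq_true] at h5
    rcases h5 with h5 | h5
    · exact srchB_R R sym h3 h4 E hE e.1 e.2 hR h5
    · refine ih (e :: E) ?_ (fun o' ho' => ho o' (List.mem_cons_of_mem _ ho')) h5
      intro e' he'
      rcases List.mem_cons.1 he' with h6 | h6
      · rw [h6]
        exact hR
      · exact hE e' h6

private def srchO : List (List (ℕ × ℕ)) :=
  [[(1, 3)], [(1, 4), (2, 3)], [(1, 5), (2, 4)], [(1, 6), (2, 5), (3, 4)],
    [(1, 7), (2, 6), (3, 5)], [(2, 7), (3, 6), (4, 5)], [(3, 7), (4, 6)], [(4, 7), (5, 6)]]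

private theorem srch_true : srchS srchO [] = true := by decide +kernel

/-- There is no choice of the pairs for the sums `4, ..., 11` among the labels `1, ..., 7` without a
cycle of length three or four. Here `R` is the set of the chosen pairs (smaller label first).
PROOF. The options: `4`: `13`; `5`: `14, 23`; `6`: `15, 24`; `7`: `16, 25, 34`; `8`: `17, 26, 35`; `9`: `27, 36, 45`;
`10`: `37, 46`; `11`: `47, 56`: 432 cases, each has a triangle or a `4`-cycle. Either `rcases` with
pruning (first choose `4, 5, 6, 7, 8` and close by a triangle or `4`-cycle as soon as there is one;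
`simp_all` or `exact h3 _ _ _ ..`), or reduce to a boolean search over lists and `decide +kernel`. -/
theorem srch (R : ℕ → ℕ → Prop)
    (hs : ∀ s, 4 ≤ s → s ≤ 11 → ∃ x y, 1 ≤ x ∧ x < y ∧ y ≤ 7 ∧ x + y = s ∧ R x y)
    (sym : ∀ x y, R x y → R y x)
    (h3 : ∀ x y z, R x y → R y z → R z x → False)
    (h4 : ∀ x y z t, x ≠ z → y ≠ t → R x y → R y z → R z t → R t x → False) : False := by
  refine srchS_R R sym h3 h4 srchO [] (fun e he => absurd he (List.not_mem_nil)) ?_ srch_true
  have key : ∀ s, 4 ≤ s → s ≤ 11 → ∃ x y, (1 ≤ x ∧ x ≤ 5) ∧ (y = s - x ∧ x < s - x ∧ s - x ≤ 7) ∧ R x y := by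
    intro s h5 h6
    obtain ⟨x, y, h7, h8, h9, h10, h11⟩ := hs s h5 h6
    exact ⟨x, y, ⟨h7, by omega⟩, ⟨by omega, by omega, by omega⟩, h11⟩
  intro o ho
  have ho2 : o ∈ srchO := ho
  unfold srchO at ho2
  simp only [List.mem_cons, List.not_mem_nil, or_false] at ho2
  rcases ho2 with rfl | rfl | rfl | rfl | rfl | rfl | rfl | rfl
  · obtain ⟨x, y, ⟨h5, h6⟩, ⟨rfl, h7, h8⟩, h9⟩ := key 4 (by norm_num) (by norm_num)
    refine ⟨(x, 4 - x), ?_, h9⟩
    clear h9 key ho
    revert h7 h8
    interval_cases x <;> decide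
  · obtain ⟨x, y, ⟨h5, h6⟩, ⟨rfl, h7, h8⟩, h9⟩ := key 5 (by norm_num) (by norm_num)
    refine ⟨(x, 5 - x), ?_, h9⟩
    clear h9 key ho
    revert h7 h8
    interval_cases x <;> decide
  · obtain ⟨x, y, ⟨h5, h6⟩, ⟨rfl, h7, h8⟩, h9⟩ := key 6 (by norm_num) (by norm_num)
    refine ⟨(x, 6 - x), ?_, h9⟩
    clear h9 key ho
    revert h7 h8
    interval_cases x <;> decide
  · obtain ⟨x, y, ⟨h5, h6⟩, ⟨rfl, h7, h8⟩, h9⟩ := key 7 (by norm_num) (by norm_num)
    refine ⟨(x, 7 - x), ?_, h9⟩
    clear h9 key ho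
    revert h7 h8
    interval_cases x <;> decide
  · obtain ⟨x, y, ⟨h5, h6⟩, ⟨rfl, h7, h8⟩, h9⟩ := key 8 (by norm_num) (by norm_num)
    refine ⟨(x, 8 - x), ?_, h9⟩
    clear h9 key ho
    revert h7 h8
    interval_cases x <;> decide
  · obtain ⟨x, y, ⟨h5, h6⟩, ⟨rfl, h7, h8⟩, h9⟩ := key 9 (by norm_num) (by norm_num)
    refine ⟨(x, 9 - x), ?_, h9⟩
    clear h9 key ho
    revert h7 h8
    interval_cases x <;> decide
  · obtain ⟨x, y, ⟨h5, h6⟩, ⟨rfl, h7, h8⟩, h9⟩ := key 10 (by norm_num) (by norm_num)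
    refine ⟨(x, 10 - x), ?_, h9⟩
    clear h9 key ho
    revert h7 h8
    interval_cases x <;> decide
  · obtain ⟨x, y, ⟨h5, h6⟩, ⟨rfl, h7, h8⟩, h9⟩ := key 11 (by norm_num) (by norm_num)
    refine ⟨(x, 11 - x), ?_, h9⟩
    clear h9 key ho
    revert h7 h8
    interval_cases x <;> decide
-- END srch

-- BEGIN srch3
/-- The same for the sums `3, ..., 10`. PROOF. `3`: `12`; `4`: `13`; `5`: `14` (`23` gives the triangle `1 2 3`); `6`:
`15` (`24`: triangle `1 2 4`); `7`: `16` (`25`, `34`); `8`: `17` (`26`, `35`); `9`: `27, 36, 45` all give a triangle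
with `1`. -/
theorem srch3 (R : ℕ → ℕ → Prop)
    (hs : ∀ s, 3 ≤ s → s ≤ 10 → ∃ x y, 1 ≤ x ∧ x < y ∧ y ≤ 7 ∧ x + y = s ∧ R x y)
    (sym : ∀ x y, R x y → R y x)
    (h3 : ∀ x y z, R x y → R y z → R z x → False) : False := by
  have tri : ∀ x y, R 1 x → R 1 y → R x y → False := fun x y a b c => h3 1 x y a c (sym _ _ b)
  have r2 : R 1 2 := by
    obtain ⟨x, y, a1, a2, a3, a4, r⟩ := hs 3 (by omega) (by omega)
    obtain ⟨rfl, rfl⟩ : x = 1 ∧ y = 2 := by omega
    exact r
  have r3 : R 1 3 := by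
    obtain ⟨x, y, a1, a2, a3, a4, r⟩ := hs 4 (by omega) (by omega)
    obtain ⟨rfl, rfl⟩ : x = 1 ∧ y = 3 := by omega
    exact r
  have r4 : R 1 4 := by
    obtain ⟨x, y, a1, a2, a3, a4, r⟩ := hs 5 (by omega) (by omega)
    obtain ⟨rfl, rfl⟩ | ⟨rfl, rfl⟩ : (x = 1 ∧ y = 4) ∨ (x = 2 ∧ y = 3) := by omega
    · exact r
    · exact (tri 2 3 r2 r3 r).elim
  have r5 : R 1 5 := by
    obtain ⟨x, y, a1, a2, a3, a4, r⟩ := hs 6 (by omega) (by omega)
    obtain ⟨rfl, rfl⟩ | ⟨rfl, rfl⟩ : (x = 1 ∧ y = 5) ∨ (x = 2 ∧ y = 4) := by omega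
    · exact r
    · exact (tri 2 4 r2 r4 r).elim
  have r6 : R 1 6 := by
    obtain ⟨x, y, a1, a2, a3, a4, r⟩ := hs 7 (by omega) (by omega)
    obtain ⟨rfl, rfl⟩ | ⟨rfl, rfl⟩ | ⟨rfl, rfl⟩ :
      (x = 1 ∧ y = 6) ∨ (x = 2 ∧ y = 5) ∨ (x = 3 ∧ y = 4) := by omega
    · exact r
    · exact (tri 2 5 r2 r5 r).elim
    · exact (tri 3 4 r3 r4 r).elim
  have r7 : R 1 7 := by
    obtain ⟨x, y, a1, a2, a3, a4, r⟩ := hs 8 (by omega) (by omega)
    obtain ⟨rfl, rfl⟩ | ⟨rfl, rfl⟩ | ⟨rfl, rfl⟩ :
      (x = 1 ∧ y = 7) ∨ (x = 2 ∧ y = 6) ∨ (x = 3 ∧ y = 5) := by omega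
    · exact r
    · exact (tri 2 6 r2 r6 r).elim
    · exact (tri 3 5 r3 r5 r).elim
  obtain ⟨x, y, a1, a2, a3, a4, r⟩ := hs 9 (by omega) (by omega)
  obtain ⟨rfl, rfl⟩ | ⟨rfl, rfl⟩ | ⟨rfl, rfl⟩ :
    (x = 2 ∧ y = 7) ∨ (x = 3 ∧ y = 6) ∨ (x = 4 ∧ y = 5) := by omega
  · exact tri 2 7 r2 r7 r
  · exact tri 3 6 r3 r6 r
  · exact tri 4 5 r4 r5 r
-- END srch3

-- BEGIN seven
private theorem seven_core (G : SimpleGraph (Fin 7)) (hG : NoC G) (b : Fin 7 → ℕ)
    (inj : Function.Injective b) (im : ∀ v, 1 ≤ b v ∧ b v ≤ 7) (w : ℕ) (hw : w = 3 ∨ w = 4)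
    (hs : ∀ s, w ≤ s → s < w + 8 → ∃ u v, G.Adj u v ∧ b u + b v = s) : False := by
  obtain ⟨R, hR⟩ : ∃ R : ℕ → ℕ → Prop, ∀ x y, R x y ↔ ∃ u v, G.Adj u v ∧ b u = x ∧ b v = y :=
    ⟨_, fun _ _ => Iff.rfl⟩
  have sym : ∀ x y, R x y → R y x := by
    intro x y h
    obtain ⟨u, v, h1, h2, h3⟩ := (hR x y).1 h
    exact (hR y x).2 ⟨v, u, h1.symm, h3, h2⟩
  have h3 : ∀ x y z, R x y → R y z → R z x → False := by
    intro x y z hxy hyz hzx
    obtain ⟨u, v, a1, a2, a3⟩ := (hR x y).1 hxy
    obtain ⟨v', t, b1, b2, b3⟩ := (hR y z).1 hyz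
    obtain ⟨t', u', c1, c2, c3⟩ := (hR z x).1 hzx
    obtain rfl : v = v' := inj (a3.trans b2.symm)
    obtain rfl : t = t' := inj (b3.trans c2.symm)
    obtain rfl : u = u' := inj (a2.trans c3.symm)
    exact hG.1 u v t a1 b1 c1
  have h4 : ∀ x y z t, x ≠ z → y ≠ t → R x y → R y z → R z t → R t x → False := by
    intro x y z t hxz hyt hxy hyz hzt htx
    obtain ⟨u, v, a1, a2, a3⟩ := (hR x y).1 hxy
    obtain ⟨v', m, b1, b2, b3⟩ := (hR y z).1 hyz
    obtain ⟨m', n, c1, c2, c3⟩ := (hR z t).1 hzt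
    obtain ⟨n', u', d1, d2, d3⟩ := (hR t x).1 htx
    obtain rfl : v = v' := inj (a3.trans b2.symm)
    obtain rfl : m = m' := inj (b3.trans c2.symm)
    obtain rfl : n = n' := inj (c3.trans d2.symm)
    obtain rfl : u = u' := inj (a2.trans d3.symm)
    refine hG.2 u v m n ?_ ?_ a1 b1 c1 d1
    · rintro rfl
      exact hxz (a2.symm.trans b3)
    · rintro rfl
      exact hyt (a3.symm.trans c3)
  have hs' : ∀ s, w ≤ s → s < w + 8 → ∃ x y, 1 ≤ x ∧ x < y ∧ y ≤ 7 ∧ x + y = s ∧ R x y := by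
    intro s hs1 hs2
    obtain ⟨u, v, huv, he⟩ := hs s hs1 hs2
    have hu := im u
    have hv := im v
    have hne : b u ≠ b v := fun h => huv.ne (inj h)
    rcases lt_or_gt_of_ne hne with h | h
    · exact ⟨b u, b v, hu.1, h, hv.2, he, (hR _ _).2 ⟨u, v, huv, rfl, rfl⟩⟩
    · exact ⟨b v, b u, hv.1, h, hu.2, by omega, (hR _ _).2 ⟨v, u, huv.symm, rfl, rfl⟩⟩
  rcases hw with rfl | rfl
  · exact srch3 R (fun s h1 h2 => hs' s h1 (by omega)) sym h3
  · exact srch R (fun s h1 h2 => hs' s h1 (by omega)) sym h3 h4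

/-- PROOF. `lab` with `p = 7`, `q = 8`: `3 ≤ w ≤ 6`. `R x y` is `∃ u v, G.Adj u v ∧ a u = x ∧ a v = y` for `w = 3, 4`
(`srch3`, `srch`), and with `8 - a u` in place of `a u` for `w = 6, 5` (the sums `16 - s`). `NoC` and the
injectivity of `a` give `h3`, `h4`. -/
theorem seven (G : SimpleGraph (Fin 7)) (h : SuperEdgeMagic G) (hG : NoC G) :
    Nat.card G.edgeSet ≠ 8 := by
  intro hc
  obtain ⟨a, w, inj, im, h3, h4, hs⟩ := lab 7 8 (by norm_num) G h hc
  by_cases hw : w ≤ 4
  · exact seven_core G hG a inj im w (by omega) hs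
  · refine seven_core G hG (fun v => 8 - a v) ?_ ?_ (9 - w) (by omega) ?_
    · intro u v huv
      have h1 := im u
      have h2 := im v
      apply inj
      simp only at huv
      omega
    · intro v
      have := im v
      omega
    · intro s h1 h2
      obtain ⟨u, v, huv, he⟩ := hs (16 - s) (by omega) (by omega)
      have := im u
      have := im v
      exact ⟨u, v, huv, by omega⟩
-- END seven

-- BEGIN few
/-- No graph of girth five on fewer than five vertices. PROOF. A cycle of length `5`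
(`SimpleGraph.exists_girth_eq_length`) has `5` different vertices (`IsCycle.support_nodup`, the tail
of the support has length `5`), `List.Nodup.length_le_card`. -/
theorem few (p : ℕ) (hp : p < 5) (G : SimpleGraph (Fin p)) : G.girth ≠ 5 := by
  intro h
  have hc : ¬ G.IsAcyclic := fun h0 => by
    rw [SimpleGraph.girth_eq_zero.2 h0] at h
    omega
  obtain ⟨a, w, hw, hl⟩ := SimpleGraph.exists_girth_eq_length.2 hc
  have h1 := hw.support_nodup.length_le_card
  rw [List.length_tail, SimpleGraph.Walk.length_support, Fintype.card_fin, ← hl, h] at h1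
  omega
-- END few

end Pool.Agent.GFv
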